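import Pool.Agent.KD.ExactK

set_option autoImplicit false

/-!
# Exact non-speciality in one given degree, given the leaves

`exactKy` is `Pool.Agent.KD.exactK` with a free parameter `y` in place of `d + 2`; `goodKd`: all
virtual dimensions in one degree.
-/

namespace Pool.Agent.KB

open Pool.Agent.helper89.Segre Pool.Agent.SH9 Pool.Agent.helper61.EX Pool.Agent.KD

theorem exactKy {V M N d T q sx y U e r0 : ℕ} {S : Finset ℕ} {mn Ex : Multiset ℕ} (hV : 341 ≤ V)
    (hS : ∀ x ∈ S, 1 ≤ x ∧ x ≤ M) (hM : 6 * M + 4 ≤ U) (hU : U = 3 * V + 3)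
    (he : e = 120 * U * S.card) (hr0 : r0 = 3 * S.card * (M + 1))
    (L : Leaves V (2 * S.card) N d T Ex) (hmn : ∀ x ∈ mn, x ∈ S)
    (hT : 2 * cd mn + cd Ex ≤ T) (hEx : s1 Ex ≤ sx + 3 * d)
    (hN : 4 * (N * (U * (U + 1)) + U * e) + 9 * S.card * (M * (M + 1)) ≤ 6 * cd mn)
    (hq : 603 * ((M + 1) * mn.sum) ≤ 400 * V * q)
    (hbig : 4 * (6 * q + 6 * e + 3 * r0 + 3 * sx + 2 * (2 * M + 1)) + r0 ≤ mn.sum)
    (hd : 4 * (2 * q + 2 * e + r0 + sx + y) + r0 ≤ mn.sum) :
    (cd (mn + Ex) ≤ (tri d).card → Good ℂ (tri d) (mn + Ex) (cd (mn + Ex))) ∧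
    ((tri d).card < cd (mn + Ex) → cd (mn + Ex) ≤ (tri d).card + y → E d (mn + Ex)) := by
  classical
  obtain ⟨G, R0, hG, hR0, hpts, hcard, hsum⟩ := exists_g4S S mn hmn
  have hR0M : ∀ x ∈ R0, x ≤ M := fun x hx => (hS x (hR0 x hx)).2
  have hs1R0 : s1 R0 ≤ r0 := by
    refine (s1_le_card R0 hR0M).trans ?_
    rw [hr0]
    exact Nat.mul_le_mul_right _ hcard
  have hsumR0 : R0.sum ≤ r0 := (sum_le_s1 R0).trans hs1R0
  have hcdR0 : 2 * cd R0 ≤ 3 * S.card * (M * (M + 1)) :=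
    (cd_le_card' R0 hR0M).trans (Nat.mul_le_mul_right _ hcard)
  have hok : ∀ g ∈ G, g.Ok := by
    intro g hg
    obtain ⟨x, hx, rfl⟩ := hG g hg
    exact g4_ok (hS x hx).1
  have hMM : ∀ g ∈ G, g.t + 2 ≤ 2 * M + 1 := by
    intro g hg
    obtain ⟨x, hx, rfl⟩ := hG g hg
    have := hS x hx
    show 2 * x - 1 + 2 ≤ 2 * M + 1
    omega
  have hκ : ∀ g ∈ G, g.σ ≤ 1 * g.ρ := by
    intro g hg
    obtain ⟨x, hx, rfl⟩ := hG g hg
    show x ≤ 1 * (x + 1)
    omega
  have hcdmn : cd (pts G) + cd R0 = cd mn := by rw [← cd_add, hpts]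
  have hcdtot : cd (mn + Ex) = cd mn + cd Ex := cd_add _ _
  have hcdRE : cd (R0 + Ex) = cd R0 + cd Ex := cd_add _ _
  have hcdsum : 2 * cd (pts G) ≤ (M + 1) * mn.sum := by
    have h1 := cd_le_sum (M := M) mn (fun x hx => (hS x (hmn x hx)).2)
    omega
  -- the leaves
  have hleaf : ∀ A B : Multiset Grp, A + B = G →
      ∃ (F P : Multiset Grp) (R : Multiset ℕ), Plan (3 * V + 3) (2 * S.card) e (up A + lo B) F P R ∧
        s1 (up F) ≤ q ∧ N ≤ Multiset.card F ∧ cd (up A + lo B) + cd (R0 + Ex) ≤ T := by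
    intro A B hAB
    have hA : ∀ g ∈ A, g ∈ G := fun g hg => by rw [← hAB]; exact Multiset.mem_add.mpr (Or.inl hg)
    have hB : ∀ g ∈ B, g ∈ G := fun g hg => by rw [← hAB]; exact Multiset.mem_add.mpr (Or.inr hg)
    obtain ⟨F, P, R, h⟩ := leaf_plan (V := V) (M := M) hV hS (by omega)
      (fun g hg => hG g (hA g hg)) (fun g hg => hG g (hB g hg))
    rw [← hU, ← he] at h
    have hcA := cd_up (fun g hg => hok g (hA g hg))
    have hcB := cd_lo (fun g hg => hok g (hB g hg))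
    obtain ⟨hA1, -⟩ := rh_g4 (A := A) (fun g hg => by
      obtain ⟨x, hx, hgx⟩ := hG g (hA g hg)
      exact ⟨x, (hS x hx).1, hgx⟩)
    obtain ⟨-, hB1⟩ := rh_g4 (A := B) (fun g hg => by
      obtain ⟨x, hx, hgx⟩ := hG g (hB g hg)
      exact ⟨x, (hS x hx).1, hgx⟩)
    have hptsAB : cd (pts G) = cd (pts A) + cd (pts B) := by rw [← hAB, pts_add, cd_add]
    have hcdY : cd (up A + lo B) = cd (up A) + cd (lo B) := cd_add _ _
    have e9 : 9 * S.card * (M * (M + 1)) = 3 * (3 * S.card * (M * (M + 1))) := by ring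
    have e4 : 400 * V * q = 4 * (100 * V * q) := by ring
    rw [e9] at hN
    rw [e4] at hq
    clear hbig hd hMM hκ hok hG
    obtain ⟨h1, h2⟩ := leaf_facts (N := N) (q := q) hV hU h (by omega) (by omega)
    rw [hU] at h
    exact ⟨F, P, R, h, h1, h2, by omega⟩
  have hR0U : ∀ x ∈ R0, x ≤ 3 * V + 3 := fun x hx => by have := hR0M x hx; omega
  have hreg : ∀ A B : Multiset Grp, A + B = G →
      cd (up A + lo B + (R0 + Ex)) + (2 * q + 2 * e + s1 R0 + sx) ≤ (tri d).card →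
      Good ℂ (tri d) (up A + lo B + (R0 + Ex)) (cd (up A + lo B + (R0 + Ex))) := by
    intro A B hAB hcd
    obtain ⟨F, P, R, h, h1, h2, h3⟩ := hleaf A B hAB
    exact reg_leaf (T := T) hV L h h1 h2 hR0U hEx hcd
  have hemp : ∀ A B : Multiset Grp, A + B = G →
      (tri d).card + (2 * q + 2 * e + s1 R0 + sx) ≤ cd (up A + lo B + (R0 + Ex)) →
      E d (up A + lo B + (R0 + Ex)) := by
    intro A B hAB hcd
    obtain ⟨F, P, R, h, h1, h2, h3⟩ := hleaf A B hAB
    exact emp_leaf (T := T) hV L h h1 h2 hR0U hEx (by rw [cd_add]; exact h3) hcd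
  have hpR : ∀ v : ℕ, pts G + (R0 + Ex) + Multiset.replicate v 1 =
      mn + Ex + Multiset.replicate v 1 := by
    intro v
    rw [← add_assoc (pts G), hpts]
  constructor
  · intro hC
    have h3 := exact_of_stripP (v := (tri d).card - cd (mn + Ex)) G (R0 + Ex) hok hMM hκ hreg hemp
      (by omega) (by omega) (by omega)
    rw [hpR] at h3
    obtain ⟨L, h4, h5, h6⟩ := good_of_E_ones h3
    exact ⟨L, h4, h5, h6.le (by omega)⟩
  · intro hC1 hC2
    have h3 := exact_of_stripP (v := 0) G (R0 + Ex) hok hMM hκ hreg hemp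
      (by omega) (by omega) (by omega)
    rw [hpR, Multiset.replicate_zero, add_zero] at h3
    exact h3


/-- **Non-speciality in one given degree, given the leaves.** -/
theorem goodKd {V M N d q sx U e r0 : ℕ} {S : Finset ℕ} {mn Ex : Multiset ℕ} (hV : 341 ≤ V)
    (hS : ∀ x ∈ S, 1 ≤ x ∧ x ≤ M) (hM : 6 * M + 4 ≤ U) (hU : U = 3 * V + 3)
    (he : e = 120 * U * S.card) (hr0 : r0 = 3 * S.card * (M + 1))
    (L : Leaves V (2 * S.card) N d (2 * cd mn + cd Ex) Ex) (hmn : ∀ x ∈ mn, x ∈ S)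
    (hEx : s1 Ex ≤ sx + 3 * d)
    (hN : 4 * (N * (U * (U + 1)) + U * e) + 9 * S.card * (M * (M + 1)) ≤ 6 * cd mn)
    (hq : 603 * ((M + 1) * mn.sum) ≤ 400 * V * q)
    (hbig : 4 * (6 * q + 6 * e + 3 * r0 + 3 * sx + 2 * (2 * M + 1)) + r0 ≤ mn.sum) :
    Good ℂ (tri d) (mn + Ex) (min (cd (mn + Ex)) (tri d).card) := by
  obtain ⟨h1, h2⟩ := exactKy (y := 2 * q + 2 * e + r0 + sx) hV hS hM hU he hr0 L hmn le_rfl hEx hN hq
    hbig (by omega)
  rcases Nat.lt_or_ge (tri d).card (cd (mn + Ex)) with h3 | h3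
  · rw [min_eq_right h3.le]
    show E d (mn + Ex)
    rcases Nat.lt_or_ge ((tri d).card + (2 * q + 2 * e + r0 + sx)) (cd (mn + Ex)) with h4 | h4
    · have hmnM : ∀ x ∈ mn, x ≤ M := fun x hx => (hS x (hmn x hx)).2
      obtain ⟨F, P, R, h⟩ := exists_plan (U := 3 * V + 3) (by omega) S
        (fun x hx => by have := hS x hx; omega) mn (fun x hx => by have := hmnM x hx; omega)
      have h5 : mn.filter (fun x => x ∉ S) = 0 := by
        rw [Multiset.filter_eq_nil]
        intro x hx hxS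
        exact hxS (hmn x hx)
      have h6 : s1 0 = 0 := by simp [s1]
      rw [h5, h6, add_zero] at h
      have h7 : 60 * (3 * V + 3) * S.card ≤ e := by
        rw [he, hU]
        exact Nat.mul_le_mul_right _ (Nat.mul_le_mul_right _ (by norm_num))
      have h8 := h.mono (k' := 2 * S.card) (e' := e) (by omega) h7
      have h9 := cd_le_sum (M := M) mn hmnM
      obtain ⟨h10, h11⟩ := leaf_facts (N := N) (q := q) hV hU (by rw [← hU] at h8; exact h8)
        (by omega) (by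
          have : 603 * (2 * cd mn) ≤ 400 * V * q := (Nat.mul_le_mul_left _ h9).trans hq
          have e4 : 400 * V * q = 4 * (100 * V * q) := by ring
          omega)
      have e1 : mn + Ex = mn + (0 + Ex) := by rw [zero_add]
      rw [e1]
      rw [e1] at h4
      refine emp_leaf (q := q) (e := e) (sx := sx) hV L h8 h10 h11 ?_ hEx ?_ ?_
      · intro x hx
        exact absurd hx (Multiset.notMem_zero x)
      · rw [zero_add, Pool.Agent.helper61.EX.cd_add]
        omega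
      · rw [h6]
        omega
    · exact h2 h3 h4
  · rw [min_eq_left h3]
    exact h1 h3

end Pool.Agent.KB
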