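import Pool.Agent.KB.N3
import Pool.Agent.KD.V5

set_option autoImplicit false

/-!
# Module N5 (project KB): nefness with big points

Copy of KD/V5. `nrm_pot`: induction on `J`, all `ws` and all `κ` with `κ0 ≤ κ`, `(5^J + 1) sq ≤ 5^J κ²`.
`J = 0`: `nrm_base`. `J + 1`: as in `nm_pot` one collision `c ∈ [V, W0]`; `z = 5^J`,
`κ' = max κ √((1 + 1/z) sq)`: if `(z + 1) sq ≤ z κ²` then `κ' = κ`, otherwise
`κ' = √((z + 1)/z · sq) ≥ κ ≥ κ0`; the induction hypothesis for `κ'`; `nrm_step` with `W = 4 W0`.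
-/

namespace Pool.Agent.KB

open MvPolynomial Pool.Agent.helper5.NBS Pool.Agent.helper89.Segre Pool.Agent.helper22.SC
  Pool.Agent.helper89.Exp Pool.Agent.helper25.CF Pool.Agent.KD

theorem nrm_pot {V W0 K0 : ℕ} (hV : 0 < V) (hVW : V ≤ W0) (hK0 : 256 * W0 ^ 2 + V ^ 2 ≤ K0 * V ^ 2)
    {Bg : Multiset ℕ} {κ0 : ℝ} (hκ00 : 0 ≤ κ0) (hB : NRm κ0 ((4 * W0) ::ₘ Bg))
    (J : ℕ) : ∀ (ws : Multiset ℕ) (κ : ℝ), (∀ x ∈ ws, x ≤ 4 * W0) → J ≤ pot V W0 K0 ws →
      κ0 ≤ κ → (5 ^ J + 1) * (sq (Bg + ws) : ℝ) ≤ 5 ^ J * κ ^ 2 → NRm κ (Bg + ws) := by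
  induction J with
  | zero =>
    intro ws κ _ _ hκ h
    refine nrm_base (hκ00.trans hκ) ?_
    rw [pow_zero] at h
    linarith
  | succ J ih =>
    intro ws κ hws hJ hκ h
    -- a class with many points
    obtain ⟨c, hc, hc1⟩ : ∃ c ∈ Finset.Icc V W0, 0 < (ws.count c - K0) / 16 := by
      apply Finset.exists_lt_of_sum_lt (f := fun _ => 0)
      rw [Finset.sum_const_zero]
      have : pot V W0 K0 ws = ∑ c ∈ Finset.Icc V W0, (ws.count c - K0) / 16 := rfl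
      omega
    obtain ⟨hVc, hcW⟩ := Finset.mem_Icc.mp hc
    have hcount : K0 + 16 ≤ ws.count c := by omega
    obtain ⟨K, hK⟩ : ∃ K, ws.count c = K + 16 := ⟨ws.count c - 16, by omega⟩
    obtain ⟨ws0, hws0⟩ : ∃ ws0, ws0 = ws.filter (fun x => ¬ x = c) := ⟨_, rfl⟩
    have hsplit : ws = Multiset.replicate (K + 16) c + ws0 := by
      rw [← hK, ← Multiset.filter_eq', hws0, Multiset.filter_add_not]
    have hws0' : ∀ x ∈ ws0, x ≤ 4 * W0 := by
      intro x hx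
      apply hws
      rw [hsplit]
      exact Multiset.mem_add.mpr (Or.inr hx)
    obtain ⟨ws', hws'⟩ : ∃ ws', ws' = (4 * c) ::ₘ (Multiset.replicate K c + ws0) := ⟨_, rfl⟩
    have hsq : sq (Bg + ws') = sq (Bg + ws) := by
      rw [hws', hsplit, sq_add', sq_add', sq_cons', sq_add', sq_add', sq_replicate', sq_replicate']
      ring
    have hle : ∀ x ∈ ws', x ≤ 4 * W0 := by
      intro x hx
      rw [hws'] at hx
      rcases Multiset.mem_cons.mp hx with rfl | hx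
      · omega
      rcases Multiset.mem_add.mp hx with hx | hx
      · rw [Multiset.eq_of_mem_replicate hx]; omega
      · exact hws0' x hx
    have hpot : pot V W0 K0 ws ≤ pot V W0 K0 ws' + 1 := by
      have h1 : ∀ c' ∈ Finset.Icc V W0, (ws.count c' - K0) / 16 ≤
          (ws'.count c' - K0) / 16 + (if c' = c then 1 else 0) := by
        intro c' _
        have h2 : ws.count c' = (Multiset.replicate (K + 16) c).count c' + ws0.count c' := by
          rw [← Multiset.count_add, ← hsplit]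
        have h3 : (Multiset.replicate K c).count c' + ws0.count c' ≤ ws'.count c' := by
          rw [hws', ← Multiset.count_add]
          exact Multiset.count_le_count_cons _ _ _
        rw [Multiset.count_replicate] at h2 h3
        by_cases h4 : c' = c
        · rw [if_pos h4.symm] at h2 h3
          rw [if_pos h4]
          omega
        · rw [if_neg (Ne.symm h4)] at h2 h3
          rw [if_neg h4]
          omega
      have h5 := Finset.sum_le_sum h1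
      rw [Finset.sum_add_distrib, Finset.sum_ite_eq' (Finset.Icc V W0) c (fun _ => 1),
        if_pos hc] at h5
      exact h5
    -- the numerical condition
    have hnum : 16 * (4 * W0) ^ 2 + c ^ 2 ≤ (K + 16) * c ^ 2 := by
      have hKK : K0 ≤ K + 16 := by omega
      obtain ⟨k, hk⟩ : ∃ k, K0 = k + 1 := by
        rcases Nat.eq_zero_or_pos K0 with h | h
        · exfalso
          rw [h, zero_mul] at hK0
          have : 0 < V ^ 2 := by positivity
          omega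
        · exact ⟨K0 - 1, by omega⟩
      rw [hk] at hK0 hKK
      have h1 : (k + 1) * V ^ 2 = k * V ^ 2 + V ^ 2 := by ring
      have h2 : k * V ^ 2 ≤ k * c ^ 2 := Nat.mul_le_mul_left _ (Nat.pow_le_pow_left hVc 2)
      have h3 : (k + 1) * c ^ 2 ≤ (K + 16) * c ^ 2 := Nat.mul_le_mul_right _ hKK
      have h4 : (k + 1) * c ^ 2 = k * c ^ 2 + c ^ 2 := by ring
      have h5 : 16 * (4 * W0) ^ 2 = 256 * W0 ^ 2 := by ring
      omega
    obtain ⟨z, hz⟩ : ∃ z : ℝ, z = 5 ^ J := ⟨_, rfl⟩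
    have hz0 : 0 < z := by rw [hz]; positivity
    have h5z : (5 : ℝ) ^ (J + 1) = 5 * z := by rw [hz, pow_succ]; ring
    obtain ⟨q, hq⟩ : ∃ q : ℝ, q = (sq (Bg + ws) : ℝ) := ⟨_, rfl⟩
    have hq0 : 0 ≤ q := by rw [hq]; positivity
    rw [h5z, ← hq] at h
    obtain ⟨κ', hκ1, hκ2, hκ3⟩ : ∃ κ' : ℝ, κ0 ≤ κ' ∧ (z + 1) * q ≤ z * κ' ^ 2 ∧
        (κ' = κ ∨ (0 ≤ κ' ∧ z * κ' ^ 2 ≤ (z + 1) * q)) := by
      by_cases hcase : (z + 1) * q ≤ z * κ ^ 2
      · exact ⟨κ, hκ, hcase, Or.inl rfl⟩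
      · push Not at hcase
        have hnn : 0 ≤ (z + 1) / z * q := by positivity
        have hsq' : z * Real.sqrt ((z + 1) / z * q) ^ 2 = (z + 1) * q := by
          rw [Real.sq_sqrt hnn]
          field_simp
        refine ⟨Real.sqrt ((z + 1) / z * q), ?_, hsq'.ge, Or.inr ⟨Real.sqrt_nonneg _, hsq'.le⟩⟩
        refine hκ.trans ?_
        apply Real.le_sqrt_of_sq_le
        rw [div_mul_eq_mul_div, le_div_iff₀ hz0]
        linarith
    have key := ih ws' κ' hle (by omega) hκ1 (by rw [hsq, ← hq, ← hz]; exact hκ2)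
    rw [hws'] at key
    have hq' : (sq (Bg + (Multiset.replicate (K + 16) c + ws0)) : ℝ) = q := by rw [hq, hsplit]
    rw [hsplit]
    refine nrm_step (W := 4 * W0) (z := z) (κ' := κ') (κ0 := κ0) (by omega) (by omega) hws0' hnum
      hz0 hB hκ00 hκ ?_ ?_ key
    · rw [hq']; exact h
    · rw [hq']; exact hκ3

lemma nrm_of_nefPm {D : ℕ} {ws : Multiset ℕ} (h : NefPm D ws) : NRm (D : ℝ) ws := by
  intro n w hw
  obtain ⟨T, hT, hT0, hTp⟩ := h n w hw
  refine ⟨T, hT, hT0, fun p hp F hF => ?_⟩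
  have := (hTp p hp).2 F hF
  show ∑ i, (w i : ℝ) * (mult (p i) F : ℝ) ≤ (D : ℝ) * (wdeg 1 F : ℝ)
  exact_mod_cast this

lemma nefPm_of_nrm {D : ℕ} {ws : Multiset ℕ} (h : NRm (D : ℝ) ws) : NefPm D ws := by
  intro n w hw
  obtain ⟨T, hT, hT0, hTp⟩ := h n w hw
  refine ⟨T ∪ TN one_pos n, hT.union (TN_countable one_pos _), ?_, ?_⟩
  · rintro Q (hQ | hQ)
    · exact hT0 Q hQ
    · exact TN_ne one_pos _ Q hQ
  · intro q hq
    refine ⟨(VGN_of one_pos (fun Q hQ => hq Q (Or.inr hQ))).inj, fun F hF => ?_⟩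
    have h1 : ∑ i, (w i : ℝ) * (mult (q i) F : ℝ) ≤ (D : ℝ) * (wdeg 1 F : ℝ) :=
      hTp q (fun Q hQ => hq Q (Or.inl hQ)) F hF
    exact_mod_cast h1

/-- **nefness with big points** -/
theorem nefKB {V W0 K0 J D0 : ℕ} {Bg ws : Multiset ℕ} (hV : 0 < V) (hVW : V ≤ W0)
    (hK0 : 256 * W0 ^ 2 + V ^ 2 ≤ K0 * V ^ 2) (hws : ∀ x ∈ ws, x ≤ 4 * W0)
    (hB : NefPm D0 ((4 * W0) ::ₘ Bg)) (hJ : J ≤ pot V W0 K0 ws)
    (hD : (5 ^ J + 1) * sq (Bg + ws) ≤ 5 ^ J * D0 ^ 2) : NefPm D0 (Bg + ws) := by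
  apply nefPm_of_nrm
  refine nrm_pot hV hVW hK0 (Nat.cast_nonneg D0) (nrm_of_nefPm hB) J ws D0 hws hJ le_rfl ?_
  exact_mod_cast hD

end Pool.Agent.KB
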