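import Pool.Agent.KB.N4
import Pool.Agent.KB.N5

set_option autoImplicit false

/-!
# Nef classes: sums, half of the area, nine points
-/

namespace Pool.Agent.KB

open MvPolynomial Pool.Agent.helper5.NBS Pool.Agent.helper89.Segre Pool.Agent.helper22.SC
  Pool.Agent.helper89.Exp Pool.Agent.helper25.CF Pool.Agent.KD

theorem nrm_add {κ1 κ2 : ℝ} {X Y : Multiset ℕ} (hX : NRm κ1 X) (hY : NRm κ2 Y) :
    NRm (κ1 + κ2) (X + Y) := by
  obtain ⟨a, x, hx⟩ : ∃ (a : ℕ) (x : Fin a → ℕ), Finset.univ.val.map x = X :=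
    ⟨_, Pool.Agent.helper25.ST.exists_fin X⟩
  obtain ⟨b, y, hy⟩ : ∃ (b : ℕ) (y : Fin b → ℕ), Finset.univ.val.map y = Y :=
    ⟨_, Pool.Agent.helper25.ST.exists_fin Y⟩
  obtain ⟨T1, h1, h10, h1p⟩ := hX a x hx
  obtain ⟨T2, h2, h20, h2p⟩ := hY b y hy
  have hXY : Finset.univ.val.map (Fin.append x y) = X + Y := by
    rw [KD.map_append, hx, hy]
  rw [← hXY]
  apply NRm.of
  refine ⟨(rename (fun v : Fin a × Fin 2 => (Fin.castAdd b v.1, v.2))) '' T1 ∪
    (rename (fun v : Fin b × Fin 2 => (Fin.natAdd a v.1, v.2))) '' T2,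
    (h1.image _).union (h2.image _), ?_, ?_⟩
  · rintro _ (⟨Q, hQ, rfl⟩ | ⟨Q, hQ, rfl⟩)
    · exact rename_ne (Fin.castAdd_injective a b) (h10 Q hQ)
    · exact rename_ne (Fin.natAdd_injective b a) (h20 Q hQ)
  · intro p hp F hF
    have e1 := h1p (fun i => p (Fin.castAdd b i)) (fun Q hQ => by
      have := hp _ (Or.inl ⟨Q, hQ, rfl⟩)
      rwa [evP_rename] at this) F hF
    have e2 := h2p (fun i => p (Fin.natAdd a i)) (fun Q hQ => by
      have := hp _ (Or.inr ⟨Q, hQ, rfl⟩)
      rwa [evP_rename] at this) F hF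
    rw [Fin.sum_univ_add]
    simp only [Fin.append_left, Fin.append_right]
    linarith

theorem nefPm_add {D1 D2 : ℕ} {X Y : Multiset ℕ} (hX : NefPm D1 X) (hY : NefPm D2 Y) :
    NefPm (D1 + D2) (X + Y) := by
  apply nefPm_of_nrm
  push_cast
  exact nrm_add (nrm_of_nefPm hX) (nrm_of_nefPm hY)

theorem nefPm_half {D : ℕ} {Y : Multiset ℕ} (h : 2 * KD.sq Y ≤ D ^ 2) : NefPm D Y := by
  apply nefPm_of_nrm
  apply nrm_base (Nat.cast_nonneg D)
  exact_mod_cast h

theorem nefPm_mono {D D' : ℕ} {X : Multiset ℕ} (h : D ≤ D') (hX : NefPm D X) : NefPm D' X := by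
  have h1 : NefPm (D' - D) 0 := nefPm_half (by simp [KD.sq])
  have h2 := nefPm_add hX h1
  rw [add_zero] at h2
  have e : D + (D' - D) = D' := by omega
  rw [e] at h2
  exact h2

/-- at most eight points and one more of weight `W` -/
theorem nefPm_nine {D W : ℕ} {X : Multiset ℕ} (hc : Multiset.card X = 8)
    (h2 : ∀ Z ≤ X, Multiset.card Z = 2 → Z.sum + W ≤ D)
    (h3 : ∀ Z ≤ X, Multiset.card Z = 3 → Z.sum ≤ D) : NefPm D (W ::ₘ X) := by
  classical
  intro n w hw
  have hn : n = 9 := by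
    have := congrArg Multiset.card hw
    rw [Multiset.card_map, Multiset.card_cons, hc] at this
    simpa using this
  subst hn
  apply nef_nine
  intro i j k hij hjk hik
  have hZ : ({w i, w j, w k} : Multiset ℕ) ≤ W ::ₘ X := by
    rw [← hw]
    have e : ({w i, w j, w k} : Multiset ℕ) = (({i, j, k} : Finset (Fin 9)).val.map w) := by
      rw [Finset.insert_val_of_notMem (by simp [hij, hik]), Finset.insert_val_of_notMem (by simp [hjk])]
      simp
    rw [e]
    exact Multiset.map_le_map (Finset.val_le_iff.mpr (Finset.subset_univ _))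
  obtain ⟨Z, hZd⟩ : ∃ Z : Multiset ℕ, Z = {w i, w j, w k} := ⟨_, rfl⟩
  rw [← hZd] at hZ
  have hcZ : Multiset.card Z = 3 := by rw [hZd]; rfl
  have hsZ : Z.sum = w i + w j + w k := by
    rw [hZd]
    simp
    ring
  rw [← hsZ]
  by_cases hW : W ∈ Z
  · have h4 : Z.erase W ≤ X := Multiset.erase_le_iff_le_cons.mpr hZ
    have h5 := Multiset.cons_erase hW
    have h6 : Multiset.card (Z.erase W) = 2 := by
      rw [Multiset.card_erase_of_mem hW, hcZ]
      rfl
    have h7 := h2 _ h4 h6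
    rw [← h5, Multiset.sum_cons]
    omega
  · have h4 : Z.erase W ≤ X := Multiset.erase_le_iff_le_cons.mpr hZ
    rw [Multiset.erase_of_notMem hW] at h4
    exact h3 Z h4 hcZ

/-- the same with all weights raised by one -/
theorem nefPm_nine' {D W : ℕ} {X : Multiset ℕ} (hc : Multiset.card X = 8)
    (h2 : ∀ Z ≤ X, Multiset.card Z = 2 → Z.sum + W ≤ D + 1)
    (h3 : ∀ Z ≤ X, Multiset.card Z = 3 → Z.sum ≤ D) :
    NefPm (D + 3) (W ::ₘ X.map fun x => x + 1) := by
  have key : ∀ Z ≤ X.map (fun x => x + 1), Z.map (fun x => x - 1) ≤ X ∧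
      Z.sum = (Z.map fun x => x - 1).sum + Multiset.card Z := by
    intro Z hZ
    constructor
    · have h4 := Multiset.map_le_map (f := fun x => x - 1) hZ
      rw [Multiset.map_map] at h4
      have h5 : X.map ((fun x => x - 1) ∘ fun x => x + 1) = X := by
        conv_rhs => rw [← Multiset.map_id X]
        apply Multiset.map_congr rfl
        intro x _
        simp
      rw [h5] at h4
      exact h4
    · have h6 : ∀ x ∈ Z, 1 ≤ x := by
        intro x hx
        obtain ⟨y, -, rfl⟩ := Multiset.mem_map.mp (Multiset.mem_of_le hZ hx)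
        omega
      clear hZ
      induction Z using Multiset.induction_on with
      | empty => simp
      | cons x Z ih =>
        have h7 := ih (fun y hy => h6 y (Multiset.mem_cons_of_mem hy))
        have h8 := h6 x (Multiset.mem_cons_self _ _)
        rw [Multiset.sum_cons, Multiset.map_cons, Multiset.sum_cons, Multiset.card_cons]
        omega
  refine nefPm_nine (by rw [Multiset.card_map, hc]) ?_ ?_
  · intro Z hZ hcZ
    obtain ⟨h4, h5⟩ := key Z hZ
    have h6 := h2 _ h4 (by rw [Multiset.card_map, hcZ])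
    omega
  · intro Z hZ hcZ
    obtain ⟨h4, h5⟩ := key Z hZ
    have h6 := h3 _ h4 (by rw [Multiset.card_map, hcZ])
    omega

end Pool.Agent.KB
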