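import Mathlib

set_option autoImplicit false

/-!
# Numerics of Theorem KB: the number of full groups (copy of KD/NumK1)
-/

namespace Pool.Agent.KB

open Real

theorem numNB {M k Q J b V U W0 K0 N : ℕ} (hM : 10 ≤ M) (hk : 1 ≤ k)
    (hX : (k : ℝ) * (M : ℝ) ^ 2 ≤ Q / 10 ^ 9) (hb : 2000 * k * b ^ 2 ≤ Q)
    (hJM : (J : ℝ) * (M : ℝ) ^ 2 ≤ 24 * (Q / 10 ^ 9)) (hV : V = 100 * (M + 1)) (hU : U = 3 * V + 3)
    (hW0 : W0 = max (3 * V + 5) (b / 4 + 1)) (hK0 : K0 = 256 * W0 ^ 2 / V ^ 2 + 2)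
    (hN : N = 16 * J + 2 * k * (K0 + 15)) :
    4 * (N * (U * (U + 1)) + U * (120 * U * k)) + 9 * k * (M * (M + 1)) ≤ 3 * Q := by
  have hMr : (10 : ℝ) ≤ M := by exact_mod_cast hM
  have hkr : (1 : ℝ) ≤ k := by exact_mod_cast hk
  have hbr : 2000 * (k : ℝ) * (b : ℝ) ^ 2 ≤ Q := by exact_mod_cast hb
  have hQ0 : (0 : ℝ) < Q := by
    have h2 : (0 : ℝ) < (k : ℝ) * (M : ℝ) ^ 2 := by positivity
    have h3 : (0 : ℝ) < Q / 10 ^ 9 := lt_of_lt_of_le h2 hX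
    have h4 : (Q : ℝ) = Q / 10 ^ 9 * 10 ^ 9 := by field_simp
    rw [h4]
    positivity
  have hkM : (M : ℝ) ^ 2 ≤ (k : ℝ) * (M : ℝ) ^ 2 := by nlinarith [sq_nonneg (M : ℝ)]
  -- V, U
  have hVr : (V : ℝ) = 100 * (M + 1) := by rw [hV]; push_cast; ring
  have hV1 : (1100 : ℝ) ≤ V := by rw [hVr]; linarith
  have hV2 : (V : ℝ) ^ 2 ≤ 12100 * (M : ℝ) ^ 2 := by
    have : (V : ℝ) ≤ 110 * M := by rw [hVr]; linarith
    nlinarith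
  have hUr : (U : ℝ) = 3 * V + 3 := by rw [hU]; push_cast; ring
  have hVV : 1100 * (V : ℝ) ≤ (V : ℝ) ^ 2 := by nlinarith
  have hUU : (U : ℝ) * (U + 1) ≤ 9.03 * (V : ℝ) ^ 2 := by
    rw [hUr]
    nlinarith
  have hU2 : (U : ℝ) * U ≤ 9.03 * (V : ℝ) ^ 2 := by
    rw [hUr]
    nlinarith
  -- W0
  have hb4 : ((b / 4 : ℕ) : ℝ) ≤ (b : ℝ) / 4 := by
    have := @Nat.cast_div_le ℝ _ _ _ b 4
    simpa using this
  have hWb : (W0 : ℝ) ^ 2 ≤ 9.03 * (V : ℝ) ^ 2 + ((b : ℝ) ^ 2 / 15 + 16) := by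
    have hb5 : (((b / 4 : ℕ) : ℝ) + 1) ^ 2 ≤ (b : ℝ) ^ 2 / 15 + 16 := by
      have hb0 : (0 : ℝ) ≤ ((b / 4 : ℕ) : ℝ) := Nat.cast_nonneg _
      have hb1 : (0 : ℝ) ≤ (b : ℝ) := Nat.cast_nonneg _
      have : (((b / 4 : ℕ) : ℝ) + 1) ^ 2 ≤ ((b : ℝ) / 4 + 1) ^ 2 :=
        pow_le_pow_left₀ (by linarith) (by linarith) 2
      nlinarith [sq_nonneg ((b : ℝ) - 60)]
    have hv5 : (3 * (V : ℝ) + 5) ^ 2 ≤ 9.03 * (V : ℝ) ^ 2 := by nlinarith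
    rcases le_total (3 * V + 5) (b / 4 + 1) with h | h
    · have : W0 = b / 4 + 1 := by rw [hW0, max_eq_right h]
      rw [this]
      push_cast
      have : 0 ≤ (V : ℝ) ^ 2 := by positivity
      linarith
    · have : W0 = 3 * V + 5 := by rw [hW0, max_eq_left h]
      rw [this]
      push_cast
      have : 0 ≤ (b : ℝ) ^ 2 := by positivity
      linarith
  -- K0
  have hKV : (K0 : ℝ) * (V : ℝ) ^ 2 ≤ 256 * (W0 : ℝ) ^ 2 + 2 * (V : ℝ) ^ 2 := by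
    have h2 : K0 * V ^ 2 ≤ 256 * W0 ^ 2 + 2 * V ^ 2 := by
      rw [hK0, add_mul]
      exact Nat.add_le_add_right (Nat.div_mul_le_self _ _) _
    exact_mod_cast h2
  -- assemble
  have hNr : (N : ℝ) = 16 * J + 2 * k * (K0 + 15) := by rw [hN]; push_cast; ring
  have hN0 : (0 : ℝ) ≤ N := Nat.cast_nonneg _
  have e1 : (N : ℝ) * (U * (U + 1)) ≤ 9.03 * (N * (V : ℝ) ^ 2) := by
    have := mul_le_mul_of_nonneg_left hUU hN0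
    linarith
  have e2 : (N : ℝ) * (V : ℝ) ^ 2 = 16 * (J * (V : ℝ) ^ 2) + 2 * (k * (K0 * (V : ℝ) ^ 2 + 15 * (V : ℝ) ^ 2)) := by
    rw [hNr]; ring
  have e3 : (J : ℝ) * (V : ℝ) ^ 2 ≤ 12100 * (24 * (Q / 10 ^ 9)) := by
    have := mul_le_mul_of_nonneg_left hV2 (Nat.cast_nonneg J : (0 : ℝ) ≤ J)
    nlinarith
  have e4 : (K0 : ℝ) * (V : ℝ) ^ 2 + 15 * (V : ℝ) ^ 2 ≤
      (256 * 9.03 + 17) * (12100 * (M : ℝ) ^ 2) + 256 * ((b : ℝ) ^ 2 / 15 + 16) := by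
    nlinarith
  have e5 : (k : ℝ) * (K0 * (V : ℝ) ^ 2 + 15 * (V : ℝ) ^ 2) ≤
      (256 * 9.03 + 17) * 12100 * (k * (M : ℝ) ^ 2) + 256 / 15 * (k * (b : ℝ) ^ 2) + 4096 * k := by
    have := mul_le_mul_of_nonneg_left e4 (by linarith : (0 : ℝ) ≤ k)
    nlinarith
  have e6 : (k : ℝ) * 100 ≤ k * (M : ℝ) ^ 2 := by
    have : (100 : ℝ) ≤ (M : ℝ) ^ 2 := by nlinarith
    nlinarith
  have e7 : (k : ℝ) * (M * (M + 1)) ≤ 2 * (k * (M : ℝ) ^ 2) := by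
    have : (M : ℝ) * (M + 1) ≤ 2 * (M : ℝ) ^ 2 := by nlinarith
    nlinarith
  have e8 : (U : ℝ) * (120 * U * k) ≤ 120 * 9.03 * 12100 * (k * (M : ℝ) ^ 2) := by
    have h2 : (U : ℝ) * U ≤ 9.03 * 12100 * (M : ℝ) ^ 2 := by nlinarith
    have := mul_le_mul_of_nonneg_left h2 (by linarith : (0 : ℝ) ≤ k)
    nlinarith
  have e9 : (k : ℝ) * (b : ℝ) ^ 2 ≤ Q / 2000 := by
    rw [le_div_iff₀ (by norm_num)]
    nlinarith
  have hfin : 4 * ((N : ℝ) * (U * (U + 1)) + U * (120 * U * k)) + 9 * k * (M * (M + 1)) ≤ 3 * Q := by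
    have e10 : 9 * (k : ℝ) * (M * (M + 1)) = 9 * (k * (M * (M + 1))) := by ring
    rw [e10]
    have e11 : (N : ℝ) * (V : ℝ) ^ 2 ≤ 16 * (12100 * (24 * (Q / 10 ^ 9))) +
        2 * ((256 * 9.03 + 17) * 12100 * (Q / 10 ^ 9) + 256 / 15 * (Q / 2000) + 40.96 * (Q / 10 ^ 9)) := by
      rw [e2]
      nlinarith
    nlinarith
  exact_mod_cast hfin

end Pool.Agent.KB
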