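import Mathlib

set_option autoImplicit false

/-!
# Numerics of Theorem KB: the degree

`numBd`: `12 d ≤ s`; `numBJ`: `(d + 3)² ≤ 5^J` for `J = 2 ⌈log Q⌉`; `numBJM`: `J M² ≤ 24 Q / 10⁹`.
-/

namespace Pool.Agent.KB

open Real

/-- the degree is small compared with the sum of the multiplicities -/
theorem numBd {M W Q s QE ES X d B1 B2 : ℕ} (hM : 10 ≤ M) (hMW : 1400 * M ≤ W)
    (hMQ : 10 ^ 9 * M ^ 2 ≤ Q) (hQs : Q ≤ M * s) (hQE : QE ≤ W * ES) (hES : 40 * ES + 20 * X ≤ s)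
    (hcd : (d + 1) * (d + 2) ≤ (Q + s) + (QE + ES) + (B2 + B1) + (M ^ 2 + M))
    (hB1 : B1 ≤ 3 * d + 10 + X) (hD : W * d + 3 * B2 ≤ 3 * d ^ 2) : 12 * d ≤ s := by
  obtain ⟨P, hP⟩ : ∃ P, P = W * s := ⟨_, rfl⟩
  obtain ⟨D2, hD2⟩ : ∃ D2, D2 = d ^ 2 := ⟨_, rfl⟩
  obtain ⟨M2, hM2⟩ : ∃ M2, M2 = M ^ 2 := ⟨_, rfl⟩
  obtain ⟨WD, hWD⟩ : ∃ WD, WD = W * d := ⟨_, rfl⟩
  have h1 : 1400 * Q ≤ P := by
    calc 1400 * Q ≤ 1400 * (M * s) := Nat.mul_le_mul_left _ hQs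
      _ = 1400 * M * s := by ring
      _ ≤ W * s := Nat.mul_le_mul_right _ hMW
      _ = P := hP.symm
  have h2 : 14000 * s ≤ P := by
    rw [hP]
    exact Nat.mul_le_mul_right _ (by omega)
  have h3 : 40 * QE ≤ P := by
    calc 40 * QE ≤ 40 * (W * ES) := Nat.mul_le_mul_left _ hQE
      _ = W * (40 * ES) := by ring
      _ ≤ W * s := Nat.mul_le_mul_left _ (by omega)
      _ = P := hP.symm
  have h4 : M ≤ M2 := by rw [hM2]; nlinarith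
  have h5 : (d + 1) * (d + 2) = D2 + 3 * d + 2 := by rw [hD2]; ring
  rw [h5, ← hM2] at hcd
  rw [← hWD, ← hD2] at hD
  rw [← hM2] at hMQ
  have h6 : 12 * WD ≤ P := by omega
  have h7 : W * (12 * d) ≤ W * s := by
    calc W * (12 * d) = 12 * WD := by rw [hWD]; ring
      _ ≤ P := h6
      _ = W * s := hP
  exact Nat.le_of_mul_le_mul_left h7 (by omega)

theorem numBJ {Q d : ℕ} (hQ : 100 ≤ Q) (hd : 12 * d ≤ Q) :
    (d + 3) ^ 2 ≤ 5 ^ (2 * ⌈Real.log Q⌉₊) := by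
  have hQr : (0 : ℝ) < Q := by exact_mod_cast (by omega : 0 < Q)
  have h1 : (d + 3) ^ 2 ≤ Q ^ 2 := Nat.pow_le_pow_left (by omega) 2
  have h2 : (Q : ℝ) ≤ 5 ^ ⌈Real.log Q⌉₊ := by
    calc (Q : ℝ) = Real.exp (Real.log Q) := (Real.exp_log hQr).symm
      _ ≤ Real.exp (⌈Real.log Q⌉₊ : ℝ) := Real.exp_le_exp.mpr (Nat.le_ceil _)
      _ = Real.exp 1 ^ ⌈Real.log Q⌉₊ := by
          rw [← Real.exp_nat_mul, mul_one]
      _ ≤ 5 ^ ⌈Real.log Q⌉₊ := by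
          apply pow_le_pow_left₀ (Real.exp_pos 1).le
          have := Real.exp_one_lt_d9
          linarith
  have h3 : Q ≤ 5 ^ ⌈Real.log Q⌉₊ := by exact_mod_cast h2
  calc (d + 3) ^ 2 ≤ Q ^ 2 := h1
    _ ≤ (5 ^ ⌈Real.log Q⌉₊) ^ 2 := Nat.pow_le_pow_left h3 2
    _ = 5 ^ (2 * ⌈Real.log Q⌉₊) := by rw [← pow_mul, mul_comm]

private lemma log_bil : Real.log ((10 : ℝ) ^ 9) ≤ 21 := by
  rw [Real.log_le_iff_le_exp (by positivity)]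
  have h1 : Real.exp 21 = Real.exp 1 ^ 21 := by
    rw [← Real.exp_nat_mul]
    norm_num
  rw [h1]
  have h2 : (2.7 : ℝ) ≤ Real.exp 1 := by
    have := Real.exp_one_gt_d9
    linarith
  calc (10 : ℝ) ^ 9 ≤ (2.7 : ℝ) ^ 21 := by norm_num
    _ ≤ Real.exp 1 ^ 21 := pow_le_pow_left₀ (by norm_num) h2 21

private lemma logQ {m Q : ℝ} (hm : 10 ≤ m) (hQ : 0 < Q) :
    m ^ 2 * Real.log Q ≤ 20 * m ^ 2 + Q / 10 ^ 9 + 2 * (m ^ 2 * Real.log m) := by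
  have hm0 : 0 < m := by linarith
  have hm2 : 0 < m ^ 2 := by positivity
  have h1 : Real.log Q = Real.log (Q / (m ^ 2 * 10 ^ 9)) + (2 * Real.log m + Real.log ((10 : ℝ) ^ 9)) := by
    rw [Real.log_div hQ.ne' (by positivity), Real.log_mul hm2.ne' (by positivity), Real.log_pow]
    push_cast
    ring
  have h2 := Real.log_le_sub_one_of_pos (x := Q / (m ^ 2 * 10 ^ 9)) (by positivity)
  have h3 := log_bil
  have h4 : Real.log Q ≤ Q / (m ^ 2 * 10 ^ 9) + 20 + 2 * Real.log m := by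
    rw [h1]
    generalize Real.log (Q / (m ^ 2 * 10 ^ 9)) = x at h2 ⊢
    generalize Real.log ((10 : ℝ) ^ 9) = y at h3 ⊢
    linarith
  have h5 := mul_le_mul_of_nonneg_left h4 hm2.le
  have h6 : m ^ 2 * (Q / (m ^ 2 * 10 ^ 9)) = Q / 10 ^ 9 := by
    field_simp
  calc m ^ 2 * Real.log Q ≤ m ^ 2 * (Q / (m ^ 2 * 10 ^ 9) + 20 + 2 * Real.log m) := h5
    _ = m ^ 2 * (Q / (m ^ 2 * 10 ^ 9)) + 20 * m ^ 2 + 2 * (m ^ 2 * Real.log m) := by ring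
    _ = 20 * m ^ 2 + Q / 10 ^ 9 + 2 * (m ^ 2 * Real.log m) := by rw [h6]; ring

theorem numBJM {M W k Q : ℕ} (hM : 10 ≤ M) (hMW : 1400 * M ≤ W) (hk : 1 ≤ k)
    (H1 : 2000 * (W : ℝ) ^ 2 * (k + Real.log W) ≤ Q) :
    ((2 * ⌈Real.log Q⌉₊ : ℕ) : ℝ) * (M : ℝ) ^ 2 ≤ 24 * (Q / 10 ^ 9) ∧
    (k : ℝ) * (M : ℝ) ^ 2 ≤ Q / 10 ^ 9 ∧ 2000 * k * W ^ 2 ≤ Q := by
  have hMr : (10 : ℝ) ≤ M := by exact_mod_cast hM
  have hkr : (1 : ℝ) ≤ k := by exact_mod_cast hk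
  have hWr : 1400 * (M : ℝ) ≤ W := by exact_mod_cast hMW
  have hW0 : (0 : ℝ) < W := by linarith
  have hlM : 0 ≤ Real.log (M : ℝ) := Real.log_nonneg (by linarith)
  have hlW : Real.log (M : ℝ) ≤ Real.log W := Real.log_le_log (by linarith) (by linarith)
  have hWM : 1960000 * (M : ℝ) ^ 2 ≤ (W : ℝ) ^ 2 := by nlinarith
  have hkl : 0 ≤ (k : ℝ) + Real.log M := by linarith
  have h1 : 3.92 * 10 ^ 9 * ((M : ℝ) ^ 2 * (k + Real.log M)) ≤ Q := by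
    refine le_trans ?_ H1
    calc 3.92 * 10 ^ 9 * ((M : ℝ) ^ 2 * (k + Real.log M))
        = 2000 * (1960000 * (M : ℝ) ^ 2) * (k + Real.log M) := by ring
      _ ≤ 2000 * (W : ℝ) ^ 2 * (k + Real.log W) := by gcongr
  have hA0 : 0 ≤ (M : ℝ) ^ 2 * Real.log M := by positivity
  have hk0 : 0 ≤ (M : ℝ) ^ 2 * k := by positivity
  have hM0 : (M : ℝ) ^ 2 ≤ (M : ℝ) ^ 2 * k := by nlinarith [sq_nonneg (M : ℝ)]
  have hQ0 : (0 : ℝ) < Q := by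
    have : (0 : ℝ) < 3.92 * 10 ^ 9 * ((M : ℝ) ^ 2 * (k + Real.log M)) := by positivity
    linarith
  have hQ1 : (1 : ℝ) ≤ Q := by
    have : 0 < Q := by exact_mod_cast hQ0
    exact_mod_cast this
  have hlQ : 0 ≤ Real.log (Q : ℝ) := Real.log_nonneg hQ1
  rw [mul_add] at h1
  refine ⟨?_, ?_, ?_⟩
  · have h2 := logQ hMr hQ0
    have h3 : ((⌈Real.log Q⌉₊ : ℕ) : ℝ) ≤ Real.log Q + 1 := (Nat.ceil_lt_add_one hlQ).le
    have h4 := mul_le_mul_of_nonneg_left h3 (sq_nonneg (M : ℝ))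
    push_cast
    have h5 : 2 * ((⌈Real.log Q⌉₊ : ℕ) : ℝ) * (M : ℝ) ^ 2 =
        2 * ((M : ℝ) ^ 2 * ((⌈Real.log Q⌉₊ : ℕ) : ℝ)) := by ring
    rw [h5]
    generalize (M : ℝ) ^ 2 * Real.log M = x at h1 h2 hA0
    generalize hy : (M : ℝ) ^ 2 * ((⌈Real.log Q⌉₊ : ℕ) : ℝ) = y at h4
    generalize (M : ℝ) ^ 2 * (k : ℝ) = z at h1 hk0 hM0
    rw [mul_add, mul_one] at h4
    generalize (M : ℝ) ^ 2 * Real.log Q = t at h2 h4
    generalize (M : ℝ) ^ 2 = m2 at h2 h4 hM0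
    nlinarith
  · have h6 : (k : ℝ) * (M : ℝ) ^ 2 = (M : ℝ) ^ 2 * k := by ring
    rw [h6, le_div_iff₀ (by positivity)]
    nlinarith
  · have h7 : 2000 * (k : ℝ) * (W : ℝ) ^ 2 ≤ Q := by
      refine le_trans ?_ H1
      have h8 : (k : ℝ) ≤ k + Real.log W := by linarith
      calc 2000 * (k : ℝ) * (W : ℝ) ^ 2 = 2000 * (W : ℝ) ^ 2 * k := by ring
        _ ≤ 2000 * (W : ℝ) ^ 2 * (k + Real.log W) := by gcongr
    exact_mod_cast h7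

/-- the strip is small -/
theorem numBb {M k Q s ES X sx d : ℕ} (hM : 10 ≤ M) (hk : 1 ≤ k) (h1 : 10 ^ 9 * M ^ 2 * k ≤ Q)
    (hsQ : Q ≤ M * s) (hES : 40 * ES + 20 * X ≤ s) (hsx : sx ≤ 2 * ES + X + 10) (hd : 12 * d ≤ s) :
    4 * (6 * (s / 64 + 1) + 6 * (120 * (3 * (100 * (M + 1)) + 3) * k) + 3 * (3 * k * (M + 1)) +
      3 * sx + 2 * (2 * M + 1)) + 3 * k * (M + 1) ≤ s ∧
    4 * (2 * (s / 64 + 1) + 2 * (120 * (3 * (100 * (M + 1)) + 3) * k) + 3 * k * (M + 1) +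
      sx + (d + 2)) + 3 * k * (M + 1) ≤ s := by
  have h2 : M * (10 ^ 9 * (M * k)) ≤ M * s := by
    calc M * (10 ^ 9 * (M * k)) = 10 ^ 9 * M ^ 2 * k := by ring
      _ ≤ M * s := h1.trans hsQ
  have h3 : 10 ^ 9 * (M * k) ≤ s := Nat.le_of_mul_le_mul_left h2 (by omega)
  obtain ⟨P, hP⟩ : ∃ P, P = M * k := ⟨_, rfl⟩
  have h4 : k ≤ P := by rw [hP]; nlinarith
  have h5 : M ≤ P := by rw [hP]; nlinarith
  have h6 : 120 * (3 * (100 * (M + 1)) + 3) * k = 36000 * P + 36360 * k := by rw [hP]; ring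
  have h7 : 3 * k * (M + 1) = 3 * P + 3 * k := by rw [hP]; ring
  rw [h6, h7]
  rw [← hP] at h3
  constructor <;> omega

end Pool.Agent.KB
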