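import Pool.Agent.KB.LeavesB
import Pool.Agent.KB.ExactB
import Pool.Agent.KB.NumB
import Pool.Agent.KB.NumB2
import Pool.Agent.KB.NefMix
import Pool.Agent.KD.FinalK
import Pool.Agent.helper7.Hex.Final

set_option autoImplicit false

/-!
# Theorem KB for multisets
-/

namespace Pool.Agent.KB

open Pool.Agent.helper89.Segre Pool.Agent.SH9 Pool.Agent.helper61.EX Pool.Agent.KD

/-- removing a point of a regular system -/
lemma good_remove {D : Finset (ℕ × ℕ)} (x : ℕ) : ∀ {r : ℕ} {ms : Multiset ℕ},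
    Good ℂ D (x ::ₘ ms) (kk x + r) → Good ℂ D ms r := by
  induction x with
  | zero =>
    intro r ms h
    exact good_le (Pool.Agent.helper7.Hex.good_drop_zero h) (by omega)
  | succ x ih =>
    intro r ms h
    have h1 : kk (x + 1) = kk x + (x + 1) := by
      have h2 := two_mul_kk (x + 1)
      have h3 := two_mul_kk x
      nlinarith
    rw [h1] at h
    exact ih (good_lower (m := x) (r := kk x + r) (good_le h (by omega)))

lemma good_remove_replicate {D : Finset (ℕ × ℕ)} (n x : ℕ) : ∀ {ms : Multiset ℕ},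
    Good ℂ D (ms + Multiset.replicate n x) (cd (ms + Multiset.replicate n x)) →
      Good ℂ D ms (cd ms) := by
  induction n with
  | zero => intro ms h; simpa using h
  | succ n ih =>
    intro ms h
    apply ih
    apply good_remove x
    have e1 : ms + Multiset.replicate (n + 1) x = x ::ₘ (ms + Multiset.replicate n x) := by
      rw [Multiset.replicate_succ, Multiset.add_cons]
    rw [e1, cd_cons] at h
    exact h

section

variable {W : ℕ} {S : Finset ℕ} {Ex Bg : Multiset ℕ}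

/-- the critical degree -/
theorem exactB {d : ℕ} {mn : Multiset ℕ} (hW : 14000 ≤ W)
    (hS : ∀ x ∈ S, 1 ≤ x ∧ 1400 * x ≤ W) (hmn : ∀ x ∈ mn, x ∈ S)
    (hEx : ∀ x ∈ Ex, 1 ≤ x ∧ x ≤ W) (hk : 1 ≤ S.card)
    (H1 : 2000 * (W : ℝ) ^ 2 * (S.card + Real.log W) ≤ sq mn)
    (H3 : 40 * Ex.sum + 20 * (s1 Bg - (3 * d + 10)) ≤ mn.sum)
    (hB1 : NefPm (d + 3) ((4 * (W / 4 + 1)) ::ₘ Bg.map fun x => x + 1))
    (hB0 : NefPm d ((4 * (W / 4 + 1)) ::ₘ Bg)) (hD : W * d + 3 * sq Bg ≤ 3 * d ^ 2)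
    (hcrit : 2 * (tri d).card ≤ 2 * cd (mn + (Ex + Bg)) + ((W / 1400) ^ 2 + W / 1400)) :
    (cd (mn + (Ex + Bg)) ≤ (tri d).card →
      Good ℂ (tri d) (mn + (Ex + Bg)) (cd (mn + (Ex + Bg)))) ∧
    ((tri d).card < cd (mn + (Ex + Bg)) → cd (mn + (Ex + Bg)) ≤ (tri d).card + (d + 2) →
      E d (mn + (Ex + Bg))) := by
  obtain ⟨M, hMW⟩ : ∃ M, M = W / 1400 := ⟨_, rfl⟩
  have hM : 10 ≤ M := by omega
  have hMW' : 1400 * M ≤ W := by omega
  have hSM : ∀ x ∈ S, 1 ≤ x ∧ x ≤ M := by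
    intro x hx
    obtain ⟨h1, h2⟩ := hS x hx
    exact ⟨h1, by omega⟩
  rw [← hMW] at hcrit
  obtain ⟨k, hkS⟩ : ∃ k, k = S.card := ⟨_, rfl⟩
  rw [← hkS] at H1 hk
  obtain ⟨Q, hQ⟩ : ∃ Q, Q = sq mn := ⟨_, rfl⟩
  rw [← hQ] at H1
  obtain ⟨hsQ, hQs, -⟩ := sum_le_sq' (M := M) mn (fun x hx => hSM x (hmn x hx))
  rw [← hQ] at hsQ hQs
  obtain ⟨hJM, hkM, hkW⟩ := numBJM hM hMW' hk H1
  have hkM' : 10 ^ 9 * M ^ 2 * k ≤ Q := by
    rw [le_div_iff₀ (by positivity)] at hkM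
    have : (10 : ℝ) ^ 9 * M ^ 2 * k ≤ Q := by nlinarith
    exact_mod_cast this
  have hMQ : 10 ^ 9 * M ^ 2 ≤ Q := (Nat.le_mul_of_pos_right _ hk).trans hkM'
  obtain ⟨-, hE2, hE3⟩ := sum_le_sq' (M := W) Ex hEx
  obtain ⟨X, hX⟩ : ∃ X, X = s1 Bg - (3 * d + 10) := ⟨_, rfl⟩
  rw [← hX] at H3
  have hB1s := sum_le_s1 Bg
  have hC := card_tri d
  have h2c := Pool.Agent.helper25.ST.two_choose d
  have hcdE : sq Ex + Ex.sum = 2 * cd Ex := sq_cd Ex
  have hcdB : sq Bg + Bg.sum = 2 * cd Bg := sq_cd Bg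
  have hcdM : sq mn + mn.sum = 2 * cd mn := sq_cd mn
  rw [← hQ] at hcdM
  have hcdt : cd (mn + (Ex + Bg)) = cd mn + (cd Ex + cd Bg) := by
    rw [Pool.Agent.helper61.EX.cd_add, Pool.Agent.helper61.EX.cd_add]
  have hd : 12 * d ≤ mn.sum := by
    refine numBd (X := X) (B1 := Bg.sum) (B2 := sq Bg) (QE := sq Ex) (ES := Ex.sum) hM hMW' hMQ hQs
      hE2 H3 ?_ (by omega) hD
    rw [hcdt] at hcrit
    omega
  have hQ100 : 100 ≤ Q := by
    have : 100 ≤ M ^ 2 := by nlinarith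
    omega
  have h5 := numBJ hQ100 (d := d) (by omega)
  obtain ⟨J, hJ⟩ : ∃ J, J = 2 * ⌈Real.log Q⌉₊ := ⟨_, rfl⟩
  rw [← hJ] at h5 hJM
  obtain ⟨V, hV⟩ : ∃ V, V = 100 * (M + 1) := ⟨_, rfl⟩
  obtain ⟨U, hU⟩ : ∃ U, U = 3 * V + 3 := ⟨_, rfl⟩
  obtain ⟨W0, hW0⟩ : ∃ W0, W0 = W / 4 + 1 := ⟨_, rfl⟩
  obtain ⟨K0, hK0⟩ : ∃ K0, K0 = 256 * W0 ^ 2 / V ^ 2 + 2 := ⟨_, rfl⟩
  obtain ⟨N, hN⟩ : ∃ N, N = 16 * J + 2 * k * (K0 + 15) := ⟨_, rfl⟩
  have hW0' : W0 = max (3 * V + 5) (W / 4 + 1) := by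
    rw [max_eq_right (by omega)]
    exact hW0
  have hnum := numNB (b := W) hM hk hkM hkW hJM hV hU hW0' hK0 hN
  have hK0' : 256 * W0 ^ 2 + V ^ 2 ≤ K0 * V ^ 2 := by
    have hVp : 0 < V ^ 2 := by rw [hV]; positivity
    have h1 := Nat.lt_div_mul_add (a := 256 * W0 ^ 2) (b := V ^ 2) hVp
    have h2 : K0 * V ^ 2 = 256 * W0 ^ 2 / V ^ 2 * V ^ 2 + 2 * V ^ 2 := by rw [hK0]; ring
    omega
  obtain ⟨sx, hsx⟩ : ∃ sx, sx = s1 Ex + X + 10 := ⟨_, rfl⟩
  obtain ⟨hbig, hcr⟩ := numBb (d := d) (sx := sx) hM hk hkM' hQs H3 (by omega) hd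
  have hq : 603 * ((M + 1) * mn.sum) ≤ 400 * V * (mn.sum / 64 + 1) := by
    have h1 : mn.sum ≤ 64 * (mn.sum / 64 + 1) := by omega
    calc 603 * ((M + 1) * mn.sum) ≤ 603 * ((M + 1) * (64 * (mn.sum / 64 + 1))) := by gcongr
      _ = 38592 * ((M + 1) * (mn.sum / 64 + 1)) := by ring
      _ ≤ 40000 * ((M + 1) * (mn.sum / 64 + 1)) := Nat.mul_le_mul_right _ (by norm_num)
      _ = 400 * V * (mn.sum / 64 + 1) := by rw [hV]; ring
  have hL : Leaves V (2 * S.card) N d (2 * cd mn + cd (Ex + Bg)) (Ex + Bg) := by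
    refine leavesB (W0 := W0) (K0 := K0) (J := J) (by omega) (by omega) ?_ hK0' ?_ h5 ?_ ?_
    · intro x hx
      have := (hEx x hx).2
      omega
    · rw [hN, ← hkS]
    · rw [hW0]; exact hB1
    · rw [hW0]; exact hB0
  refine exactKy (V := V) (M := M) (N := N) (q := mn.sum / 64 + 1) (sx := sx) (U := U)
    (e := 120 * U * S.card) (r0 := 3 * S.card * (M + 1)) (S := S) (y := d + 2)
    (T := 2 * cd mn + cd (Ex + Bg)) (by omega) hSM (by omega) hU rfl rfl hL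
    hmn le_rfl ?_ ?_ hq ?_ ?_
  · rw [s1_add, hsx]
    omega
  · rw [← hkS]
    omega
  · rw [← hkS, hU, hV]
    exact hbig
  · rw [← hkS, hU, hV]
    exact hcr

/-- **Theorem KB** for multisets -/
theorem goodKBms {d : ℕ} {mn : Multiset ℕ} (hW : 14000 ≤ W) (hWd : W ≤ d)
    (hS : ∀ x ∈ S, 1 ≤ x ∧ 1400 * x ≤ W) (hmn : ∀ x ∈ mn, x ∈ S)
    (hEx : ∀ x ∈ Ex, 1 ≤ x ∧ x ≤ W)
    (H1 : 2000 * (W : ℝ) ^ 2 * (S.card + Real.log W) ≤ sq mn)
    (H3 : 40 * Ex.sum + 20 * (s1 Bg - (3 * d + 10)) ≤ mn.sum)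
    (hB1 : NefPm (d + 3) ((4 * (W / 4 + 1)) ::ₘ Bg.map fun x => x + 1))
    (hB0 : NefPm d ((4 * (W / 4 + 1)) ::ₘ Bg)) (hD : W * d + 3 * sq Bg ≤ 3 * d ^ 2) :
    Good ℂ (tri d) (mn + (Ex + Bg)) (min (cd (mn + (Ex + Bg))) (tri d).card) := by
  classical
  have hlog : 0 < Real.log W := Real.log_pos (by exact_mod_cast (by omega : 1 < W))
  have hWr : (0 : ℝ) < W := by exact_mod_cast (by omega : 0 < W)
  -- `S` is not empty
  have hk : 1 ≤ S.card := by
    by_contra hcon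
    have h0 : S = ∅ := Finset.card_eq_zero.mp (by omega)
    have h1 : mn = 0 := by
      apply Multiset.eq_zero_of_forall_notMem
      intro x hx
      have := hmn x hx
      rw [h0] at this
      exact absurd this (Finset.notMem_empty _)
    rw [h1, h0] at H1
    have h2 : KD.sq 0 = 0 := by simp [KD.sq]
    rw [h2, Finset.card_empty] at H1
    have h3 : (0 : ℝ) < 2000 * (W : ℝ) ^ 2 * (((0 : ℕ) : ℝ) + Real.log W) := by
      rw [Nat.cast_zero, zero_add]
      positivity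
    rw [Nat.cast_zero] at H1 h3
    linarith
  rcases Nat.lt_or_ge (tri d).card (cd (mn + (Ex + Bg))) with hv | hv
  · -- emptiness: go up to the last degree with negative virtual dimension
    rw [min_eq_right hv.le]
    have hex : ∃ e, cd (mn + (Ex + Bg)) ≤ (tri e).card := by
      refine ⟨cd (mn + (Ex + Bg)), ?_⟩
      rw [card_tri']
      have := two_mul_kk (cd (mn + (Ex + Bg)) + 1)
      nlinarith
    have hs := Nat.find_spec hex
    have h2 : d < Nat.find hex := by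
      by_contra hcon
      have := card_tri_mono (not_lt.mp hcon)
      omega
    obtain ⟨e, he⟩ : ∃ e, Nat.find hex = e + 1 := ⟨Nat.find hex - 1, by omega⟩
    have h3 : (tri e).card < cd (mn + (Ex + Bg)) := by
      have := Nat.find_min hex (m := e) (by omega)
      omega
    rw [he, card_tri_succ] at hs
    have hde : d ≤ e := by omega
    have h4 : E e (mn + (Ex + Bg)) := by
      refine (exactB (d := e) hW hS hmn hEx hk H1 ?_ (nefPm_mono (by omega) hB1)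
        (nefPm_mono hde hB0) ?_ (by omega)).2 h3 hs
      · omega
      · obtain ⟨f, rfl⟩ : ∃ f, e = d + f := ⟨e - d, by omega⟩
        have e1 : (d + f) ^ 2 = d ^ 2 + 2 * (d * f) + f ^ 2 := by ring
        have e2 : W * (d + f) = W * d + W * f := by ring
        have e3 : W * f ≤ d * f := Nat.mul_le_mul_right f hWd
        rw [e1, e2]
        omega
    exact h4.mono hde
  · -- regularity: add points
    rw [min_eq_left hv]
    obtain ⟨x0, hx0⟩ : ∃ x0, x0 ∈ S := Finset.card_pos.mp (by omega)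
    obtain ⟨h1, h2⟩ := hS x0 hx0
    have hkk := two_mul_kk x0
    have hkk0 : 0 < kk x0 := by nlinarith
    obtain ⟨n, hn⟩ : ∃ n, n = ((tri d).card - cd (mn + (Ex + Bg))) / kk x0 := ⟨_, rfl⟩
    have hn1 : n * kk x0 + cd (mn + (Ex + Bg)) ≤ (tri d).card := by
      have := Nat.div_mul_le_self ((tri d).card - cd (mn + (Ex + Bg))) (kk x0)
      rw [← hn] at this
      omega
    have hn2 : (tri d).card < n * kk x0 + cd (mn + (Ex + Bg)) + kk x0 := by
      have := Nat.lt_div_mul_add (a := (tri d).card - cd (mn + (Ex + Bg))) hkk0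
      rw [← hn] at this
      omega
    have e1 : mn + Multiset.replicate n x0 + (Ex + Bg) =
        mn + (Ex + Bg) + Multiset.replicate n x0 := by abel
    have e2 : cd (mn + Multiset.replicate n x0 + (Ex + Bg)) =
        n * kk x0 + cd (mn + (Ex + Bg)) := by
      rw [e1, Pool.Agent.helper61.EX.cd_add, cd_replicate, add_comm]
    apply good_remove_replicate n x0
    rw [← e1]
    have hsq : sq mn ≤ sq (mn + Multiset.replicate n x0) := sq_mono (Multiset.le_add_right _ _)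
    have hsum : mn.sum ≤ (mn + Multiset.replicate n x0).sum := by
      rw [Multiset.sum_add]
      omega
    refine (exactB (d := d) (mn := mn + Multiset.replicate n x0) hW hS ?_ hEx hk
      (H1.trans (by exact_mod_cast hsq)) (H3.trans hsum) hB1 hB0 hD ?_).1 (by rw [e2]; exact hn1)
    · intro x hx
      rcases Multiset.mem_add.mp hx with hx | hx
      · exact hmn x hx
      · rw [Multiset.eq_of_mem_replicate hx]
        exact hx0
    · rw [e2]
      have h3 : x0 ≤ W / 1400 := by omega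
      have h4 : x0 * x0 ≤ (W / 1400) ^ 2 := by nlinarith
      omega

end

end Pool.Agent.KB
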