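import Pool.Agent.KB.N5
import Pool.Agent.KD.Leaf

set_option autoImplicit false

/-!
# The leaves with big points
-/

namespace Pool.Agent.KB

open MvPolynomial Pool.Agent.helper5.NBS Pool.Agent.helper89.Segre Pool.Agent.SH9
  Pool.Agent.helper61.EX Pool.Agent.KD

/-- the regular leaf with big points -/
theorem leafRB {V W0 K0 J d : ℕ} {Bg ms : Multiset ℕ} (hV : 0 < V) (hVW : V ≤ W0)
    (hK0 : 256 * W0 ^ 2 + V ^ 2 ≤ K0 * V ^ 2) (hws : ∀ x ∈ ms, x + 1 ≤ 4 * W0)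
    (hB : NefPm (d + 3) ((4 * W0) ::ₘ Bg.map fun x => x + 1))
    (hJ : J ≤ pot V W0 K0 (ms.map fun x => x + 1))
    (h5 : (d + 3) ^ 2 ≤ 5 ^ J) (hBg : s1 Bg ≤ 3 * d + 6)
    (hR : cd Bg + cd ms + s1 ms ≤ (tri d).card) :
    Good ℂ (tri d) (Bg + ms) (cd (Bg + ms)) := by
  have hc := card_tri d
  have h2c := Pool.Agent.helper25.ST.two_choose d
  have hsq := sq_succ (Bg + ms)
  have hcd : cd (Bg + ms) = cd Bg + cd ms := Pool.Agent.helper61.EX.cd_add _ _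
  have hs1 : s1 (Bg + ms) = s1 Bg + s1 ms := s1_add _ _
  have hd3 : (d + 3) ^ 2 = (d + 1) * (d + 2) + (3 * d + 7) := by ring
  have hlt : KD.sq ((Bg + ms).map fun x => x + 1) + 1 ≤ (d + 3) ^ 2 := by
    rw [hsq, hcd, hs1]
    omega
  have hmap : (Bg + ms).map (fun x => x + 1) = Bg.map (fun x => x + 1) + ms.map fun x => x + 1 :=
    Multiset.map_add _ _ _
  have hnef : NefPm (d + 3) ((Bg + ms).map fun x => x + 1) := by
    rw [hmap]
    refine nefKB hV hVW hK0 ?_ hB hJ ?_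
    · intro x hx
      obtain ⟨y, hy, rfl⟩ := Multiset.mem_map.mp hx
      exact hws y hy
    · rw [← hmap]
      have h6 : 5 ^ J * (KD.sq ((Bg + ms).map fun x => x + 1) + 1) ≤ 5 ^ J * (d + 3) ^ 2 :=
        Nat.mul_le_mul_left _ hlt
      have h7 : (5 ^ J + 1) * KD.sq ((Bg + ms).map fun x => x + 1) =
          5 ^ J * KD.sq ((Bg + ms).map fun x => x + 1) + KD.sq ((Bg + ms).map fun x => x + 1) := by ring
      have h8 : 5 ^ J * (KD.sq ((Bg + ms).map fun x => x + 1) + 1) =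
          5 ^ J * KD.sq ((Bg + ms).map fun x => x + 1) + 5 ^ J := by ring
      omega
  obtain ⟨m, hm⟩ := Pool.Agent.helper25.ST.exists_fin (Bg + ms)
  have h9 : Pool.Agent.helper25.ST.NefP (d + 3) (fun i => m i + 1) := by
    apply hnef
    conv_rhs => rw [← hm]
    rw [Multiset.map_map]
    rfl
  have e1 : ∑ i, (m i + 1) ^ 2 = KD.sq ((Bg + ms).map fun x => x + 1) := by
    conv_rhs => rw [← hm]
    rw [KD.sq, Multiset.map_map, Multiset.map_map]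
    rfl
  have e2 : 2 * ∑ i, (m i + 2).choose 2 = 2 * cd (Bg + ms) + 2 * s1 (Bg + ms) := by
    have e3 : ∑ i, (m i + 1) = s1 (Bg + ms) := by
      conv_rhs => rw [← hm]
      rw [s1, Multiset.map_map]
      rfl
    have e4 : 2 * ∑ i, (m i + 2).choose 2 = ∑ i, (m i + 1) ^ 2 + ∑ i, (m i + 1) := by
      rw [Finset.mul_sum, ← Finset.sum_add_distrib]
      apply Finset.sum_congr rfl
      intro i _
      rw [Pool.Agent.helper25.ST.two_choose (m i)]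
      ring
    rw [e4, e1, e3, hsq]
    ring
  have h10 := Pool.Agent.helper25.ST.goodP h9 (by rw [e1]; omega) (by
    have h11 := Pool.Agent.helper25.ST.two_choose (d + 3)
    have h12 : (d + 5).choose 2 = (d + 3 + 2).choose 2 := rfl
    have h13 : (d + 3 + 1) * (d + 3 + 2) = (d + 1) * (d + 2) + (6 * d + 18) := by ring
    rw [h12]
    rw [hcd, hs1] at e2
    omega)
  rw [hm] at h10
  exact h10

/-- emptiness from a nef class with a real degree -/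
theorem finNR {d n : ℕ} {κ : ℝ} {m : Fin n → ℕ} (hNef : NefR κ (fun i => (m i : ℝ)))
    (hκ : 0 ≤ κ) (hD : κ * d < ((∑ i, m i ^ 2 : ℕ) : ℝ)) : E d (Finset.univ.val.map m) := by
  classical
  obtain ⟨S, hSc, hS0, hSq⟩ := hNef
  obtain ⟨x, hx⟩ := Pool.Agent.helper7.SC.exists_avoid S hSc hS0
  let q : Fin n → Fin 2 → ℂ := fun i l => x (i, l)
  have hq : ∀ Q ∈ S, evP q Q ≠ 0 := fun Q hQ => hx Q hQ
  have hnef := hSq q hq
  refine E_of_emp (p := q) ?_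
  intro F hF hmem
  by_contra hF0
  have h1 := hnef F hF0
  have h2 : ((∑ i, m i ^ 2 : ℕ) : ℝ) ≤ ∑ i, (m i : ℝ) * (mult (q i) F : ℝ) := by
    have h3 : ∑ i, m i ^ 2 ≤ ∑ i, m i * mult (q i) F := by
      apply Finset.sum_le_sum
      intro i _
      rw [pow_two]
      exact Nat.mul_le_mul le_rfl ((mem_pow_iff_le_mult hF0).mp (hmem i))
    have h4 : ((∑ i, m i ^ 2 : ℕ) : ℝ) ≤ ((∑ i, m i * mult (q i) F : ℕ) : ℝ) := by exact_mod_cast h3
    refine h4.trans (le_of_eq ?_)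
    push_cast
    rfl
  have h3 : (wdeg 1 F : ℝ) ≤ d := by exact_mod_cast hF
  have h4 := mul_le_mul_of_nonneg_left h3 hκ
  linarith

/-- the empty leaf with big points -/
theorem leafEB {V W0 K0 J d : ℕ} {Bg ms : Multiset ℕ} (hV : 0 < V) (hVW : V ≤ W0)
    (hK0 : 256 * W0 ^ 2 + V ^ 2 ≤ K0 * V ^ 2) (hws : ∀ x ∈ ms, x ≤ 4 * W0)
    (hB : NefPm d ((4 * W0) ::ₘ Bg)) (hJ : J ≤ pot V W0 K0 ms)
    (h5 : d ^ 2 + 1 ≤ 5 ^ J) (hE : d ^ 2 + 1 ≤ KD.sq (Bg + ms)) : E d (Bg + ms) := by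
  obtain ⟨m, hm⟩ := Pool.Agent.helper25.ST.exists_fin (Bg + ms)
  obtain ⟨r, hr⟩ : ∃ r : ℝ, r = (KD.sq (Bg + ms) : ℝ) := ⟨_, rfl⟩
  obtain ⟨z, hz⟩ : ∃ z : ℝ, z = 5 ^ J := ⟨_, rfl⟩
  have hz0 : 0 < z := by rw [hz]; positivity
  have hr1 : (d : ℝ) ^ 2 + 1 ≤ r := by rw [hr]; exact_mod_cast hE
  have hz1 : (d : ℝ) ^ 2 + 1 ≤ z := by rw [hz]; exact_mod_cast h5
  have hr0 : 0 < r := by nlinarith [sq_nonneg (d : ℝ)]
  obtain ⟨κ, hκ⟩ : ∃ κ : ℝ, κ = Real.sqrt ((z + 1) / z * r) := ⟨_, rfl⟩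
  have hκ2 : κ ^ 2 = (z + 1) / z * r := by rw [hκ]; exact Real.sq_sqrt (by positivity)
  have hκ0 : 0 ≤ κ := by rw [hκ]; exact Real.sqrt_nonneg _
  have hr' : r ≤ κ ^ 2 := by
    rw [hκ2, div_mul_eq_mul_div, le_div_iff₀ hz0]
    nlinarith
  have hdκ : (d : ℝ) ≤ κ := by
    apply le_of_sq_le_sq _ hκ0
    nlinarith
  have hNR : NRm (d : ℝ) ((4 * W0) ::ₘ Bg) := by
    intro n w hw
    obtain ⟨T, hT, hT0, hTp⟩ := hB n w hw
    refine ⟨T, hT, hT0, fun p hp F hF => ?_⟩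
    have h1 := (hTp p hp).2 F hF
    have h2 : ((∑ i, w i * mult (p i) F : ℕ) : ℝ) ≤ ((d * wdeg 1 F : ℕ) : ℝ) := by
      exact_mod_cast h1
    push_cast at h2
    exact h2
  have hnef := nrm_pot hV hVW hK0 (Nat.cast_nonneg d) hNR J ms κ hws hJ hdκ (by
    rw [← hr, ← hz, hκ2]
    have : z * ((z + 1) / z * r) = (z + 1) * r := by field_simp
    rw [this])
  have h9 := hnef _ m hm
  have e1 : ∑ i, m i ^ 2 = KD.sq (Bg + ms) := by
    conv_rhs => rw [← hm]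
    rw [KD.sq, Multiset.map_map]
    rfl
  have h10 := finNR (d := d) h9 hκ0 (by
    rw [e1, ← hr]
    apply lt_of_pow_lt_pow_left₀ 2 hr0.le
    rw [mul_pow, hκ2]
    have h11 : (z + 1) / z * r * (d : ℝ) ^ 2 = r * ((z + 1) * (d : ℝ) ^ 2 / z) := by
      field_simp
    rw [h11, pow_two r]
    apply mul_lt_mul_of_pos_left _ hr0
    rw [div_lt_iff₀ hz0]
    nlinarith)
  rw [hm] at h10
  exact h10

end Pool.Agent.KB
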