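import Pool.Agent.KB.Leaf
import Pool.Agent.KD.LeavesK

set_option autoImplicit false

/-!
# The leaves are non-special (with big points)
-/

namespace Pool.Agent.KB

open MvPolynomial Pool.Agent.helper5.NBS Pool.Agent.helper89.Segre Pool.Agent.SH9
  Pool.Agent.helper61.EX Pool.Agent.helper25.CF Pool.Agent.KD

/-- **the leaves of Theorem KB** -/
theorem leavesB {V W0 K0 J k N d T : ℕ} {Ex Bg : Multiset ℕ} (hV : 1 ≤ V) (hW0 : 3 * V + 4 ≤ W0)
    (hEx : ∀ x ∈ Ex, x + 1 ≤ 4 * W0) (hK0 : 256 * W0 ^ 2 + V ^ 2 ≤ K0 * V ^ 2)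
    (hN : 16 * J + k * (K0 + 15) ≤ N) (h5 : (d + 3) ^ 2 ≤ 5 ^ J)
    (hB1 : NefPm (d + 3) ((4 * W0) ::ₘ Bg.map fun x => x + 1))
    (hB0 : NefPm d ((4 * W0) ::ₘ Bg)) :
    Leaves V k N d T (Ex + Bg) := by
  constructor
  · intro Y hY hRich h2 h1
    obtain ⟨fs, hfs, hv, hk, hc⟩ := hRich
    refine leafR' ?_ h1 h2
    have hsq := sq_succ (Y + (Ex + Bg))
    have hmap : (Y + (Ex + Bg)).map (fun x => x + 1) =
        Bg.map (fun x => x + 1) + (Y + Ex).map fun x => x + 1 := by
      rw [Multiset.map_add, Multiset.map_add, Multiset.map_add]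
      abel
    rw [hmap]
    refine nefKB (V := V) (W0 := W0) (K0 := K0) (J := J) (by omega) (by omega) hK0 ?_ hB1 ?_ ?_
    · intro x hx
      obtain ⟨y, hy, rfl⟩ := Multiset.mem_map.mp hx
      rcases Multiset.mem_add.mp hy with hy | hy
      · have := hY y hy
        omega
      · exact hEx y hy
    · refine pot_ge (fs := fs.map fun x => x + 1) (k := k) ?_ ?_ ?_ ?_
      · exact Multiset.map_le_map (hfs.trans (Multiset.le_add_right _ _))
      · intro x hx
        obtain ⟨y, hy, rfl⟩ := Multiset.mem_map.mp hx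
        have := hv y hy
        omega
      · refine le_trans ?_ hk
        rw [Multiset.toFinset_map]
        exact Finset.card_image_le
      · rw [Multiset.card_map]
        omega
    · rw [← hmap]
      have h6 : 5 ^ J * (KD.sq ((Y + (Ex + Bg)).map fun x => x + 1) + 1) ≤ 5 ^ J * (d + 3) ^ 2 :=
        Nat.mul_le_mul_left _ (by omega)
      have h7 : (5 ^ J + 1) * KD.sq ((Y + (Ex + Bg)).map fun x => x + 1) =
          5 ^ J * KD.sq ((Y + (Ex + Bg)).map fun x => x + 1) +
            KD.sq ((Y + (Ex + Bg)).map fun x => x + 1) := by ring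
      have h8 : 5 ^ J * (KD.sq ((Y + (Ex + Bg)).map fun x => x + 1) + 1) =
          5 ^ J * KD.sq ((Y + (Ex + Bg)).map fun x => x + 1) + 5 ^ J := by ring
      omega
  · intro Y hY hRich _ h1
    obtain ⟨fs, hfs, hv, hk, hc⟩ := hRich
    have e1 : Y + (Ex + Bg) = Bg + (Y + Ex) := by abel
    rw [e1] at h1 ⊢
    have h6 : d ^ 2 < (d + 3) ^ 2 := Nat.pow_lt_pow_left (by omega) (by norm_num)
    refine leafEB (V := V) (W0 := W0) (K0 := K0) (J := J) (by omega) (by omega) hK0 ?_ hB0 ?_
      (by omega) h1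
    · intro y hy
      rcases Multiset.mem_add.mp hy with hy | hy
      · have := hY y hy
        omega
      · have := hEx y hy
        omega
    · refine pot_ge (fs := fs) (k := k) (hfs.trans (Multiset.le_add_right _ _)) ?_ hk (by omega)
      intro x hx
      have := hv x hx
      omega

end Pool.Agent.KB
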