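import Pool.Agent.KB.NefMix

set_option autoImplicit false

/-!
# Nef classes with three points

`nef_three`: `(D; w_0, w_1, w_2)` is nef at very general points if `w_i + w_j ≤ D` for `i ≠ j`.
Bezout with the line through two points: an irreducible curve of degree `δ ≥ 2` has
`μ_i + μ_j ≤ δ`; a line contains at most two of the points (Xu's inequality).
-/

namespace Pool.Agent.KB

open MvPolynomial Pool.Agent.helper5.NBS Pool.Agent.helper89.Segre Pool.Agent.helper22.SC
  Pool.Agent.helper89.Exp Pool.Agent.helper25.CF Pool.Agent.KD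

/-- the line through two points -/
lemma exists_line (p q : Fin 2 → ℂ) (hpq : p ≠ q) :
    ∃ P : R2, P ≠ 0 ∧ wdeg 1 P ≤ 1 ∧ P ∈ ptIdeal p ∧ P ∈ ptIdeal q := by
  obtain ⟨a, ha⟩ : ∃ a, a = q 1 - p 1 := ⟨_, rfl⟩
  obtain ⟨b, hb⟩ : ∃ b, b = p 0 - q 0 := ⟨_, rfl⟩
  obtain ⟨P, hP⟩ : ∃ P : R2, P = C a * (X 0 - C (p 0)) + C b * (X 1 - C (p 1)) := ⟨_, rfl⟩
  have hd : P.totalDegree ≤ 1 := by
    rw [hP]
    refine (totalDegree_add _ _).trans (max_le ?_ ?_)
    · refine (totalDegree_mul _ _).trans ?_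
      rw [totalDegree_C, zero_add]
      refine (totalDegree_sub _ _).trans ?_
      rw [totalDegree_X, totalDegree_C]
      simp
    · refine (totalDegree_mul _ _).trans ?_
      rw [totalDegree_C, zero_add]
      refine (totalDegree_sub _ _).trans ?_
      rw [totalDegree_X, totalDegree_C]
      simp
  refine ⟨P, ?_, ?_, ?_, ?_⟩
  · intro h0
    have h1 : eval (fun i => p i + Pi.single (M := fun _ => ℂ) 0 1 i) P = 0 := by rw [h0, map_zero]
    have h2 : eval (fun i => p i + Pi.single (M := fun _ => ℂ) 1 1 i) P = 0 := by rw [h0, map_zero]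
    rw [hP] at h1 h2
    simp at h1 h2
    apply hpq
    funext i
    fin_cases i
    · show p 0 = q 0
      rw [hb] at h2
      linear_combination h2
    · show p 1 = q 1
      rw [ha] at h1
      linear_combination -h1
  · apply Finset.sup_le
    intro n hn
    have h3 := (le_totalDegree hn).trans hd
    rw [Finsupp.sum_fintype _ _ (fun _ => rfl), Fin.sum_univ_two] at h3
    omega
  · rw [mem_ptIdeal_iff, hP]
    simp
  · rw [mem_ptIdeal_iff, hP, ha, hb]
    simp
    ring

/-- Bezout with a line -/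
lemma pair_mult {n : ℕ} {q : Fin n → Fin 2 → ℂ} (hq : Function.Injective q) {F : R2}
    (hF : Irreducible F) (h2 : 2 ≤ wdeg 1 F) {i j : Fin n} (hij : i ≠ j) :
    mult (q i) F + mult (q j) F ≤ wdeg 1 F := by
  obtain ⟨P, hP0, hPd, hPi, hPj⟩ := exists_line (q i) (q j) (fun h => hij (hq h))
  have hF0 := hF.ne_zero
  have hnd : ¬ F ∣ P := by
    rintro ⟨U, hU⟩
    have hU0 : U ≠ 0 := by
      rintro rfl
      rw [mul_zero] at hU
      exact hP0 hU
    rw [hU, wdeg_mul 1 hF0 hU0] at hPd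
    omega
  have hrel : IsRelPrime F P := hF.isRelPrime_iff_not_dvd.mpr hnd
  have h3 := bez 1 hF0 hP0 hrel (ι := Bool) (fun b => if b then q i else q j) (by
    intro a b hab
    cases a <;> cases b <;> simp_all [hq.eq_iff]) (fun b => if b then mult (q i) F else mult (q j) F) (fun _ => 1)
    (by
      intro b
      cases b
      · exact (mem_pow_iff_le_mult hF0).mpr le_rfl
      · exact (mem_pow_iff_le_mult hF0).mpr le_rfl)
    (by
      intro b
      rw [pow_one]
      cases b
      · exact hPj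
      · exact hPi)
  simp at h3
  calc mult (q i) F + mult (q j) F ≤ wdeg 1 F * wdeg 1 P := h3
    _ ≤ wdeg 1 F * 1 := Nat.mul_le_mul_left _ hPd
    _ = wdeg 1 F := mul_one _

lemma three_num {w0 w1 w2 m0 m1 m2 D e : ℤ} (h0 : 0 ≤ m0) (h1 : 0 ≤ m1) (h2 : 0 ≤ m2)
    (g0 : 0 ≤ w0) (g1 : 0 ≤ w1) (g2 : 0 ≤ w2)
    (a1 : w0 + w1 ≤ D) (a2 : w0 + w2 ≤ D) (a3 : w1 + w2 ≤ D)
    (b1 : m0 + m1 ≤ e) (b2 : m0 + m2 ≤ e) (b3 : m1 + m2 ≤ e) :
    w0 * m0 + w1 * m1 + w2 * m2 ≤ D * e := by
  have he : 0 ≤ e := by linarith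
  by_cases c0 : w1 + w2 ≤ w0
  · have k1 : w1 * m1 ≤ w1 * (e - m0) := mul_le_mul_of_nonneg_left (by linarith) g1
    have k2 : w2 * m2 ≤ w2 * (e - m0) := mul_le_mul_of_nonneg_left (by linarith) g2
    have k3 : (w0 - w1 - w2) * m0 ≤ (w0 - w1 - w2) * e :=
      mul_le_mul_of_nonneg_left (by linarith) (by linarith)
    have k4 : w0 * e ≤ D * e := mul_le_mul_of_nonneg_right (by linarith) he
    nlinarith
  by_cases c1 : w0 + w2 ≤ w1
  · have k1 : w0 * m0 ≤ w0 * (e - m1) := mul_le_mul_of_nonneg_left (by linarith) g0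
    have k2 : w2 * m2 ≤ w2 * (e - m1) := mul_le_mul_of_nonneg_left (by linarith) g2
    have k3 : (w1 - w0 - w2) * m1 ≤ (w1 - w0 - w2) * e :=
      mul_le_mul_of_nonneg_left (by linarith) (by linarith)
    have k4 : w1 * e ≤ D * e := mul_le_mul_of_nonneg_right (by linarith) he
    nlinarith
  by_cases c2 : w0 + w1 ≤ w2
  · have k1 : w0 * m0 ≤ w0 * (e - m2) := mul_le_mul_of_nonneg_left (by linarith) g0
    have k2 : w1 * m1 ≤ w1 * (e - m2) := mul_le_mul_of_nonneg_left (by linarith) g1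
    have k3 : (w2 - w0 - w1) * m2 ≤ (w2 - w0 - w1) * e :=
      mul_le_mul_of_nonneg_left (by linarith) (by linarith)
    have k4 : w2 * e ≤ D * e := mul_le_mul_of_nonneg_right (by linarith) he
    nlinarith
  · push Not at c0 c1 c2
    have k1 : (w0 + w1 - w2) * (m0 + m1) ≤ (w0 + w1 - w2) * e :=
      mul_le_mul_of_nonneg_left b1 (by linarith)
    have k2 : (w0 + w2 - w1) * (m0 + m2) ≤ (w0 + w2 - w1) * e :=
      mul_le_mul_of_nonneg_left b2 (by linarith)
    have k3 : (w1 + w2 - w0) * (m1 + m2) ≤ (w1 + w2 - w0) * e :=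
      mul_le_mul_of_nonneg_left b3 (by linarith)
    have k4 : (w0 + w1 + w2) * e ≤ (2 * D) * e := mul_le_mul_of_nonneg_right (by linarith) he
    nlinarith

/-- **Nefness with three points.** -/
theorem nef_three {D : ℕ} (w : Fin 3 → ℕ) (h : ∀ i j, i ≠ j → w i + w j ≤ D) :
    Pool.Agent.helper25.ST.NefP D w := by
  refine ⟨TN one_pos 3, TN_countable one_pos _, TN_ne one_pos _, fun q hq => ?_⟩
  have hV := VGN_of one_pos hq
  refine ⟨hV.inj, fun F hF => ?_⟩
  refine Pool.Agent.helper25.ST.nef_of_irred ?_ F hF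
  intro G hG
  have hpos := Pool.Agent.helper7.SC.wdeg_pos one_pos hG
  have hle : ∀ i, mult (q i) G ≤ wdeg 1 G :=
    fun i => Pool.Agent.helper25.ST.Nef0aux.mult_le_deg (q i) hG.ne_zero
  have hxu := fun j (hj : 0 < mult (q j) G) => xuOne hV hG j hj
  have h01 := h 0 1 (by decide)
  have h02 := h 0 2 (by decide)
  have h12 := h 1 2 (by decide)
  rw [Fin.sum_univ_three]
  rcases Nat.lt_or_ge (wdeg 1 G) 2 with h1 | h2
  · have hd : wdeg 1 G = 1 := by omega
    have l0 := hle 0
    have l1 := hle 1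
    have l2 := hle 2
    have hx := hxu 0
    rw [Fin.sum_univ_three] at hx
    rw [hd] at l0 l1 l2 hx ⊢
    have key : ∀ a b c : ℕ, a ≤ 1 → b ≤ 1 → c ≤ 1 → (0 < a → a ^ 2 + b ^ 2 + c ^ 2 ≤ 1 ^ 2 + a) →
        w 0 * a + w 1 * b + w 2 * c ≤ D * 1 := by
      intro a b c ha hb hc hx
      rcases Nat.le_one_iff_eq_zero_or_eq_one.mp ha with rfl | rfl <;>
        rcases Nat.le_one_iff_eq_zero_or_eq_one.mp hb with rfl | rfl <;>
        rcases Nat.le_one_iff_eq_zero_or_eq_one.mp hc with rfl | rfl <;>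
        first
          | omega
          | (exfalso; have := hx one_pos; omega)
    exact key _ _ _ l0 l1 l2 hx
  · have p01 := pair_mult hV.inj hG h2 (i := 0) (j := 1) (by decide)
    have p02 := pair_mult hV.inj hG h2 (i := 0) (j := 2) (by decide)
    have p12 := pair_mult hV.inj hG h2 (i := 1) (j := 2) (by decide)
    have key := three_num (w0 := w 0) (w1 := w 1) (w2 := w 2) (m0 := mult (q 0) G)
      (m1 := mult (q 1) G) (m2 := mult (q 2) G) (D := D) (e := wdeg 1 G)
      (by positivity) (by positivity) (by positivity) (by positivity) (by positivity) (by positivity)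
      (by exact_mod_cast h01) (by exact_mod_cast h02) (by exact_mod_cast h12)
      (by exact_mod_cast p01) (by exact_mod_cast p02) (by exact_mod_cast p12)
    exact_mod_cast key

/-- two points and one more of weight `W` -/
theorem nefPm_three {D W : ℕ} {X : Multiset ℕ} (hc : Multiset.card X = 2)
    (h1 : ∀ x ∈ X, x + W ≤ D) (h2 : X.sum ≤ D) : NefPm D (W ::ₘ X) := by
  classical
  intro n w hw
  have hn : n = 3 := by
    have := congrArg Multiset.card hw
    rw [Multiset.card_map, Multiset.card_cons, hc] at this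
    simpa using this
  subst hn
  apply nef_three
  intro i j hij
  have hZ : ({w i, w j} : Multiset ℕ) ≤ W ::ₘ X := by
    rw [← hw]
    have e : ({w i, w j} : Multiset ℕ) = (({i, j} : Finset (Fin 3)).val.map w) := by
      rw [Finset.insert_val_of_notMem (by simp [hij])]
      simp
    rw [e]
    exact Multiset.map_le_map (Finset.val_le_iff.mpr (Finset.subset_univ _))
  obtain ⟨Z, hZd⟩ : ∃ Z : Multiset ℕ, Z = {w i, w j} := ⟨_, rfl⟩
  rw [← hZd] at hZ
  have hcZ : Multiset.card Z = 2 := by rw [hZd]; rfl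
  have hsZ : Z.sum = w i + w j := by
    rw [hZd]
    simp
  rw [← hsZ]
  have h4 : Z.erase W ≤ X := Multiset.erase_le_iff_le_cons.mpr hZ
  by_cases hW : W ∈ Z
  · have h5 := Multiset.cons_erase hW
    have h6 : Multiset.card (Z.erase W) = 1 := by
      rw [Multiset.card_erase_of_mem hW, hcZ]
      rfl
    obtain ⟨x, hx⟩ := Multiset.card_eq_one.mp h6
    have h7 := h1 x (Multiset.mem_of_le h4 (by rw [hx]; exact Multiset.mem_singleton_self x))
    rw [← h5, Multiset.sum_cons, hx, Multiset.sum_singleton]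
    omega
  · rw [Multiset.erase_of_notMem hW] at h4
    have h5 := Multiset.eq_of_le_of_card_le h4 (by rw [hcZ, hc])
    rw [h5]
    exact h2

theorem nefPm_three' {D W : ℕ} {X : Multiset ℕ} (hc : Multiset.card X = 2)
    (h1 : ∀ x ∈ X, x + W ≤ D) (h2 : X.sum ≤ D) :
    NefPm (D + 3) (W ::ₘ X.map fun x => x + 1) := by
  refine nefPm_three (by rw [Multiset.card_map, hc]) ?_ ?_
  · intro x hx
    obtain ⟨y, hy, rfl⟩ := Multiset.mem_map.mp hx
    have := h1 y hy
    omega
  · obtain ⟨a, b, rfl⟩ := Multiset.card_eq_two.mp hc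
    simp at h2 ⊢
    omega

/-- the self-intersection of a class with two points -/
lemma three_dW {D W : ℕ} {X : Multiset ℕ} (hc : Multiset.card X = 2)
    (h1 : ∀ x ∈ X, x + W ≤ D) (h2 : X.sum ≤ D) : W * D + 3 * KD.sq X ≤ 3 * D ^ 2 := by
  obtain ⟨a, b, rfl⟩ := Multiset.card_eq_two.mp hc
  have ha := h1 a (by simp)
  have hb := h1 b (by simp)
  have hs : a + b ≤ D := by simpa using h2
  have e : KD.sq ({a, b} : Multiset ℕ) = a ^ 2 + b ^ 2 := by
    simp [KD.sq]
  rw [e]
  rcases le_total b a with h | h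
  · obtain ⟨u, rfl⟩ : ∃ u, D = a + u := ⟨D - a, by omega⟩
    have hW : W ≤ u := by omega
    have hbu : b ≤ u := by omega
    have k1 : b ^ 2 ≤ a * u := by
      rw [pow_two]
      exact Nat.mul_le_mul h hbu
    have k2 : W * (a + u) ≤ u * (a + u) := Nat.mul_le_mul_right _ hW
    nlinarith
  · obtain ⟨u, rfl⟩ : ∃ u, D = b + u := ⟨D - b, by omega⟩
    have hW : W ≤ u := by omega
    have hau : a ≤ u := by omega
    have k1 : a ^ 2 ≤ b * u := by
      rw [pow_two]
      exact Nat.mul_le_mul h hau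
    have k2 : W * (b + u) ≤ u * (b + u) := Nat.mul_le_mul_right _ hW
    nlinarith

end Pool.Agent.KB
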