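import Pool.Agent.KB.FinalB
import Pool.Agent.KB.NefThree
import Pool.Agent.KD.MainK

set_option autoImplicit false

/-!
# Theorem KB: few values besides eight arbitrary points and arbitrary points of half of the area
-/

namespace Pool.Agent.KB

open MvPolynomial Pool.Agent.helper89.Segre Pool.Agent.SH9 Pool.Agent.helper61.EX Pool.Agent.KD

lemma exists_fn {X : Multiset ℕ} (hc : Multiset.card X = 8) :
    ∃ x : Fin 8 → ℕ, Finset.univ.val.map x = X := by
  rw [← hc]
  exact Pool.Agent.helper25.ST.exists_fin X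

lemma triple_le {n : ℕ} (w : Fin n → ℕ) {i j k : Fin n} (hij : i ≠ j) (hjk : j ≠ k) (hik : i ≠ k) :
    ({w i, w j, w k} : Multiset ℕ) ≤ Finset.univ.val.map w := by
  classical
  have e : ({w i, w j, w k} : Multiset ℕ) = (({i, j, k} : Finset (Fin n)).val.map w) := by
    rw [Finset.insert_val_of_notMem (by simp [hij, hik]), Finset.insert_val_of_notMem (by simp [hjk])]
    simp
  rw [e]
  exact Multiset.map_le_map (Finset.val_le_iff.mpr (Finset.subset_univ _))

lemma pair_le {n : ℕ} (w : Fin n → ℕ) {i j : Fin n} (hij : i ≠ j) :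
    ({w i, w j} : Multiset ℕ) ≤ Finset.univ.val.map w := by
  classical
  have e : ({w i, w j} : Multiset ℕ) = (({i, j} : Finset (Fin n)).val.map w) := by
    rw [Finset.insert_val_of_notMem (by simp [hij])]
    simp
  rw [e]
  exact Multiset.map_le_map (Finset.val_le_iff.mpr (Finset.subset_univ _))

/-- the self-intersection of a class with eight points -/
lemma nine_dW {D W : ℕ} {X : Multiset ℕ} (hc : Multiset.card X = 8)
    (h2 : ∀ Z ≤ X, Multiset.card Z = 2 → Z.sum + W ≤ D)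
    (h3 : ∀ Z ≤ X, Multiset.card Z = 3 → Z.sum ≤ D) :
    W * D + 3 * KD.sq X ≤ 3 * D ^ 2 ∧ 3 * X.sum ≤ 8 * D := by
  obtain ⟨x, hx⟩ := exists_fn hc
  have h3' : ∀ i j k : Fin 8, i ≠ j → j ≠ k → i ≠ k → x i + x j + x k ≤ D := by
    intro i j k hij hjk hik
    have h := triple_le x hij hjk hik
    rw [hx] at h
    have h4 := h3 _ h rfl
    simp at h4
    omega
  have h2' : ∀ i j : Fin 8, i ≠ j → x i + x j + W ≤ D := by
    intro i j hij
    have h := pair_le x hij
    rw [hx] at h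
    have h4 := h2 _ h rfl
    simp at h4
    omega
  have hsum : X.sum = ∑ i, x i := by rw [← hx]; rfl
  have hsq : KD.sq X = ∑ i, x i ^ 2 := by
    rw [← hx, KD.sq, Multiset.map_map]
    rfl
  have h8 : 3 * ∑ i, x i ≤ 8 * D := by
    rw [Fin.sum_univ_eight]
    have a1 := h3' 0 1 2 (by decide) (by decide) (by decide)
    have a2 := h3' 1 2 3 (by decide) (by decide) (by decide)
    have a3 := h3' 2 3 4 (by decide) (by decide) (by decide)
    have a4 := h3' 3 4 5 (by decide) (by decide) (by decide)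
    have a5 := h3' 4 5 6 (by decide) (by decide) (by decide)
    have a6 := h3' 5 6 7 (by decide) (by decide) (by decide)
    have a7 := h3' 6 7 0 (by decide) (by decide) (by decide)
    have a8 := h3' 7 0 1 (by decide) (by decide) (by decide)
    omega
  refine ⟨?_, by rw [hsum]; exact h8⟩
  have h9 := nine_lin (D0 := D) (D := 3 * D) (Fin.cons W x : Fin 9 → ℕ)
    (Fin.cons D (fun i => 3 * x i) : Fin 9 → ℕ) (by
      intro i j k
      refine Fin.cases ?_ (fun i => ?_) i <;> refine Fin.cases ?_ (fun j => ?_) j <;>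
        refine Fin.cases ?_ (fun k => ?_) k
      · intro h; exact absurd rfl h
      · intro h; exact absurd rfl h
      · intro _ _ h; exact absurd rfl h
      · intro _ h _
        have := h2' j k (fun h' => h (by rw [h']))
        simp only [Fin.cons_zero, Fin.cons_succ]
        omega
      · intro _ h _; exact absurd rfl h
      · intro _ _ h
        have := h2' i k (fun h' => h (by rw [h']))
        simp only [Fin.cons_zero, Fin.cons_succ]
        omega
      · intro h _ _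
        have := h2' i j (fun h' => h (by rw [h']))
        simp only [Fin.cons_zero, Fin.cons_succ]
        omega
      · intro h h' h''
        simp only [Fin.cons_succ]
        exact h3' i j k (fun e => h (by rw [e])) (fun e => h' (by rw [e]))
          (fun e => h'' (by rw [e])))
    (by
      intro i
      refine Fin.cases ?_ (fun i => ?_) i
      · simp only [Fin.cons_zero]; omega
      · simp only [Fin.cons_succ]
        obtain ⟨j, hj⟩ : ∃ j : Fin 8, i ≠ j := by
          rcases eq_or_ne i 0 with rfl | h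
          · exact ⟨1, by decide⟩
          · exact ⟨0, h⟩
        have := h2' i j hj
        omega)
    (by
      rw [Fin.sum_univ_succ]
      simp only [Fin.cons_zero, Fin.cons_succ]
      rw [← Finset.mul_sum]
      omega)
  rw [Fin.sum_univ_succ] at h9
  simp only [Fin.cons_zero, Fin.cons_succ] at h9
  have e1 : ∑ i, x i * (3 * x i) = 3 * ∑ i, x i ^ 2 := by
    rw [Finset.mul_sum]
    apply Finset.sum_congr rfl
    intro i _
    ring
  rw [e1] at h9
  rw [hsq]
  calc W * D + 3 * ∑ i, x i ^ 2 ≤ D * (3 * D) := h9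
    _ = 3 * D ^ 2 := by ring

lemma exists_sub {ι : Type*} [DecidableEq ι] (m : ι → ℕ) (T : Finset ι) :
    ∀ Z ≤ T.val.map m, ∃ s ⊆ T, s.val.map m = Z := by
  induction T using Finset.induction_on with
  | empty =>
    intro Z hZ
    rw [Finset.empty_val, Multiset.map_zero, Multiset.le_zero] at hZ
    exact ⟨∅, Finset.Subset.refl _, by rw [hZ]; rfl⟩
  | insert a T ha ih =>
    intro Z hZ
    rw [Finset.insert_val_of_notMem ha, Multiset.map_cons] at hZ
    have h1 : Z.erase (m a) ≤ T.val.map m := Multiset.erase_le_iff_le_cons.mpr hZ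
    obtain ⟨s, hs, hsZ⟩ := ih _ h1
    by_cases hm : m a ∈ Z
    · refine ⟨insert a s, Finset.insert_subset_insert _ hs, ?_⟩
      rw [Finset.insert_val_of_notMem (fun h => ha (hs h)), Multiset.map_cons, hsZ,
        Multiset.cons_erase hm]
    · refine ⟨s, hs.trans (Finset.subset_insert _ _), ?_⟩
      rw [hsZ, Multiset.erase_of_notMem hm]

/-- submultisets of the padded multiset of at most eight points -/
lemma exists_sub0 {ι : Type*} [DecidableEq ι] (m : ι → ℕ) (T : Finset ι) (r : ℕ) (Z : Multiset ℕ)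
    (hZ : Z ≤ T.val.map m + Multiset.replicate r 0) :
    ∃ s ⊆ T, s.card ≤ Multiset.card Z ∧ ∑ i ∈ s, m i = Z.sum := by
  obtain ⟨Z1, hZ1⟩ : ∃ Z1, Z1 = Z ∩ T.val.map m := ⟨_, rfl⟩
  obtain ⟨Z2, hZ2⟩ : ∃ Z2, Z2 = Z - T.val.map m := ⟨_, rfl⟩
  have h1 : Z2 + Z1 = Z := by rw [hZ1, hZ2]; exact Multiset.sub_add_inter Z _
  have h2 : Z2 ≤ Multiset.replicate r 0 := by
    rw [hZ2]
    exact tsub_le_iff_left.mpr hZ
  have h3 : Z1 ≤ T.val.map m := by rw [hZ1]; exact Multiset.inter_le_right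
  obtain ⟨s, hs, hsZ⟩ := exists_sub m T Z1 h3
  refine ⟨s, hs, ?_, ?_⟩
  · have h4 : s.card = Multiset.card Z1 := by rw [← hsZ, Multiset.card_map]; rfl
    have h5 : Multiset.card Z1 ≤ Multiset.card Z := by
      rw [← h1, Multiset.card_add]
      omega
    omega
  · have h4 : ∑ i ∈ s, m i = Z1.sum := by rw [← hsZ]; rfl
    have h5 : Z2.sum = 0 := by
      rw [Multiset.sum_eq_zero_iff]
      intro x hx
      exact Multiset.eq_of_mem_replicate (Multiset.mem_of_le h2 hx)
    rw [h4, ← h1, Multiset.sum_add, h5, zero_add]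

lemma good_drop_zeros {D : Finset (ℕ × ℕ)} {r : ℕ} (n : ℕ) : ∀ {ms : Multiset ℕ},
    Good ℂ D (ms + Multiset.replicate n 0) r → Good ℂ D ms r := by
  induction n with
  | zero => intro ms h; simpa using h
  | succ n ih =>
    intro ms h
    apply ih
    apply Pool.Agent.helper7.Hex.good_drop_zero
    have e1 : ms + Multiset.replicate (n + 1) 0 = 0 ::ₘ (ms + Multiset.replicate n 0) := by
      rw [Multiset.replicate_succ, Multiset.add_cons]
    rw [e1] at h
    exact h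

lemma cd_replicate_zero (n : ℕ) : cd (Multiset.replicate n 0) = 0 := by
  have := two_mul_kk 0
  rw [cd_replicate]
  have h : kk 0 = 0 := by omega
  rw [h, mul_zero]

lemma sq_replicate_zero (n : ℕ) : KD.sq (Multiset.replicate n 0) = 0 := by
  rw [sq_replicate]
  simp

/-- the nef classes of the big points, given those of `X` -/
lemma bigNef_of {ι : Type*} [DecidableEq ι] {m : ι → ℕ} {T2 : Finset ι} {d d1 d2 W : ℕ}
    {X Bg : Multiset ℕ} (hd : d1 + d2 ≤ d) (hWd1 : W ≤ d1)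
    (n1 : NefPm (d1 + 3) ((4 * (W / 4 + 1)) ::ₘ X.map fun x => x + 1))
    (n0 : NefPm d1 ((4 * (W / 4 + 1)) ::ₘ X)) (hdW : W * d1 + 3 * KD.sq X ≤ 3 * d1 ^ 2)
    (h4 : 2 * ∑ i ∈ T2, (m i + 1) ^ 2 ≤ d2 ^ 2) (hBg' : Bg = X + T2.val.map m) :
    NefPm (d + 3) ((4 * (W / 4 + 1)) ::ₘ Bg.map fun x => x + 1) ∧
    NefPm d ((4 * (W / 4 + 1)) ::ₘ Bg) ∧ W * d + 3 * KD.sq Bg ≤ 3 * d ^ 2 := by
  have e2 : KD.sq ((T2.val.map m).map fun x => x + 1) = ∑ i ∈ T2, (m i + 1) ^ 2 := by
    rw [KD.sq, Multiset.map_map, Multiset.map_map]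
    rfl
  have e3 : KD.sq (T2.val.map m) = ∑ i ∈ T2, m i ^ 2 := by
    rw [KD.sq, Multiset.map_map]
    rfl
  have e4 : ∑ i ∈ T2, m i ^ 2 ≤ ∑ i ∈ T2, (m i + 1) ^ 2 :=
    Finset.sum_le_sum fun i _ => Nat.pow_le_pow_left (by omega) 2
  refine ⟨?_, ?_, ?_⟩
  · have a2 : NefPm d2 ((T2.val.map m).map fun x => x + 1) := nefPm_half (by rw [e2]; exact h4)
    have a3 := nefPm_add n1 a2
    rw [Multiset.cons_add, ← Multiset.map_add, ← hBg'] at a3
    exact nefPm_mono (by omega) a3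
  · have a2 : NefPm d2 (T2.val.map m) := nefPm_half (by rw [e3]; omega)
    have a3 := nefPm_add n0 a2
    rw [Multiset.cons_add, ← hBg'] at a3
    exact nefPm_mono (by omega) a3
  · obtain ⟨f, hf⟩ : ∃ f, d = d1 + d2 + f := ⟨d - (d1 + d2), by omega⟩
    rw [hBg', sq_add, e3]
    have b1 : W * d2 ≤ d1 * d2 := Nat.mul_le_mul_right _ hWd1
    have b2 : W * f ≤ d1 * f := Nat.mul_le_mul_right _ hWd1
    have b3 : W * d = W * d1 + W * d2 + W * f := by rw [hf]; ring
    have b4 : d ^ 2 = d1 ^ 2 + d2 ^ 2 + 2 * (d1 * d2) + 2 * (d1 * f) + 2 * (d2 * f) + f ^ 2 := by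
      rw [hf]; ring
    rw [b3, b4]
    omega

/-- the nef classes of the big points -/
theorem bigNef {ι : Type*} [DecidableEq ι] {m : ι → ℕ} {T1 T2 : Finset ι} {d d1 d2 W : ℕ}
    (hT : T1.card ≤ 8) (hd : d1 + d2 ≤ d)
    (h1 : ∀ s ⊆ T1, s.card ≤ 1 → ∑ i ∈ s, m i + (W + 4) ≤ d1)
    (h2 : ∀ s ⊆ T1, s.card ≤ 3 → ∑ i ∈ s, m i ≤ d1)
    (h3 : T1.card ≤ 2 ∨ ∀ i ∈ T1, W + 4 ≤ m i)
    (h4 : 2 * ∑ i ∈ T2, (m i + 1) ^ 2 ≤ d2 ^ 2) :
    ∃ r ≤ 8, ∀ Bg, Bg = T1.val.map m + Multiset.replicate r 0 + T2.val.map m →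
    NefPm (d + 3) ((4 * (W / 4 + 1)) ::ₘ Bg.map fun x => x + 1) ∧
    NefPm d ((4 * (W / 4 + 1)) ::ₘ Bg) ∧ W * d + 3 * KD.sq Bg ≤ 3 * d ^ 2 := by
  have hWd1 : W + 4 ≤ d1 := by
    have := h1 ∅ (Finset.empty_subset _) (by simp)
    simpa using this
  rcases Nat.lt_or_ge T1.card 3 with hc3 | hc3
  · -- at most two points
    refine ⟨2 - T1.card, by omega, fun Bg hBg => ?_⟩
    obtain ⟨X, hX⟩ : ∃ X, X = T1.val.map m + Multiset.replicate (2 - T1.card) 0 := ⟨_, rfl⟩
    have hc : Multiset.card X = 2 := by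
      rw [hX, Multiset.card_add, Multiset.card_map, Multiset.card_replicate]
      show T1.card + (2 - T1.card) = 2
      omega
    have k1 : ∀ x ∈ X, x + (W + 4) ≤ d1 := by
      intro x hx
      obtain ⟨s, hs, hsc, hsum⟩ := exists_sub0 m T1 (2 - T1.card) {x} (by
        rw [← hX]
        exact Multiset.singleton_le.mpr hx)
      rw [Multiset.sum_singleton] at hsum
      rw [← hsum]
      exact h1 s hs (by simpa using hsc)
    have k2 : X.sum ≤ d1 := by
      obtain ⟨s, hs, hsc, hsum⟩ := exists_sub0 m T1 (2 - T1.card) X (by rw [← hX])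
      rw [← hsum]
      exact h2 s hs (by omega)
    exact bigNef_of hd (by omega)
      (nefPm_three' hc (fun x hx => by have := k1 x hx; omega) k2)
      (nefPm_three hc (fun x hx => by have := k1 x hx; omega) k2)
      (three_dW hc (fun x hx => by have := k1 x hx; omega) k2) h4 (by rw [hX]; exact hBg)
  · -- three to eight points
    have h3' : ∀ i ∈ T1, W + 4 ≤ m i := by
      rcases h3 with h3 | h3
      · omega
      · exact h3
    have h2' : ∀ s ⊆ T1, s.card ≤ 2 → ∑ i ∈ s, m i + (W + 4) ≤ d1 := by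
      intro s hs hsc
      rcases Nat.lt_or_ge s.card 2 with h | h
      · exact h1 s hs (by omega)
      · obtain ⟨k, hk, hks⟩ : ∃ k ∈ T1, k ∉ s := by
          by_contra hcon
          push Not at hcon
          have := Finset.card_le_card (s := T1) (t := s) (fun k hk => hcon k hk)
          omega
        have a1 := h2 (insert k s) (Finset.insert_subset hk hs) (by
          rw [Finset.card_insert_of_notMem hks]
          omega)
        rw [Finset.sum_insert hks] at a1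
        have a2 := h3' k hk
        omega
    refine ⟨8 - T1.card, by omega, fun Bg hBg => ?_⟩
    obtain ⟨X, hX⟩ : ∃ X, X = T1.val.map m + Multiset.replicate (8 - T1.card) 0 := ⟨_, rfl⟩
    have hc : Multiset.card X = 8 := by
      rw [hX, Multiset.card_add, Multiset.card_map, Multiset.card_replicate]
      show T1.card + (8 - T1.card) = 8
      omega
    have k2 : ∀ Z ≤ X, Multiset.card Z = 2 → Z.sum + (W + 4) ≤ d1 := by
      intro Z hZ hcZ
      obtain ⟨s, hs, hsc, hsum⟩ := exists_sub0 m T1 _ Z (by rw [← hX]; exact hZ)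
      rw [← hsum]
      exact h2' s hs (by omega)
    have k3 : ∀ Z ≤ X, Multiset.card Z = 3 → Z.sum ≤ d1 := by
      intro Z hZ hcZ
      obtain ⟨s, hs, hsc, hsum⟩ := exists_sub0 m T1 _ Z (by rw [← hX]; exact hZ)
      rw [← hsum]
      exact h2 s hs (by omega)
    obtain ⟨hdW, -⟩ := nine_dW (W := W) (D := d1) hc
      (fun Z hZ hcZ => by have := k2 Z hZ hcZ; omega) k3
    exact bigNef_of hd (by omega)
      (nefPm_nine' hc (fun Z hZ hcZ => by have := k2 Z hZ hcZ; omega) k3)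
      (nefPm_nine hc (fun Z hZ hcZ => by have := k2 Z hZ hcZ; omega) k3) hdW h4
      (by rw [hX]; exact hBg)

/-- Theorem KB, rank of the conditions -/
theorem goodKBF {d h W d1 d2 : ℕ} {m : Fin h → ℕ} {V : Finset ℕ} {T1 T2 : Finset (Fin h)}
    (hW : 14000 ≤ W) (hV : ∀ x ∈ V, 1400 * x ≤ W) (hdis : Disjoint T1 T2) (hT : T1.card ≤ 8)
    (hd : d1 + d2 ≤ d)
    (h1 : ∀ s ⊆ T1, s.card ≤ 1 → ∑ i ∈ s, m i + (W + 4) ≤ d1)
    (h2 : ∀ s ⊆ T1, s.card ≤ 3 → ∑ i ∈ s, m i ≤ d1)
    (h3 : T1.card ≤ 2 ∨ ∀ i ∈ T1, W + 4 ≤ m i)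
    (h4 : 2 * ∑ i ∈ T2, (m i + 1) ^ 2 ≤ d2 ^ 2)
    (hm : ∀ i, i ∉ T1 → i ∉ T2 → m i ≤ W)
    (H1 : 2000 * (W : ℝ) ^ 2 * (V.card + Real.log W) ≤
      ((∑ i with i ∉ T1 ∧ i ∉ T2 ∧ m i ∈ V, m i ^ 2 : ℕ) : ℝ))
    (H3 : 40 * ∑ i with i ∉ T1 ∧ i ∉ T2 ∧ m i ∉ V, m i +
      20 * (∑ i ∈ T1 ∪ T2, (m i + 1) - 3 * d) ≤ ∑ i with i ∉ T1 ∧ i ∉ T2 ∧ m i ∈ V, m i) :
    Good ℂ (tri d) (Finset.univ.val.map m)
      (min (cd (Finset.univ.val.map m)) (tri d).card) := by
  classical
  obtain ⟨r, hr, hnef⟩ := bigNef (W := W) hT hd h1 h2 h3 h4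
  obtain ⟨Bg, hBg⟩ : ∃ Bg, Bg = T1.val.map m + Multiset.replicate r 0 + T2.val.map m := ⟨_, rfl⟩
  obtain ⟨hB1, hB0, hD⟩ := hnef Bg hBg
  have hWd : W ≤ d := by
    have := h1 ∅ (Finset.empty_subset _) (by simp)
    simp at this
    omega
  -- the other points
  obtain ⟨A, hA⟩ : ∃ A : Finset (Fin h), A = Finset.univ.filter
    (fun i => i ∉ T1 ∧ i ∉ T2 ∧ m i ∈ V ∧ 0 < m i) := ⟨_, rfl⟩
  obtain ⟨B, hB⟩ : ∃ B : Finset (Fin h), B = Finset.univ.filter
    (fun i => i ∉ T1 ∧ i ∉ T2 ∧ m i ∉ V ∧ 0 < m i) := ⟨_, rfl⟩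
  obtain ⟨C, hC⟩ : ∃ C : Finset (Fin h), C = Finset.univ.filter
    (fun i => i ∉ T1 ∧ i ∉ T2 ∧ m i = 0) := ⟨_, rfl⟩
  have hdAB : Disjoint A B := by
    rw [Finset.disjoint_left]
    intro i hi hi'
    rw [hA, Finset.mem_filter] at hi
    rw [hB, Finset.mem_filter] at hi'
    exact hi'.2.2.2.1 hi.2.2.2.1
  have hdABC : Disjoint (A ∪ B) C := by
    rw [Finset.disjoint_left]
    intro i hi hi'
    rw [Finset.mem_union, hA, hB, Finset.mem_filter, Finset.mem_filter] at hi
    rw [hC, Finset.mem_filter] at hi'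
    rcases hi with hi | hi
    · have := hi.2.2.2.2
      have := hi'.2.2.2
      omega
    · have := hi.2.2.2.2
      have := hi'.2.2.2
      omega
  have hdT : Disjoint (A ∪ B ∪ C) (T1 ∪ T2) := by
    rw [Finset.disjoint_left]
    intro i hi hi'
    rw [Finset.mem_union, Finset.mem_union, hA, hB, hC, Finset.mem_filter, Finset.mem_filter,
      Finset.mem_filter] at hi
    rw [Finset.mem_union] at hi'
    tauto
  have huniv : Finset.univ = (A ∪ B ∪ C) ∪ (T1 ∪ T2) := by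
    ext i
    simp only [Finset.mem_univ, true_iff, Finset.mem_union, hA, hB, hC, Finset.mem_filter,
      true_and]
    rcases Nat.eq_zero_or_pos (m i) with h0 | h0
    · tauto
    · tauto
  have hmap : Finset.univ.val.map m = A.val.map m + B.val.map m + C.val.map m +
      (T1.val.map m + T2.val.map m) := by
    have hval : ∀ {P R : Finset (Fin h)}, Disjoint P R → (P ∪ R).val.map m =
        P.val.map m + R.val.map m := by
      intro P R hPR
      rw [← Multiset.map_add, ← Finset.disjUnion_eq_union _ _ hPR]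
      rfl
    rw [huniv, hval hdT, hval hdABC, hval hdAB, hval hdis]
  have hCz : C.val.map m = Multiset.replicate C.card 0 := by
    rw [Multiset.eq_replicate]
    refine ⟨by rw [Multiset.card_map]; rfl, ?_⟩
    intro x hx
    obtain ⟨i, hi, rfl⟩ := Multiset.mem_map.mp hx
    have hi' : i ∈ C := hi
    rw [hC, Finset.mem_filter] at hi'
    exact hi'.2.2.2
  have hsumA : ∀ f : ℕ → ℕ, f 0 = 0 → ∑ i ∈ A, f (m i) =
      ∑ i with i ∉ T1 ∧ i ∉ T2 ∧ m i ∈ V, f (m i) := by
    intro f hf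
    apply Finset.sum_subset
    · intro i hi
      rw [hA, Finset.mem_filter] at hi
      rw [Finset.mem_filter]
      tauto
    · intro i hi hi'
      rw [Finset.mem_filter] at hi
      rw [hA, Finset.mem_filter] at hi'
      have : m i = 0 := by
        by_contra h0
        exact hi' ⟨hi.1, hi.2.1, hi.2.2.1, hi.2.2.2, by omega⟩
      rw [this, hf]
  have hsumB : ∀ f : ℕ → ℕ, f 0 = 0 → ∑ i ∈ B, f (m i) =
      ∑ i with i ∉ T1 ∧ i ∉ T2 ∧ m i ∉ V, f (m i) := by
    intro f hf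
    apply Finset.sum_subset
    · intro i hi
      rw [hB, Finset.mem_filter] at hi
      rw [Finset.mem_filter]
      tauto
    · intro i hi hi'
      rw [Finset.mem_filter] at hi
      rw [hB, Finset.mem_filter] at hi'
      have : m i = 0 := by
        by_contra h0
        exact hi' ⟨hi.1, hi.2.1, hi.2.2.1, hi.2.2.2, by omega⟩
      rw [this, hf]
  have hsqA : KD.sq (A.val.map m) = ∑ i with i ∉ T1 ∧ i ∉ T2 ∧ m i ∈ V, m i ^ 2 := by
    rw [← hsumA (fun x => x ^ 2) rfl, KD.sq, Multiset.map_map]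
    rfl
  have hsA : (A.val.map m).sum = ∑ i with i ∉ T1 ∧ i ∉ T2 ∧ m i ∈ V, m i :=
    hsumA (fun x => x) rfl
  have hsB : (B.val.map m).sum = ∑ i with i ∉ T1 ∧ i ∉ T2 ∧ m i ∉ V, m i :=
    hsumB (fun x => x) rfl
  have hs1 : s1 Bg ≤ ∑ i ∈ T1 ∪ T2, (m i + 1) + 8 := by
    rw [hBg, s1_add, s1_add, Finset.sum_union hdis]
    have a1 : s1 (T1.val.map m) = ∑ i ∈ T1, (m i + 1) := by
      rw [s1, Multiset.map_map]
      rfl
    have a2 : s1 (T2.val.map m) = ∑ i ∈ T2, (m i + 1) := by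
      rw [s1, Multiset.map_map]
      rfl
    have a3 : s1 (Multiset.replicate r 0) = r := by
      rw [s1, Multiset.map_replicate, Multiset.sum_replicate]
      simp
    omega
  have key := goodKBms (W := W) (S := V.filter (fun x => 0 < x)) (mn := A.val.map m)
    (Ex := B.val.map m) (Bg := Bg) (d := d) hW hWd
    (fun x hx => by
      obtain ⟨a1, a2⟩ := Finset.mem_filter.mp hx
      exact ⟨a2, hV x a1⟩)
    (fun x hx => by
      obtain ⟨i, hi, rfl⟩ := Multiset.mem_map.mp hx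
      have hi' : i ∈ A := hi
      rw [hA, Finset.mem_filter] at hi'
      exact Finset.mem_filter.mpr ⟨hi'.2.2.2.1, hi'.2.2.2.2⟩)
    (fun x hx => by
      obtain ⟨i, hi, rfl⟩ := Multiset.mem_map.mp hx
      have hi' : i ∈ B := hi
      rw [hB, Finset.mem_filter] at hi'
      exact ⟨hi'.2.2.2.2, hm i hi'.2.1 hi'.2.2.1⟩)
    (by
      rw [hsqA]
      refine le_trans ?_ H1
      have hSV : ((V.filter (fun x => 0 < x)).card : ℝ) ≤ V.card := by
        exact_mod_cast Finset.card_filter_le _ _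
      gcongr)
    (by
      rw [hsA, hsB]
      omega)
    hB1 hB0 hD
  have hcdZ := cd_replicate_zero
  have hcdAll : cd (Finset.univ.val.map m) = cd (A.val.map m + (B.val.map m + Bg)) := by
    rw [hmap, hBg, hCz]
    simp only [Pool.Agent.helper61.EX.cd_add, hcdZ]
    ring
  rw [← hcdAll] at key
  have e2 : A.val.map m + (B.val.map m + Bg) =
      (A.val.map m + B.val.map m + (T1.val.map m + T2.val.map m)) +
        Multiset.replicate r 0 := by
    rw [hBg]
    abel
  rw [e2] at key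
  have key2 := (good_drop_zeros _ key).add (C.val.map m)
  have e3 : C.val.map m + (A.val.map m + B.val.map m + (T1.val.map m + T2.val.map m)) =
      Finset.univ.val.map m := by
    rw [hmap]
    abel
  rw [e3] at key2
  exact key2

/-- **Theorem KB.** -/
theorem mainKB (d h W d1 d2 : ℕ) (m : Fin h → ℕ) (V : Finset ℕ) (T1 T2 : Finset (Fin h))
    (hW : 14000 ≤ W) (hV : ∀ x ∈ V, 1400 * x ≤ W) (hdis : Disjoint T1 T2) (hT : T1.card ≤ 8)
    (hd : d1 + d2 ≤ max d (W + 4))
    (h1 : ∀ s ⊆ T1, s.card ≤ 1 → ∑ i ∈ s, m i + (W + 4) ≤ d1)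
    (h2 : ∀ s ⊆ T1, s.card ≤ 3 → ∑ i ∈ s, m i ≤ d1)
    (h3 : T1.card ≤ 2 ∨ ∀ i ∈ T1, W + 4 ≤ m i)
    (h4 : 2 * ∑ i ∈ T2, (m i + 1) ^ 2 ≤ d2 ^ 2)
    (hm : ∀ i, i ∉ T1 → i ∉ T2 → m i ≤ W)
    (H1 : 2000 * (W : ℝ) ^ 2 * (V.card + Real.log W) ≤
      ((∑ i with i ∉ T1 ∧ i ∉ T2 ∧ m i ∈ V, m i ^ 2 : ℕ) : ℝ))
    (H3 : 40 * ∑ i with i ∉ T1 ∧ i ∉ T2 ∧ m i ∉ V, m i +
      20 * (∑ i ∈ T1 ∪ T2, (m i + 1) - 3 * d) ≤ ∑ i with i ∉ T1 ∧ i ∉ T2 ∧ m i ∈ V, m i) :
    ∃ Q : MvPolynomial (Fin h × Fin 3) ℂ, Q ≠ 0 ∧ ∀ p : Fin h → Fin 3 → ℂ,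
      eval (fun ij : Fin h × Fin 3 => p ij.1 ij.2) Q ≠ 0 →
      Module.finrank ℂ (sys d h m p) = (d + 2).choose 2 - ∑ k, (m k + 1).choose 2 := by
  classical
  apply generic_of_good
  have e1 : cd (Finset.univ.val.map m) = ∑ k, (m k + 1).choose 2 := sumkk_eq' m
  rw [← e1, ← card_tri]
  rcases Nat.lt_or_ge d (W + 4) with hdW | hdW
  · -- small degree: empty
    have key := goodKBF (d := W + 4) hW hV hdis hT (by rw [max_eq_right hdW.le] at hd; exact hd)
      h1 h2 h3 h4 hm H1 (by omega)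
    have hQ : 2000 * W ^ 2 ≤ ∑ i with i ∉ T1 ∧ i ∉ T2 ∧ m i ∈ V, m i ^ 2 := by
      have hlog : 1 ≤ Real.log (W : ℝ) := by
        rw [Real.le_log_iff_exp_le (by exact_mod_cast (by omega : 0 < W))]
        have a1 := Real.exp_one_lt_d9
        have a2 : (14000 : ℝ) ≤ W := by exact_mod_cast hW
        linarith
      have hc : (0 : ℝ) ≤ V.card := Nat.cast_nonneg _
      have : (2000 : ℝ) * (W : ℝ) ^ 2 ≤
          ((∑ i with i ∉ T1 ∧ i ∉ T2 ∧ m i ∈ V, m i ^ 2 : ℕ) : ℝ) := by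
        refine le_trans ?_ H1
        have a3 : 0 ≤ 2000 * (W : ℝ) ^ 2 := by positivity
        nlinarith
      exact_mod_cast this
    have hS : ∑ i with i ∉ T1 ∧ i ∉ T2 ∧ m i ∈ V, m i ^ 2 ≤ 2 * ∑ k, (m k + 1).choose 2 := by
      rw [Finset.mul_sum]
      refine (Finset.sum_le_sum_of_subset (Finset.filter_subset _ _)).trans ?_
      apply Finset.sum_le_sum
      intro k _
      have a4 := two_mul_kk (m k)
      have a5 : kk (m k) = (m k + 1).choose 2 := rfl
      rw [← a5, a4]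
      nlinarith
    have hC := card_tri (W + 4)
    have h2c := Pool.Agent.helper25.ST.two_choose (W + 4)
    have hcW : (tri (W + 4)).card < cd (Finset.univ.val.map m) := by
      have a6 : (W + 4 + 1) * (W + 4 + 2) = W ^ 2 + 11 * W + 30 := by ring
      have a7 : 14000 * W ≤ W ^ 2 := by nlinarith
      omega
    rw [min_eq_right hcW.le] at key
    have hE : E (W + 4) (Finset.univ.val.map m) := key
    have hE' : E d (Finset.univ.val.map m) := hE.mono hdW.le
    have hcd : (tri d).card < cd (Finset.univ.val.map m) := by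
      have := card_tri_mono hdW.le
      omega
    rw [min_eq_right hcd.le]
    exact hE'
  · exact goodKBF hW hV hdis hT (by rw [max_eq_left hdW] at hd; exact hd) h1 h2 h3 h4 hm H1 H3

end Pool.Agent.KB
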