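import Pool.Agent.helper25.CF.Num

set_option autoImplicit false

/-!
# Module N1 (project KB): curves which violate the bound, with big points

As `Pool.Agent.KD.viol` (KD/V1.lean), but the bound `w ≤ R` is known only outside the set `B` of
big points. Then there is a second possibility: the curve passes (outside `B`) through at most one
point `j`, and `j` is a simple point of it.

Proof: as in KD/V1; `S = ∑ w μ`, `M = ∑ μ²`, `s = S / r`, `V = ∑ (μ - s w)² = M - S² / r ≥ 0`,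
`V < μ j - D² / z` for all `μ j > 0`; all `μ i`, `i ∈ A` except one `i0`, are equal to `x`.
* `x > 0`: word for word as in V1 (the bound `R` is only used as `#A - 1 ≥ 16 R² ≥ 16`).
* `x = 0`: `t = √V`: `16 R² s² ≤ (#A - 1) s² ≤ V`, so `s R ≤ t / 4`; for `j ∉ B` with `μ j > 0`:
  `μ j ≤ s w j + t ≤ 5 t / 4` and `t² = V < μ j`, so `t < 5/4`, `μ j < 2`, `μ j = 1`, so `V < 1`,
  `s R < 1/4`, and `(μ j - s w j)² ≥ (3/4)²`; two such `j` would give `V ≥ 9/8 > 1`. So there is at most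
  one. If there is none take `j ∈ A`, `j ≠ i0` (`μ j = x = 0`).
-/

namespace Pool.Agent.KB

open Finset Pool.Agent.helper25.Exp

theorem violB {h : ℕ} (A B : Finset (Fin h)) (w : Fin h → ℝ) (hw0 : ∀ i, 0 ≤ w i)
    (hw1 : ∀ i ∈ A, w i = 1) {R : ℝ} (hR : 1 ≤ R) (hwR : ∀ i, i ∉ B → w i ≤ R)
    (D : ℕ) (r : ℝ) (hr : ∑ i, w i ^ 2 = r) (hA : 16 * R ^ 2 + 1 ≤ A.card) (hD : 0 < D)
    (z : ℝ) (hz : 0 < z) (μ : Fin h → ℕ)
    (xu : ∀ j, 0 < μ j → ∑ i, μ i ^ 2 ≤ D ^ 2 + μ j)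
    (sw : ∀ i j, μ i ≠ μ j → ∑ k, (μ k : ℤ) ^ 2 ≤ (D : ℤ) ^ 2 + ((μ i : ℤ) - μ j) ^ 2)
    (viol : (z + 1) * r * (D : ℝ) ^ 2 < z * (∑ i, w i * μ i) ^ 2) :
    (∃ i0 ∈ A, ∃ x : ℕ, 0 < x ∧ (∀ i ∈ A, i ≠ i0 → μ i = x) ∧
      r * (x : ℝ) ^ 2 ≤ 2 * (D : ℝ) ^ 2 ∧ (D : ℝ) ^ 2 < z * x) ∨
    ∃ j, μ j ≤ 1 ∧ ∀ i, i ∉ B → i ≠ j → μ i = 0 := by
  have hDR : (0 : ℝ) < D := by exact_mod_cast hD
  have hD1 : (1 : ℝ) ≤ (D : ℝ) ^ 2 := one_le_pow₀ (by exact_mod_cast hD)
  have hR2 : (1 : ℝ) ≤ R ^ 2 := one_le_pow₀ hR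
  have hA17R : (17 : ℝ) ≤ A.card := by linarith
  have hA17 : 17 ≤ A.card := by exact_mod_cast hA17R
  have hAr : (A.card : ℝ) ≤ r := by
    rw [← hr]
    have e1 : (A.card : ℝ) = ∑ i ∈ A, w i ^ 2 := by
      rw [Finset.card_eq_sum_ones, Nat.cast_sum]
      refine Finset.sum_congr rfl fun i hi => ?_
      rw [hw1 i hi]; simp
    rw [e1]
    exact Finset.sum_le_sum_of_subset_of_nonneg (Finset.subset_univ _) fun _ _ _ => sq_nonneg _
  have hrR : 0 < r := by linarith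
  have hrw : ∑ i, w i ^ 2 = r := hr
  set S : ℝ := ∑ i, w i * μ i with hS
  set M : ℝ := ∑ i, (μ i : ℝ) ^ 2 with hM
  have hS0 : 0 ≤ S := Finset.sum_nonneg fun i _ => mul_nonneg (hw0 i) (Nat.cast_nonneg _)
  have v1 : r * (D : ℝ) ^ 2 < S ^ 2 := by
    have h1 : (z + 1) * (r * (D : ℝ) ^ 2) < (z + 1) * S ^ 2 := by
      have : (0 : ℝ) ≤ S ^ 2 := by positivity
      nlinarith
    exact lt_of_mul_lt_mul_left h1 (by linarith)
  have hCS : S ^ 2 ≤ r * M := by
    rw [← hrw]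
    exact Finset.sum_mul_sq_le_sq_mul_sq _ _ _
  have hD2 : (D : ℝ) ^ 2 < S ^ 2 / r := by
    rw [lt_div_iff₀ hrR]; linarith
  have sw' : ∀ i j, μ i ≠ μ j → M - S ^ 2 / r < ((μ i : ℝ) - μ j) ^ 2 := by
    intro i j hij
    have h1 : M ≤ (D : ℝ) ^ 2 + ((μ i : ℝ) - μ j) ^ 2 := by
      have := sw i j hij
      rw [hM]
      exact_mod_cast this
    linarith
  have xu' : ∀ j, 0 < μ j → M ≤ (D : ℝ) ^ 2 + μ j := by
    intro j hj
    have := xu j hj
    rw [hM]
    exact_mod_cast this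
  have hvar : ∑ l, ((μ l : ℝ) - S / r * w l) ^ 2 = M - S ^ 2 / r := by
    have h1 : ∀ l, ((μ l : ℝ) - S / r * w l) ^ 2 =
        (μ l : ℝ) ^ 2 - 2 * (S / r) * (w l * μ l) + (S / r) ^ 2 * w l ^ 2 := by
      intro l; ring
    rw [Finset.sum_congr rfl fun l _ => h1 l, Finset.sum_add_distrib, Finset.sum_sub_distrib,
      ← Finset.mul_sum, ← Finset.mul_sum, hrw, ← hS, ← hM]
    field_simp
    ring
  set s : ℝ := S / r with hs
  set V : ℝ := M - S ^ 2 / r with hV
  have hs0 : 0 ≤ s := by rw [hs]; positivity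
  have hV0 : 0 ≤ V := by rw [← hvar]; exact Finset.sum_nonneg fun _ _ => sq_nonneg _
  have hVx : ∀ j, 0 < μ j → V < μ j := by
    intro j hj
    have := xu' j hj
    rw [hV]; linarith
  obtain ⟨i0, hi0, x, hx⟩ := almost_const A (by omega) μ (by
    intro i hi j hj k hk l hl h1 h2 h3 h4 hij hkl
    have hij' : i ≠ j := fun h => hij (by rw [h])
    have hkl' : k ≠ l := fun h => hkl (by rw [h])
    have hp := two_pairs (fun l => (μ l : ℝ) - s * w l) hij' hkl' h1 h2 h3 h4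
    simp only [hw1 i hi, hw1 j hj, hw1 k hk, hw1 l hl, mul_one] at hp
    rw [hvar] at hp
    have s1 := sw' i j hij
    have s2 := sw' k l hkl
    have e1 : (μ i : ℝ) - s - (μ j - s) = μ i - μ j := by ring
    have e2 : (μ k : ℝ) - s - (μ l - s) = μ k - μ l := by ring
    rw [e1, e2] at hp
    linarith)
  have hcard : ((A.erase i0).card : ℝ) = A.card - 1 := by
    rw [Finset.card_erase_of_mem hi0, Nat.cast_sub (by omega), Nat.cast_one]
  have ha : 16 * R ^ 2 ≤ (A.card : ℝ) - 1 := by linarith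
  have hAV : ((A.card : ℝ) - 1) * ((x : ℝ) - s) ^ 2 ≤ V := by
    rw [← hcard, ← hvar]
    have h4 : ∑ i ∈ A.erase i0, ((μ i : ℝ) - s * w i) ^ 2 ≤ ∑ i, ((μ i : ℝ) - s * w i) ^ 2 :=
      Finset.sum_le_sum_of_subset_of_nonneg (Finset.subset_univ _) fun _ _ _ => sq_nonneg _
    refine le_trans (le_of_eq ?_) h4
    rw [Finset.sum_congr rfl (g := fun _ => ((x : ℝ) - s) ^ 2) fun i hi => by
      rw [hx i (Finset.mem_of_mem_erase hi) (Finset.ne_of_mem_erase hi),
        hw1 i (Finset.mem_of_mem_erase hi), mul_one],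
      Finset.sum_const, nsmul_eq_mul]
  rcases Nat.eq_zero_or_pos x with hx0 | hx0
  · right
    subst hx0
    have h16 : 16 * (s * R) ^ 2 ≤ V := by
      have h1 : ((A.card : ℝ) - 1) * s ^ 2 ≤ V := by
        have : (((0 : ℕ) : ℝ) - s) ^ 2 = s ^ 2 := by push_cast; ring
        rw [this] at hAV
        exact hAV
      have h2 : 16 * R ^ 2 * s ^ 2 ≤ ((A.card : ℝ) - 1) * s ^ 2 :=
        mul_le_mul_of_nonneg_right ha (sq_nonneg _)
      nlinarith
    have hsR0 : 0 ≤ s * R := by positivity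
    -- all positive multiplicities outside `B` are one
    have key : ∀ j, j ∉ B → 0 < μ j → μ j = 1 ∧ V < 1 ∧ s * R < 1 / 4 := by
      intro j hjB hj
      have hjR : (1 : ℝ) ≤ μ j := by exact_mod_cast hj
      have h1 : ((μ j : ℝ) - s * w j) ^ 2 ≤ V := by
        rw [← hvar]
        exact Finset.single_le_sum (f := fun l => ((μ l : ℝ) - s * w l) ^ 2)
          (fun _ _ => sq_nonneg _) (Finset.mem_univ j)
      have h2 := hVx j hj
      have h3 : s * w j ≤ s * R := mul_le_mul_of_nonneg_left (hwR j hjB) hs0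
      have ht : Real.sqrt V ^ 2 = V := Real.sq_sqrt hV0
      have ht0 : 0 ≤ Real.sqrt V := Real.sqrt_nonneg _
      have h4 : 4 * (s * R) ≤ Real.sqrt V := by
        apply Real.le_sqrt_of_sq_le
        nlinarith
      have h5 : (μ j : ℝ) - s * w j ≤ Real.sqrt V := Real.le_sqrt_of_sq_le h1
      have h6 : (μ j : ℝ) ≤ 5 / 4 * Real.sqrt V := by linarith
      have h7 : Real.sqrt V < 5 / 4 := by
        by_contra hcon
        push Not at hcon
        nlinarith
      have h8 : (μ j : ℝ) < 2 := by linarith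
      have h9 : μ j = 1 := by
        have : μ j < 2 := by exact_mod_cast h8
        omega
      have h10 : V < 1 := by
        rw [h9] at h2
        simpa using h2
      refine ⟨h9, h10, ?_⟩
      have h11 : Real.sqrt V < 1 := by
        rw [Real.sqrt_lt' one_pos]
        simpa using h10
      linarith
    set T := univ.filter fun l => l ∉ B ∧ 0 < μ l with hT
    rcases T.eq_empty_or_nonempty with hTe | ⟨m, hm⟩
    · obtain ⟨j, hj⟩ : (A.erase i0).Nonempty := Finset.card_pos.1 (by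
        rw [Finset.card_erase_of_mem hi0]; omega)
      refine ⟨j, ?_, fun i hi _ => ?_⟩
      · rw [hx j (Finset.mem_of_mem_erase hj) (Finset.ne_of_mem_erase hj)]
        exact Nat.zero_le 1
      · by_contra hcon
        have : i ∈ T := by
          rw [hT, Finset.mem_filter]
          exact ⟨Finset.mem_univ _, hi, by omega⟩
        rw [hTe] at this
        exact Finset.notMem_empty _ this
    obtain ⟨hmB, hm0⟩ := (Finset.mem_filter.1 hm).2
    obtain ⟨hm1, hV1, hsR⟩ := key m hmB hm0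
    have hc : (T.card : ℝ) * (9 / 16) ≤ V := by
      rw [← hvar]
      have h4 : ∑ i ∈ T, ((μ i : ℝ) - s * w i) ^ 2 ≤ ∑ i, ((μ i : ℝ) - s * w i) ^ 2 :=
        Finset.sum_le_sum_of_subset_of_nonneg (Finset.subset_univ _) fun _ _ _ => sq_nonneg _
      refine le_trans ?_ h4
      rw [← nsmul_eq_mul]
      refine Finset.card_nsmul_le_sum _ _ _ fun i hi => ?_
      obtain ⟨hiB, hi0'⟩ := (Finset.mem_filter.1 hi).2
      rw [(key i hiB hi0').1]
      have h3 : s * w i ≤ s * R := mul_le_mul_of_nonneg_left (hwR i hiB) hs0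
      have h5 : 3 / 4 ≤ ((1 : ℕ) : ℝ) - s * w i := by push_cast; linarith
      nlinarith
    have hT1 : T.card ≤ 1 := by
      by_contra hcon
      push Not at hcon
      have : (2 : ℝ) ≤ T.card := by exact_mod_cast hcon
      linarith
    refine ⟨m, hm1.le, fun i hi him => ?_⟩
    by_contra hcon
    have hiT : i ∈ T := by
      rw [hT, Finset.mem_filter]
      exact ⟨Finset.mem_univ _, hi, by omega⟩
    exact him (Finset.card_le_one.1 hT1 i hiT m hm)
  · -- `x > 0`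
    left
    obtain ⟨j, hj, hji⟩ : ∃ j ∈ A, j ≠ i0 := by
      obtain ⟨j, hj⟩ : (A.erase i0).Nonempty := Finset.card_pos.1 (by
        rw [Finset.card_erase_of_mem hi0]; omega)
      exact ⟨j, Finset.mem_of_mem_erase hj, Finset.ne_of_mem_erase hj⟩
    have hxj := hx j hj hji
    have hxR : (1 : ℝ) ≤ x := by exact_mod_cast hx0
    have h1 : M ≤ (D : ℝ) ^ 2 + x := by
      have := xu' j (by rw [hxj]; exact hx0)
      rw [hxj] at this
      exact this
    have hVlt : V < x := by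
      have := hVx j (by rw [hxj]; exact hx0)
      rw [hxj] at this
      exact this
    have h2 : (D : ℝ) ^ 2 < z * x := by
      have h3 : (z + 1) * r * (D : ℝ) ^ 2 < z * r * ((D : ℝ) ^ 2 + x) := by
        refine viol.trans_le ?_
        calc z * S ^ 2 ≤ z * (r * M) := mul_le_mul_of_nonneg_left hCS hz.le
          _ = z * r * M := by ring
          _ ≤ z * r * ((D : ℝ) ^ 2 + x) := mul_le_mul_of_nonneg_left h1 (by positivity)
      have h4 : r * (D : ℝ) ^ 2 < r * (z * x) := by nlinarith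
      exact lt_of_mul_lt_mul_left h4 hrR.le
    have h3 : ((A.card : ℝ) - 1) * x ^ 2 ≤ M := by
      rw [← hcard, hM]
      have h4 : ∑ i ∈ A.erase i0, (μ i : ℝ) ^ 2 ≤ ∑ i, (μ i : ℝ) ^ 2 :=
        Finset.sum_le_sum_of_subset_of_nonneg (Finset.subset_univ _) fun _ _ _ => sq_nonneg _
      refine le_trans (le_of_eq ?_) h4
      rw [Finset.sum_congr rfl (g := fun _ => (x : ℝ) ^ 2) fun i hi => by
        rw [hx i (Finset.mem_of_mem_erase hi) (Finset.ne_of_mem_erase hi)],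
        Finset.sum_const, nsmul_eq_mul]
    have ha16 : (16 : ℝ) ≤ (A.card : ℝ) - 1 := by linarith
    have hxx : (x : ℝ) ≤ (x : ℝ) ^ 2 := by nlinarith
    -- 15 x^2 <= D^2
    have h15 : 15 * (x : ℝ) ^ 2 ≤ (D : ℝ) ^ 2 := by
      have : 16 * (x : ℝ) ^ 2 ≤ ((A.card : ℝ) - 1) * x ^ 2 :=
        mul_le_mul_of_nonneg_right ha16 (sq_nonneg _)
      linarith
    -- s >= 3x/4
    have hs34 : 3 / 4 * (x : ℝ) ≤ s := by
      by_contra hcon
      push Not at hcon
      have h5 : 1 / 4 * (x : ℝ) ≤ x - s := by linarith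
      have h6 : (1 / 4 * (x : ℝ)) ^ 2 ≤ ((x : ℝ) - s) ^ 2 :=
        pow_le_pow_left₀ (by positivity) h5 2
      have h7 : 16 * ((x : ℝ) - s) ^ 2 ≤ ((A.card : ℝ) - 1) * ((x : ℝ) - s) ^ 2 :=
        mul_le_mul_of_nonneg_right ha16 (sq_nonneg _)
      nlinarith
    have hsr : r * s ^ 2 ≤ (D : ℝ) ^ 2 + x := by
      have e1 : r * s ^ 2 = S ^ 2 / r := by
        rw [hs]; field_simp
      rw [e1, div_le_iff₀ hrR]
      nlinarith [mul_le_mul_of_nonneg_left h1 hrR.le]
    have h9 : (3 / 4 * (x : ℝ)) ^ 2 ≤ s ^ 2 := pow_le_pow_left₀ (by positivity) hs34 2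
    have h10 : r * (3 / 4 * (x : ℝ)) ^ 2 ≤ r * s ^ 2 := mul_le_mul_of_nonneg_left h9 hrR.le
    refine ⟨i0, hi0, x, hx0, hx, ?_, h2⟩
    nlinarith
end Pool.Agent.KB
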