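import Pool.Agent.KB.N1
import Pool.Agent.helper25.CF.Step

set_option autoImplicit false

/-!
# Module N2 (project KB): the base and the collision step for `∑ w i mult i ≤ κ deg`

`NefR κ w`: at very general points `∑ w i mult_i F ≤ κ deg F` for all plane curves.

`nefR_of_irred`: the inequality is additive in `F` (factorisation as in `all_of_irredR`,
CF/Step.lean, easier: no squares).
`baseB`: irreducible `F`, `D = deg`, `M = ∑ mult²`: `S² ≤ r M` and `M ≤ D² + μ j ≤ 2 D²` (`xuN bez`; for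
the smallest positive `μ j`: `μ j ≤ M ≤ D² + μ j` gives nothing, use instead `μ j² ≤ M ≤ D² + μ j`, so
`μ j ≤ D² ` or `μ j ≤ 1 ≤ D²`), so `S² ≤ 2 r D² ≤ κ² D²`. If all `μ = 0` then `S = 0`.
`stepB`: copy of KD/V3 `stepK` (or CF/Step `stepR`). Let `F` be irreducible with `κ D < S`. Put
`z = 5 z'`; by `hκ` this violates: `(z+1) r D² < z S²`. `violB` with `A = clA (K + 16) L'`, `B` = the
indices of `bg`. Second alternative: all multiplicities outside `bg` and one `j` vanish and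
`mult j ≤ 1`: `S ≤ ∑ bg mult + R · mult j` (if `j` is not one of the `bg`) is at most `κ0 D` by `hB`
applied to the points of `bg` and `p j` (very general: rename the polynomials of the countable set of
`hB` by the injections `Fin (b + 1) → Fin (K + 16 + (L + b))`, `0 ↦ j`, add all of them to the
countable set; if `j` is one of `bg` take any other index for `0`); contradiction to `κ0 ≤ κ`.
First alternative: as in `stepK`: collision of the 16 points gives a curve with
`S + 4 ≤ κ' D`. If `κ' = κ` contradiction. Otherwise `κ' ^ 2 ≤ (1 + 1/z') r`: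
`z' (S + 4)² ≤ (z' + 1) r D²`, then as in `stepK`.
-/

namespace Pool.Agent.KB

open MvPolynomial Pool.Agent.helper5.NBS Pool.Agent.helper89.Segre Pool.Agent.helper22.SC
  Pool.Agent.helper89.Exp Pool.Agent.helper25.CF

/-- at very general points `∑ w i mult_i F ≤ κ deg F` for all plane curves `F` -/
def NefR (κ : ℝ) {h : ℕ} (w : Fin h → ℝ) : Prop :=
  ∃ T : Set (PtRing h), T.Countable ∧ (∀ Q ∈ T, Q ≠ 0) ∧ ∀ p : Fin h → Fin 2 → ℂ,
    (∀ Q ∈ T, evP p Q ≠ 0) → ∀ F : R2, F ≠ 0 → ∑ i, w i * mult (p i) F ≤ κ * wdeg 1 F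

lemma xuOne {h : ℕ} {p : Fin h → Fin 2 → ℂ} (hp : VGN one_pos p) {F : R2} (hF : Irreducible F)
    (j : Fin h) (hj : 0 < mult (p j) F) :
    ∑ i, mult (p i) F ^ 2 ≤ wdeg 1 F ^ 2 + mult (p j) F := by
  have h1 := xuN bez hp hF j hj
  simp only [pow_two]
  simpa using h1

lemma swOne {h : ℕ} {p : Fin h → Fin 2 → ℂ} (hp : VGN one_pos p) {F : R2} (hF : Irreducible F)
    {i k : Fin h} (hik : mult (p i) F ≠ mult (p k) F) :
    ∑ l, (mult (p l) F : ℤ) ^ 2 ≤ (wdeg 1 F : ℤ) ^ 2 + ((mult (p i) F : ℤ) - mult (p k) F) ^ 2 := by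
  have h1 := swapIneqN bez hp hF hik
  rw [mul_sub] at h1
  push_cast at h1
  linarith

/-- irreducible curves suffice -/
lemma nefR_of_irred {h : ℕ} {w : Fin h → ℝ} {κ : ℝ} (hκ : 0 ≤ κ) (p : Fin h → Fin 2 → ℂ)
    (H : ∀ F : R2, Irreducible F → ∑ i, w i * mult (p i) F ≤ κ * wdeg 1 F) (F : R2) :
    F ≠ 0 → ∑ i, w i * mult (p i) F ≤ κ * wdeg 1 F := by
  induction F using WfDvdMonoid.induction_on_irreducible with
  | zero => intro h0; exact absurd rfl h0
  | unit u hu =>
    intro _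
    have h0 : ∑ i, w i * (mult (p i) u : ℝ) = 0 :=
      Finset.sum_eq_zero (fun i _ => by rw [mult_unit (p i) hu]; simp)
    rw [h0]
    exact mul_nonneg hκ (Nat.cast_nonneg _)
  | mul a i ha hi ih =>
    intro _
    have h3 : ∑ k, w k * (mult (p k) (i * a) : ℝ) =
        ∑ k, w k * mult (p k) i + ∑ k, w k * mult (p k) a := by
      rw [← Finset.sum_add_distrib]
      apply Finset.sum_congr rfl
      intro k _
      rw [mult_mul hi.ne_zero ha]
      push_cast
      ring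
    rw [h3, wdeg_mul 1 hi.ne_zero ha]
    push_cast
    rw [mul_add]
    exact add_le_add (H i hi) (ih ha)

theorem baseB {h : ℕ} (w : Fin h → ℝ) (hw0 : ∀ i, 0 ≤ w i) {r κ : ℝ} (hr : ∑ i, w i ^ 2 = r)
    (hκ0 : 0 ≤ κ) (hκ : 2 * r ≤ κ ^ 2) : NefR κ w := by
  refine ⟨TN one_pos h, TN_countable one_pos _, TN_ne one_pos _, fun p hp => ?_⟩
  have hV := VGN_of one_pos hp
  apply nefR_of_irred hκ0
  intro F hF
  have hD1 : 1 ≤ wdeg 1 F := Pool.Agent.helper7.SC.wdeg_pos one_pos hF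
  have hr0 : 0 ≤ r := by
    rw [← hr]
    exact Finset.sum_nonneg fun i _ => sq_nonneg _
  have hM : ∑ i, mult (p i) F ^ 2 ≤ 2 * wdeg 1 F ^ 2 := by
    by_cases hall : ∀ i, mult (p i) F = 0
    · rw [Finset.sum_eq_zero (fun i _ => by rw [hall i]; rfl)]
      exact Nat.zero_le _
    · push Not at hall
      obtain ⟨j, hj⟩ := hall
      have h1 := xuOne hV hF j (Nat.pos_of_ne_zero hj)
      have h2 : mult (p j) F ^ 2 ≤ ∑ i, mult (p i) F ^ 2 :=
        Finset.single_le_sum (f := fun i => mult (p i) F ^ 2) (fun _ _ => Nat.zero_le _)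
          (Finset.mem_univ j)
      have h3 : 1 ≤ wdeg 1 F ^ 2 := Nat.one_le_pow _ _ hD1
      have h4 : mult (p j) F ≤ wdeg 1 F ^ 2 := by
        rcases Nat.lt_or_ge (mult (p j) F) 2 with h | h
        · omega
        · nlinarith
      omega
  have hS : (∑ i, w i * (mult (p i) F : ℝ)) ^ 2 ≤ (κ * wdeg 1 F) ^ 2 := by
    have h1 : (∑ i, w i * (mult (p i) F : ℝ)) ^ 2 ≤ r * ∑ i, (mult (p i) F : ℝ) ^ 2 := by
      rw [← hr]
      exact Finset.sum_mul_sq_le_sq_mul_sq _ _ _
    have h2 : ∑ i, (mult (p i) F : ℝ) ^ 2 ≤ 2 * (wdeg 1 F : ℝ) ^ 2 := by exact_mod_cast hM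
    calc (∑ i, w i * (mult (p i) F : ℝ)) ^ 2 ≤ r * ∑ i, (mult (p i) F : ℝ) ^ 2 := h1
      _ ≤ r * (2 * (wdeg 1 F : ℝ) ^ 2) := mul_le_mul_of_nonneg_left h2 hr0
      _ = (2 * r) * (wdeg 1 F : ℝ) ^ 2 := by ring
      _ ≤ κ ^ 2 * (wdeg 1 F : ℝ) ^ 2 := mul_le_mul_of_nonneg_right hκ (by positivity)
      _ = _ := by ring
  exact le_of_sq_le_sq hS (mul_nonneg hκ0 (Nat.cast_nonneg _))

/-- the numerical end of the step -/
theorem num_stepK {r z' S D x : ℝ} (hr0 : 0 < r) (hz' : 0 < z') (hS : 0 ≤ S) (hD : 0 < D)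
    (hx : 0 < x) (viol : (5 * z' + 1) * r * D ^ 2 < 5 * z' * S ^ 2)
    (coll : z' * (S + 4) ^ 2 ≤ (z' + 1) * r * D ^ 2)
    (b1 : r * x ^ 2 ≤ 2 * D ^ 2) (b2 : D ^ 2 < 5 * z' * x) : False := by
  -- `a ^ 2 = r D ^ 2`
  set a : ℝ := √r * D with ha
  have ha0 : 0 ≤ a := by positivity
  have ha2 : a ^ 2 = r * D ^ 2 := by
    rw [ha, mul_pow, Real.sq_sqrt hr0.le]
  have hz : 0 < 5 * z' := by linarith
  have h1 : √(1 + 1 / (5 * z')) * a < S := by
    apply lt_of_pow_lt_pow_left₀ 2 hS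
    rw [mul_pow, Real.sq_sqrt (by positivity)]
    have : (5 * z' + 1) * a ^ 2 < 5 * z' * S ^ 2 := by rw [ha2]; linarith
    have h2 : (1 + 1 / (5 * z')) * a ^ 2 = (5 * z' + 1) * a ^ 2 / (5 * z') := by
      field_simp
    rw [h2, div_lt_iff₀ hz]
    linarith
  have h2 : S + 4 ≤ √(1 + 1 / z') * a := by
    apply le_of_sq_le_sq _ (by positivity)
    rw [mul_pow, Real.sq_sqrt (by positivity)]
    have : z' * (S + 4) ^ 2 ≤ (z' + 1) * a ^ 2 := by rw [ha2]; linarith
    have h2 : (1 + 1 / z') * a ^ 2 = (z' + 1) * a ^ 2 / z' := by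
      field_simp
    rw [h2, le_div_iff₀ hz']
    linarith
  have h3 : √(1 + 1 / z') - √(1 + 1 / (5 * z')) ≤ (1 / z' - 1 / (5 * z')) / 2 := by
    have e1 : √(1 + 1 / z') ^ 2 = 1 + 1 / z' := Real.sq_sqrt (by positivity)
    have e2 : √(1 + 1 / (5 * z')) ^ 2 = 1 + 1 / (5 * z') := Real.sq_sqrt (by positivity)
    have e3 : 1 ≤ √(1 + 1 / z') := Real.one_le_sqrt.mpr (by
      have : 0 < 1 / z' := by positivity
      linarith)
    have e4 : 1 ≤ √(1 + 1 / (5 * z')) := Real.one_le_sqrt.mpr (by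
      have : 0 < 1 / (5 * z') := by positivity
      linarith)
    have e5 : 1 / (5 * z') < 1 / z' := one_div_lt_one_div_of_lt hz' (by linarith)
    have e6 : √(1 + 1 / (5 * z')) ≤ √(1 + 1 / z') := Real.sqrt_le_sqrt (by linarith)
    nlinarith
  have h4 : 4 < (1 / z' - 1 / (5 * z')) / 2 * a := by
    have := mul_le_mul_of_nonneg_right h3 ha0
    linarith
  have h5 : 10 * z' < a := by
    have : (1 / z' - 1 / (5 * z')) / 2 * a = 2 * a / (5 * z') := by
      field_simp
      ring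
    rw [this, lt_div_iff₀ hz] at h4
    linarith
  have h6 : (10 * z') ^ 2 < r * D ^ 2 := by
    rw [← ha2]
    exact pow_lt_pow_left₀ h5 (by positivity) (by norm_num)
  have hD2 : 0 < D ^ 2 := by positivity
  -- `r D^4 < z^2 r x^2 ≤ 2 z^2 D^2`
  have h7 : (D ^ 2) ^ 2 < (5 * z' * x) ^ 2 := pow_lt_pow_left₀ b2 hD2.le (by norm_num)
  have h8 : r * (D ^ 2) ^ 2 < (5 * z') ^ 2 * (2 * D ^ 2) := by
    calc r * (D ^ 2) ^ 2 < r * (5 * z' * x) ^ 2 := mul_lt_mul_of_pos_left h7 hr0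
      _ = (5 * z') ^ 2 * (r * x ^ 2) := by ring
      _ ≤ (5 * z') ^ 2 * (2 * D ^ 2) := mul_le_mul_of_nonneg_left b1 (by positivity)
  have h9 : r * D ^ 2 < 50 * z' ^ 2 := by
    have h10 : D ^ 2 * (r * D ^ 2) < D ^ 2 * (50 * z' ^ 2) := by
      calc D ^ 2 * (r * D ^ 2) = r * (D ^ 2) ^ 2 := by ring
        _ < (5 * z') ^ 2 * (2 * D ^ 2) := h8
        _ = D ^ 2 * (50 * z' ^ 2) := by ring
    exact lt_of_mul_lt_mul_left h10 hD2.le
  nlinarith [sq_nonneg z']

/-- the place of a big point -/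
def bix (K L b : ℕ) (i : Fin b) : Fin (K + 16 + (L + b)) := Fin.natAdd (K + 16) (Fin.natAdd L i)

lemma bix_inj (K L b : ℕ) : Function.Injective (bix K L b) := by
  intro i j hij
  have := congrArg Fin.val hij
  simp only [bix, Fin.val_natAdd] at this
  ext
  omega

/-- the embedding of the big points and one more point -/
def emb (K L b : ℕ) (j : Fin (K + 16 + (L + b))) : Fin (b + 1) → Fin (K + 16 + (L + b)) :=
  Fin.cons j (bix K L b)

lemma emb_inj {K L b : ℕ} {j : Fin (K + 16 + (L + b))} (hj : ∀ i, bix K L b i ≠ j) :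
    Function.Injective (emb K L b j) := by
  intro x y hxy
  induction x using Fin.cases with
  | zero =>
    induction y using Fin.cases with
    | zero => rfl
    | succ y =>
      simp only [emb, Fin.cons_zero, Fin.cons_succ] at hxy
      exact absurd hxy.symm (hj y)
  | succ x =>
    induction y using Fin.cases with
    | zero =>
      simp only [emb, Fin.cons_zero, Fin.cons_succ] at hxy
      exact absurd hxy (hj x)
    | succ y =>
      simp only [emb, Fin.cons_succ] at hxy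
      rw [bix_inj K L b hxy]

lemma evP_rename {n k : ℕ} (φ : Fin n → Fin k) (q : Fin k → Fin 2 → ℂ) (Q : PtRing n) :
    evP q (rename (fun x : Fin n × Fin 2 => (φ x.1, x.2)) Q) = evP (fun i => q (φ i)) Q := by
  rw [evP, evP, eval_rename]
  rfl

lemma rename_ne {n k : ℕ} {φ : Fin n → Fin k} (hφ : Function.Injective φ) {Q : PtRing n}
    (hQ : Q ≠ 0) : rename (fun x : Fin n × Fin 2 => (φ x.1, x.2)) Q ≠ 0 := by
  have hinj : Function.Injective (fun x : Fin n × Fin 2 => (φ x.1, x.2)) := by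
    rintro ⟨x, y⟩ ⟨x', y'⟩ hxy
    simp only [Prod.mk.injEq] at hxy
    rw [hφ hxy.1, hxy.2]
  intro h0
  exact hQ (rename_injective _ hinj (by rw [h0, map_zero]))

theorem stepB {K L b : ℕ} {r R κ κ' κ0 : ℝ} {u : Fin L → ℝ} {bg : Fin b → ℝ}
    (h0 : ∀ i, 0 ≤ u i) (h0' : ∀ i, 0 ≤ bg i) (hR : 4 ≤ R) (huR : ∀ i, u i ≤ R)
    (hr : (K : ℝ) + 16 + (∑ i, u i ^ 2 + ∑ i, bg i ^ 2) = r) (hK : 16 * R ^ 2 + 1 ≤ (K : ℝ) + 16)
    {z' : ℝ} (hz' : 0 < z') (hB : NefR κ0 (Fin.cons R bg : Fin (b + 1) → ℝ))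
    (hκ00 : 0 ≤ κ0) (hκ0 : κ0 ≤ κ) (hκ : (5 * z' + 1) * r ≤ 5 * z' * κ ^ 2)
    (hκ' : κ' = κ ∨ (0 ≤ κ' ∧ z' * κ' ^ 2 ≤ (z' + 1) * r))
    (H : NefR κ' (wv K (Fin.cons 4 (Fin.append u bg) : Fin (L + b + 1) → ℝ))) :
    NefR κ (wv (K + 16) (Fin.append u bg)) := by
  classical
  obtain ⟨v, hv⟩ : ∃ v : Fin (L + b) → ℝ, v = Fin.append u bg := ⟨_, rfl⟩
  have hv0 : ∀ i, 0 ≤ v i := by
    intro i
    rw [hv]
    induction i using Fin.addCases with
    | left i => rw [Fin.append_left]; exact h0 i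
    | right i => rw [Fin.append_right]; exact h0' i
  have hvsq : ∑ i, v i ^ 2 = ∑ i, u i ^ 2 + ∑ i, bg i ^ 2 := by
    rw [hv, Fin.sum_univ_add]
    congr 1
    · exact Finset.sum_congr rfl fun i _ => by rw [Fin.append_left]
    · exact Finset.sum_congr rfl fun i _ => by rw [Fin.append_right]
  rw [← hvsq] at hr
  rw [← hv] at H ⊢
  have hvs : 0 ≤ ∑ i, v i ^ 2 := Finset.sum_nonneg fun i _ => sq_nonneg _
  have hK1 : (256 : ℝ) < (K : ℝ) + 16 := by nlinarith
  have hK0 : 0 < K := by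
    have : (0 : ℝ) < K := by linarith
    exact_mod_cast this
  have hr' : 0 < r := by linarith
  have hκ1 : 0 ≤ κ := hκ00.trans hκ0
  obtain ⟨T', hT', hT'0, hT'p⟩ := H
  obtain ⟨T0, hT0, hT00, hT0p⟩ := hB
  let Tj : Fin (K + 16 + (L + b)) → Set (PtRing (K + 16 + (L + b))) := fun j =>
    if ∀ i, bix K L b i ≠ j then
      (rename (fun x : Fin (b + 1) × Fin 2 => (emb K L b j x.1, x.2))) '' T0 else ∅
  have hTjc : ∀ j, (Tj j).Countable := by
    intro j
    simp only [Tj]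
    split_ifs
    · exact hT0.image _
    · exact Set.countable_empty
  have hTj0 : ∀ j, ∀ Q ∈ Tj j, Q ≠ 0 := by
    intro j Q hQ
    simp only [Tj] at hQ
    split_ifs at hQ with hj
    · obtain ⟨Q', hQ', rfl⟩ := hQ
      exact rename_ne (emb_inj hj) (hT00 Q' hQ')
    · exact absurd hQ (Set.notMem_empty _)
  refine ⟨TN one_pos (K + 16 + (L + b)) ∪ ⋃ j, Tj j,
    (TN_countable one_pos _).union (Set.countable_iUnion hTjc), ?_, fun p hp => ?_⟩
  · rintro Q (hQ | hQ)
    · exact TN_ne one_pos _ Q hQ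
    · obtain ⟨j, hj⟩ := Set.mem_iUnion.mp hQ
      exact hTj0 j Q hj
  have hV := VGN_of one_pos (fun Q hQ => hp Q (Or.inl hQ))
  have hz : (0 : ℝ) < 5 * z' := by linarith
  apply nefR_of_irred hκ1
  intro F hF
  by_contra hcon
  push Not at hcon
  have hD0 : (0 : ℝ) < (wdeg 1 F : ℝ) := by
    exact_mod_cast Pool.Agent.helper7.SC.wdeg_pos one_pos hF
  have hviol : (5 * z' + 1) * r * (wdeg 1 F : ℝ) ^ 2 <
      5 * z' * (∑ i, wv (K + 16) v i * mult (p i) F) ^ 2 := by
    have h1 : (κ * wdeg 1 F) ^ 2 < (∑ i, wv (K + 16) v i * (mult (p i) F : ℝ)) ^ 2 :=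
      pow_lt_pow_left₀ hcon (by positivity) (by norm_num)
    calc (5 * z' + 1) * r * (wdeg 1 F : ℝ) ^ 2 ≤ 5 * z' * κ ^ 2 * (wdeg 1 F : ℝ) ^ 2 :=
          mul_le_mul_of_nonneg_right hκ (by positivity)
      _ = 5 * z' * (κ * wdeg 1 F) ^ 2 := by ring
      _ < _ := mul_lt_mul_of_pos_left h1 hz
  let B : Finset (Fin (K + 16 + (L + b))) := Finset.univ.image (bix K L b)
  have hwR : ∀ i, i ∉ B → wv (K + 16) v i ≤ R := by
    intro i hi
    induction i using Fin.addCases with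
    | left i => rw [wv_left]; linarith
    | right i =>
      rw [wv_right, hv]
      induction i using Fin.addCases with
      | left i => rw [Fin.append_left]; exact huR i
      | right i => exact absurd (Finset.mem_image_of_mem _ (Finset.mem_univ i)) hi
  rcases violB (clA (K + 16) (L + b)) B (wv (K + 16) v) (wv_nonneg hv0)
      (fun i hi => wv_of_lt v (mem_clA.mp hi)) (by linarith : (1 : ℝ) ≤ R) hwR
      (wdeg 1 F) r (by rw [sum_wv_sq]; push_cast; exact hr)
      (by rw [card_clA]; push_cast; exact hK) (Pool.Agent.helper7.SC.wdeg_pos one_pos hF)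
      (5 * z') hz (fun i => mult (p i) F) (fun j hj => xuOne hV hF j hj)
      (fun i j hij => swOne hV hF hij) hviol with
    ⟨i0, hi0, x, hx, hconst, hb1, hb2⟩ | ⟨j0, _, hj0⟩
  swap
  · -- only the big points and one more point
    obtain ⟨j, hjB, hj⟩ : ∃ j, j ∉ B ∧ ∀ i, i ∉ B → i ≠ j → mult (p i) F = 0 := by
      by_cases hjB : j0 ∈ B
      · refine ⟨⟨0, by omega⟩, ?_, fun i hi _ => hj0 i hi (fun h => hi (by rw [h]; exact hjB))⟩
        intro hmem
        obtain ⟨i, _, hi⟩ := Finset.mem_image.mp hmem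
        have := congrArg Fin.val hi
        simp only [bix, Fin.val_natAdd] at this
        omega
      · exact ⟨j0, hjB, hj0⟩
    have hjn : ∀ i, bix K L b i ≠ j := fun i hi =>
      hjB (by rw [← hi]; exact Finset.mem_image_of_mem _ (Finset.mem_univ i))
    have hq := hT0p (fun i => p (emb K L b j i)) (fun Q hQ => by
      rw [← evP_rename]
      apply hp _ (Or.inr (Set.mem_iUnion.mpr ⟨j, ?_⟩))
      simp only [Tj]
      rw [if_pos hjn]
      exact ⟨Q, hQ, rfl⟩) F hF.ne_zero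
    rw [Fin.sum_univ_succ] at hq
    simp only [emb, Fin.cons_zero, Fin.cons_succ] at hq
    have hsplit : ∑ i, wv (K + 16) v i * (mult (p i) F : ℝ) =
        wv (K + 16) v j * mult (p j) F + ∑ i : Fin b, bg i * mult (p (bix K L b i)) F := by
      rw [← Finset.sum_add_sum_compl B, add_comm]
      congr 1
      · rw [Finset.sum_eq_single_of_mem j (Finset.mem_compl.mpr hjB)]
        intro i hi hij
        rw [hj i (Finset.mem_compl.mp hi) hij]
        simp
      · rw [Finset.sum_image (fun x _ y _ h => bix_inj K L b h)]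
        apply Finset.sum_congr rfl
        intro i _
        congr 1
        rw [bix, wv_right, hv, Fin.append_right]
    have h1 : wv (K + 16) v j * (mult (p j) F : ℝ) ≤ R * mult (p j) F :=
      mul_le_mul_of_nonneg_right (hwR j hjB) (Nat.cast_nonneg _)
    have h2 : κ0 * (wdeg 1 F : ℝ) ≤ κ * wdeg 1 F := mul_le_mul_of_nonneg_right hκ0 hD0.le
    linarith
  -- the permuted multiplicities
  let i1 : Fin (K + 16 + (L + b)) := ⟨0, by omega⟩
  let σ : Equiv.Perm (Fin (K + 16 + (L + b))) := Equiv.swap i0 i1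
  have hi1 : i1 ∈ clA (K + 16) (L + b) := mem_clA.mpr (by simp [i1])
  have hσA : ∀ i, σ i ∈ clA (K + 16) (L + b) ↔ i ∈ clA (K + 16) (L + b) := by
    intro i
    by_cases h1 : i = i0
    · subst h1
      simp only [σ, Equiv.swap_apply_left]
      exact iff_of_true hi1 hi0
    by_cases h2 : i = i1
    · rw [h2]
      simp only [σ, Equiv.swap_apply_right]
      exact iff_of_true hi0 hi1
    · simp only [σ, Equiv.swap_apply_of_ne_of_ne h1 h2]
  have hwσ : ∀ i, wv (K + 16) v (σ i) = wv (K + 16) v i := by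
    intro i
    by_cases h1 : i = i0
    · subst h1
      simp only [σ, Equiv.swap_apply_left]
      rw [wv_of_lt v (mem_clA.mp hi1), wv_of_lt v (mem_clA.mp hi0)]
    by_cases h2 : i = i1
    · rw [h2]
      simp only [σ, Equiv.swap_apply_right]
      rw [wv_of_lt v (mem_clA.mp hi1), wv_of_lt v (mem_clA.mp hi0)]
    · simp only [σ, Equiv.swap_apply_of_ne_of_ne h1 h2]
  set μ : Fin (K + 16 + (L + b)) → ℕ := fun i => mult (p i) F with hμ
  obtain ⟨G, hG, hG0⟩ := hV.perm (self_memN 1 p hF.ne_zero) hF.ne_zero σ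
  obtain ⟨V, hVv, hVv0⟩ := hV.fam hG hG0
  have hvne : V ≠ 0 := by
    rintro rfl
    apply hVv0
    rw [polyOf]
    apply Finset.sum_eq_zero
    intro k _
    simp
  have hmx : ∀ i : Fin (K + 16 + (L + b)), K ≤ i.val → i.val < K + 16 → (μ ∘ σ) i = x := by
    intro i h1 h2
    apply hconst
    · rw [hσA, mem_clA]
      exact h2
    · intro h3
      have h4 : i = i1 := by
        have := congrArg σ h3
        simp only [σ, Equiv.swap_apply_left, Equiv.swap_apply_self] at this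
        exact this
      have h5 : i.val = 0 := by rw [h4]
      omega
  -- collision
  let A : Finset (Fin (K + 16 + (L + b))) :=
    Finset.univ.filter fun i => K ≤ i.val ∧ i.val < K + 16
  have hA : A.card = 16 := by
    have : A = Finset.univ.image
        (fun a : Fin 16 => (⟨K + a.val, by omega⟩ : Fin (K + 16 + (L + b)))) := by
      ext i
      simp only [A, Finset.mem_filter, Finset.mem_univ, true_and, Finset.mem_image]
      constructor
      · rintro ⟨h1, h2⟩
        exact ⟨⟨i.val - K, by omega⟩, by ext; simp; omega⟩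
      · rintro ⟨a, rfl⟩
        have := a.isLt
        simp
    rw [this, Finset.card_image_of_injective, Finset.card_univ, Fintype.card_fin]
    intro a b hab
    simp only [Fin.mk.injEq] at hab
    ext
    omega
  obtain ⟨Q, hQ0, hQ⟩ := collide16 one_pos hVv hvne (pim K (L + b)) A hA ⟨K, by omega⟩ (by
    intro i hi
    simp only [A, Finset.mem_filter, Finset.mem_univ, true_and] at hi
    ext
    simp only [pim]
    rw [if_neg (by omega), if_pos hi.2]) x hx (by
    intro i hi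
    simp only [A, Finset.mem_filter, Finset.mem_univ, true_and] at hi
    exact (hmx i hi.1 hi.2).ge)
  obtain ⟨q0, hq0⟩ := Pool.Agent.helper7.SC.exists_avoid (T' ∪ {Q})
    (hT'.union (Set.countable_singleton Q)) (by
      rintro f (hf | rfl)
      · exact hT'0 f hf
      · exact hQ0)
  let q : Fin (K + (L + b + 1)) → Fin 2 → ℂ := fun i k => q0 (i, k)
  have hqe : ∀ f : PtRing (K + (L + b + 1)), evP q f = eval q0 f := by
    intro f
    rfl
  obtain ⟨F', hF'0, hF'd, hF'm, hF'k⟩ := hQ q (by rw [hqe]; exact hq0 Q (Or.inr rfl))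
  have hnef := hT'p q (fun f hf => by rw [hqe]; exact hq0 f (Or.inl hf)) F' hF'0
  -- the sums
  set D : ℝ := (wdeg 1 F : ℝ) with hD
  set S : ℝ := ∑ i, wv (K + 16) v i * mult (p i) F with hS
  have hS0 : 0 ≤ S := Finset.sum_nonneg fun i _ => mul_nonneg (wv_nonneg hv0 i) (Nat.cast_nonneg _)
  have hS' : S + 4 ≤ ∑ i, wv K (Fin.cons 4 v : Fin (L + b + 1) → ℝ) i * mult (q i) F' := by
    have e1 : S = ∑ i, wv (K + 16) v i * ((μ ∘ σ) i : ℝ) := by
      rw [hS, ← Equiv.sum_comp σ]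
      apply Finset.sum_congr rfl
      intro i _
      rw [hwσ]
      rfl
    rw [e1, sum_wv v (fun i => ((μ ∘ σ) i : ℝ)),
      sum_wv (Fin.cons 4 v : Fin (L + b + 1) → ℝ) (fun i => (mult (q i) F' : ℝ)),
      Fin.sum_univ_add,
      Fin.sum_univ_succ (fun i : Fin (L + b + 1) => (Fin.cons 4 v : Fin (L + b + 1) → ℝ) i *
        (mult (q (Fin.natAdd K i)) F' : ℝ))]
    simp only [Fin.cons_zero, Fin.cons_succ]
    have e2 : ∀ i : Fin K, ((μ ∘ σ) (Fin.castAdd (L + b) (Fin.castAdd 16 i)) : ℝ) ≤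
        (mult (q (Fin.castAdd (L + b + 1) i)) F' : ℝ) := by
      intro i
      have h1 := hF'm (Fin.castAdd (L + b) (Fin.castAdd 16 i))
      have h2 : pim K (L + b) (Fin.castAdd (L + b) (Fin.castAdd 16 i)) = Fin.castAdd (L + b + 1) i := by
        ext
        simp [pim]
      rw [h2] at h1
      exact_mod_cast h1
    have e3 : ∀ i : Fin 16, ((μ ∘ σ) (Fin.castAdd (L + b) (Fin.natAdd K i)) : ℝ) = x := by
      intro i
      rw [hmx _ (by simp) (by simp)]
    have e4 : ∀ i : Fin (L + b), ((μ ∘ σ) (Fin.natAdd (K + 16) i) : ℝ) ≤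
        (mult (q (Fin.natAdd K i.succ)) F' : ℝ) := by
      intro i
      have h1 := hF'm (Fin.natAdd (K + 16) i)
      have h2 : pim K (L + b) (Fin.natAdd (K + 16) i) = Fin.natAdd K i.succ := by
        ext
        simp only [pim, Fin.val_natAdd, Fin.val_succ]
        rw [if_neg (by omega), if_neg (by omega)]
        omega
      rw [h2] at h1
      exact_mod_cast h1
    have e5 : (4 * (x : ℝ) + 1) ≤ (mult (q (Fin.natAdd K (0 : Fin (L + b + 1)))) F' : ℝ) := by
      have h2 : (⟨K, by omega⟩ : Fin (K + (L + b + 1))) = Fin.natAdd K (0 : Fin (L + b + 1)) := by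
        ext
        simp
      rw [h2] at hF'k
      exact_mod_cast hF'k
    have e6 := Finset.sum_le_sum (fun i (_ : i ∈ (Finset.univ : Finset (Fin K))) => e2 i)
    have e7 := Finset.sum_le_sum (fun i (_ : i ∈ (Finset.univ : Finset (Fin (L + b)))) =>
      mul_le_mul_of_nonneg_left (e4 i) (hv0 i))
    have e8 : ∑ i : Fin 16, ((μ ∘ σ) (Fin.castAdd (L + b) (Fin.natAdd K i)) : ℝ) = 16 * x := by
      rw [Finset.sum_congr rfl fun i _ => e3 i]
      simp
    rw [e8]
    linarith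
  have hκ'0 : 0 ≤ κ' := by
    rcases hκ' with h | h
    · rw [h]; exact hκ1
    · exact h.1
  have hS4 : S + 4 ≤ κ' * D := by
    refine hS'.trans (hnef.trans ?_)
    apply mul_le_mul_of_nonneg_left _ hκ'0
    rw [hD]
    exact_mod_cast hF'd
  rcases hκ' with h | ⟨_, h⟩
  · rw [h] at hS4
    linarith
  · have hcoll : z' * (S + 4) ^ 2 ≤ (z' + 1) * r * D ^ 2 := by
      have e1 : (S + 4) ^ 2 ≤ (κ' * D) ^ 2 := pow_le_pow_left₀ (by linarith) hS4 2
      calc z' * (S + 4) ^ 2 ≤ z' * (κ' * D) ^ 2 := mul_le_mul_of_nonneg_left e1 hz'.le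
        _ = (z' * κ' ^ 2) * D ^ 2 := by ring
        _ ≤ ((z' + 1) * r) * D ^ 2 := mul_le_mul_of_nonneg_right h (by positivity)
        _ = _ := by ring
    have hx0 : (0 : ℝ) < x := by exact_mod_cast hx
    exact num_stepK hr' hz' hS0 hD0 hx0 hviol hcoll hb1 hb2

end Pool.Agent.KB
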