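import Pool.Agent.KB.N2
import Pool.Agent.KD.V4

set_option autoImplicit false

/-!
# Module N3 (project KB): multisets of integral weights

Copy of KD/V4 for `NefR`: permutation of the points, scaling of the weights (and of `κ`), the step
for multisets. `nrm_step`: scale by `c`: `R = W / c`, `κ / c` etc.
-/

namespace Pool.Agent.KB

open MvPolynomial Pool.Agent.helper5.NBS Pool.Agent.helper89.Segre Pool.Agent.helper22.SC
  Pool.Agent.helper89.Exp Pool.Agent.helper25.CF Pool.Agent.KD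

/-- `NefR` for all enumerations of the multiset of weights `ws` -/
def NRm (κ : ℝ) (ws : Multiset ℕ) : Prop :=
  ∀ (n : ℕ) (w : Fin n → ℕ), Finset.univ.val.map w = ws → NefR κ (fun i => (w i : ℝ))

lemma nefR_perm {h h' : ℕ} {κ : ℝ} {w : Fin h → ℝ} (e : Fin h' ≃ Fin h) (H : NefR κ w) :
    NefR κ (fun i => w (e i)) := by
  obtain ⟨T, hT, hT0, hTp⟩ := H
  have hinj : Function.Injective (fun x : Fin h × Fin 2 => (e.symm x.1, x.2)) := by
    rintro ⟨x, y⟩ ⟨x', y'⟩ hxy
    simp only [Prod.mk.injEq] at hxy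
    rw [e.symm.injective hxy.1, hxy.2]
  have hev : ∀ (q : Fin h' → Fin 2 → ℂ) (Q : PtRing h),
      evP q (rename (fun x : Fin h × Fin 2 => (e.symm x.1, x.2)) Q) =
        evP (fun i => q (e.symm i)) Q := by
    intro q Q
    rw [evP, evP, eval_rename]
    rfl
  refine ⟨(rename (fun x : Fin h × Fin 2 => (e.symm x.1, x.2))) '' T, hT.image _, ?_, ?_⟩
  · rintro _ ⟨Q, hQ, rfl⟩ h0
    exact hT0 Q hQ (rename_injective _ hinj (by rw [h0, map_zero]))
  · intro q hq F hF
    have h1 := hTp (fun i => q (e.symm i)) (fun Q hQ => by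
      rw [← hev]
      exact hq _ ⟨Q, hQ, rfl⟩) F hF
    have h2 : ∑ i, w (e i) * (mult (q i) F : ℝ) = ∑ i, w i * (mult (q (e.symm i)) F : ℝ) := by
      rw [← Equiv.sum_comp e (fun i => w i * (mult (q (e.symm i)) F : ℝ))]
      apply Finset.sum_congr rfl
      intro i _
      rw [Equiv.symm_apply_apply]
    rw [h2]
    exact h1

lemma nefR_scale {h : ℕ} {κ c : ℝ} {w : Fin h → ℝ} (hc : 0 < c) (H : NefR κ w) :
    NefR (c * κ) (fun i => c * w i) := by
  obtain ⟨T, hT, hT0, hTp⟩ := H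
  refine ⟨T, hT, hT0, ?_⟩
  intro p hp F hF
  have h1 := hTp p hp F hF
  have h2 : ∑ i, c * w i * (mult (p i) F : ℝ) = c * ∑ i, w i * (mult (p i) F : ℝ) := by
    rw [Finset.mul_sum]
    apply Finset.sum_congr rfl
    intro i _
    ring
  rw [h2]
  have h3 := mul_le_mul_of_nonneg_left h1 hc.le
  linarith

lemma NRm.of {n : ℕ} {w : Fin n → ℕ} {κ : ℝ} (H : NefR κ (fun i => (w i : ℝ))) :
    NRm κ (Finset.univ.val.map w) := by
  intro n' w' h
  obtain ⟨e, he⟩ := exists_equiv_of_map_eq w w' h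
  have h1 := nefR_perm e H
  have h2 : (fun i => ((w' i : ℕ) : ℝ)) = fun i => ((w (e i) : ℕ) : ℝ) := by
    funext i
    rw [he]
  rw [h2]
  exact h1

theorem nrm_base {ws : Multiset ℕ} {κ : ℝ} (hκ0 : 0 ≤ κ) (hκ : 2 * (sq ws : ℝ) ≤ κ ^ 2) :
    NRm κ ws := by
  intro n w hw
  refine baseB (r := (sq ws : ℝ)) _ (fun i => Nat.cast_nonneg _) ?_ hκ0 hκ
  rw [sum_sq_eq, hw]

theorem nrm_step {Bg ws : Multiset ℕ} {W c K : ℕ} {z κ κ' κ0 : ℝ} (hc : 0 < c) (hW : 4 * c ≤ W)
    (hws : ∀ x ∈ ws, x ≤ W) (hK : 16 * W ^ 2 + c ^ 2 ≤ (K + 16) * c ^ 2) (hz : 0 < z)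
    (hB : NRm κ0 (W ::ₘ Bg)) (hκ00 : 0 ≤ κ0) (hκ0 : κ0 ≤ κ)
    (hκ : (5 * z + 1) * (sq (Bg + (Multiset.replicate (K + 16) c + ws)) : ℝ) ≤ 5 * z * κ ^ 2)
    (hκ' : κ' = κ ∨ (0 ≤ κ' ∧
      z * κ' ^ 2 ≤ (z + 1) * (sq (Bg + (Multiset.replicate (K + 16) c + ws)) : ℝ)))
    (H : NRm κ' (Bg + ((4 * c) ::ₘ (Multiset.replicate K c + ws)))) :
    NRm κ (Bg + (Multiset.replicate (K + 16) c + ws)) := by
  obtain ⟨L, u0, hu0⟩ : ∃ (L : ℕ) (u0 : Fin L → ℕ), Finset.univ.val.map u0 = ws :=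
    ⟨_, Pool.Agent.helper25.ST.exists_fin ws⟩
  obtain ⟨b, g0, hg0⟩ : ∃ (b : ℕ) (g0 : Fin b → ℕ), Finset.univ.val.map g0 = Bg :=
    ⟨_, Pool.Agent.helper25.ST.exists_fin Bg⟩
  have hc' : (0 : ℝ) < c := by exact_mod_cast hc
  have hcne : (c : ℝ) ≠ 0 := hc'.ne'
  set u : Fin L → ℝ := fun i => (u0 i : ℝ) / c with hu
  set bg : Fin b → ℝ := fun i => (g0 i : ℝ) / c with hbg
  have hmem : ∀ i, u0 i ≤ W := fun i => hws _ (by
    rw [← hu0]
    exact Multiset.mem_map_of_mem u0 (Finset.mem_univ_val i))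
  set T : ℝ := (sq (Bg + (Multiset.replicate (K + 16) c + ws)) : ℝ) with hT
  have hsum : (K : ℝ) + 16 + (∑ i, u i ^ 2 + ∑ i, bg i ^ 2) = (1 / (c : ℝ)) ^ 2 * T := by
    have h1 : ∑ i, u i ^ 2 = (1 / (c : ℝ)) ^ 2 * (sq ws : ℝ) := by
      rw [← hu0, ← sum_sq_eq, Finset.mul_sum]
      apply Finset.sum_congr rfl
      intro i _
      rw [hu]
      ring
    have h2 : ∑ i, bg i ^ 2 = (1 / (c : ℝ)) ^ 2 * (sq Bg : ℝ) := by
      rw [← hg0, ← sum_sq_eq, Finset.mul_sum]
      apply Finset.sum_congr rfl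
      intro i _
      rw [hbg]
      ring
    rw [h1, h2, hT, sq_add, sq_add, sq_replicate]
    push_cast
    field_simp
    ring
  -- the collided system
  have hH : NefR (1 / (c : ℝ) * κ')
      (wv K (Fin.cons 4 (Fin.append u bg) : Fin (L + b + 1) → ℝ)) := by
    have h1 := H (K + (L + b + 1)) (Fin.append (fun _ => c)
      (Fin.cons (4 * c) (Fin.append u0 g0) : Fin (L + b + 1) → ℕ)) (by
      rw [KD.map_append, KD.map_const', KD.map_cons, KD.map_append, hu0, hg0]
      rw [← Multiset.singleton_add, ← Multiset.singleton_add]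
      abel)
    have h2 := nefR_scale (c := 1 / (c : ℝ)) (by positivity) h1
    have h4 : (fun i => 1 / (c : ℝ) * ((Fin.append (fun _ => c)
        (Fin.cons (4 * c) (Fin.append u0 g0) : Fin (L + b + 1) → ℕ) i : ℕ) : ℝ)) =
        wv K (Fin.cons 4 (Fin.append u bg) : Fin (L + b + 1) → ℝ) := by
      funext i
      refine Fin.addCases (fun i => ?_) (fun i => ?_) i
      · rw [Fin.append_left, wv_left]
        field_simp
      · rw [Fin.append_right, wv_right]
        refine Fin.cases ?_ (fun j => ?_) i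
        · rw [Fin.cons_zero, Fin.cons_zero]
          push_cast
          field_simp
        · rw [Fin.cons_succ, Fin.cons_succ]
          refine Fin.addCases (fun j => ?_) (fun j => ?_) j
          · rw [Fin.append_left, Fin.append_left, hu]
            ring
          · rw [Fin.append_right, Fin.append_right, hbg]
            ring
    rw [h4] at h2
    exact h2
  -- the big points
  have hB' : NefR (1 / (c : ℝ) * κ0) (Fin.cons ((W : ℝ) / c) bg : Fin (b + 1) → ℝ) := by
    have h1 := hB (b + 1) (Fin.cons W g0 : Fin (b + 1) → ℕ) (by rw [KD.map_cons, hg0])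
    have h2 := nefR_scale (c := 1 / (c : ℝ)) (by positivity) h1
    have h4 : (fun i => 1 / (c : ℝ) * ((Fin.cons W g0 : Fin (b + 1) → ℕ) i : ℝ)) =
        (Fin.cons ((W : ℝ) / c) bg : Fin (b + 1) → ℝ) := by
      funext i
      refine Fin.cases ?_ (fun j => ?_) i
      · rw [Fin.cons_zero, Fin.cons_zero]
        ring
      · rw [Fin.cons_succ, Fin.cons_succ, hbg]
        ring
    rw [h4] at h2
    exact h2
  have hcp : 0 < 1 / (c : ℝ) := by positivity
  have hstep := stepB (R := (W : ℝ) / c) (u := u) (bg := bg) (κ := 1 / (c : ℝ) * κ)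
    (κ0 := 1 / (c : ℝ) * κ0) (z' := z)
    (fun i => by rw [hu]; positivity) (fun i => by rw [hbg]; positivity) (by
      rw [le_div_iff₀ hc']
      exact_mod_cast hW) (fun i => by
      rw [hu]
      exact div_le_div_of_nonneg_right (by exact_mod_cast hmem i) hc'.le) hsum (by
      rw [div_pow, ← mul_div_assoc, div_add_one (pow_ne_zero 2 hcne), div_le_iff₀ (by positivity)]
      exact_mod_cast hK) hz hB' (by positivity) (mul_le_mul_of_nonneg_left hκ0 hcp.le) (by
      have h1 := mul_le_mul_of_nonneg_left hκ (sq_nonneg (1 / (c : ℝ)))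
      calc (5 * z + 1) * ((1 / (c : ℝ)) ^ 2 * T) = (1 / (c : ℝ)) ^ 2 * ((5 * z + 1) * T) := by ring
        _ ≤ (1 / (c : ℝ)) ^ 2 * (5 * z * κ ^ 2) := h1
        _ = _ := by ring) (by
      rcases hκ' with h | ⟨h1, h2⟩
      · left
        rw [h]
      · right
        refine ⟨by positivity, ?_⟩
        have h3 := mul_le_mul_of_nonneg_left h2 (sq_nonneg (1 / (c : ℝ)))
        calc z * (1 / (c : ℝ) * κ') ^ 2 = (1 / (c : ℝ)) ^ 2 * (z * κ' ^ 2) := by ring
          _ ≤ (1 / (c : ℝ)) ^ 2 * ((z + 1) * T) := h3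
          _ = _ := by ring) hH
  have h5 := nefR_scale (c := (c : ℝ)) hc' hstep
  have h6 : (c : ℝ) * (1 / (c : ℝ) * κ) = κ := by
    field_simp
  rw [h6] at h5
  have h7 : (fun i => (c : ℝ) * wv (K + 16) (Fin.append u bg) i) =
      fun i => ((Fin.append (fun _ : Fin (K + 16) => c) (Fin.append u0 g0) i : ℕ) : ℝ) := by
    funext i
    refine Fin.addCases (fun i => ?_) (fun i => ?_) i
    · rw [Fin.append_left, wv_left, mul_one]
    · rw [Fin.append_right, wv_right]
      refine Fin.addCases (fun j => ?_) (fun j => ?_) i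
      · rw [Fin.append_left, Fin.append_left, hu]
        field_simp
      · rw [Fin.append_right, Fin.append_right, hbg]
        field_simp
  rw [h7] at h5
  have h8 : Finset.univ.val.map (Fin.append (fun _ : Fin (K + 16) => c) (Fin.append u0 g0)) =
      Bg + (Multiset.replicate (K + 16) c + ws) := by
    rw [KD.map_append, KD.map_const', KD.map_append, hu0, hg0]
    abel
  rw [← h8]
  exact NRm.of h5

end Pool.Agent.KB
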