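import Pool.Agent.KD.V5
import Pool.Agent.helper25.ST.Nef0

set_option autoImplicit false

/-!
# Module N4 (project KB): nine points

`nine_sum`: `∑ mult_i F ≤ 3 deg F` for irreducible curves at nine very general points. Numerical core
`nine_num`: let `s = ∑ μ ≥ 3 D + 1`, `Q = ∑ μ²`. If all `μ` are equal, Xu's inequality
`Q ≤ D² + μ` gives a contradiction. Otherwise let `δ` be the smallest nonzero difference of two
multiplicities; every row of `∑_j ∑_i (μ_i - μ_j)² = 18 Q - 2 s²` is at least `δ²`, so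
`9 δ² ≤ 18 Q - 2 s²`; the swap inequality is `Q ≤ D² + δ²` and Xu's inequality gives `Q ≤ D² + D`; the
sum is `4 s² ≤ 36 D² + 18 D`, contradiction.
`nef_nine`: `μ_i ≤ D`, `∑ μ_i ≤ 3 D`, all triples of weights have sum `≤ D0`: order the weights,
`w_0 ≥ w_1 ≥ ...`, `∑ w_i μ_i ≤ w_0 μ_0 + w_1 μ_1 + w_2 (3 D - μ_0 - μ_1) ≤ D (w_0 + w_1 + w_2) ≤ D0 D`.
-/

namespace Pool.Agent.KB

open MvPolynomial Pool.Agent.helper5.NBS Pool.Agent.helper89.Segre Pool.Agent.helper22.SC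
  Pool.Agent.helper89.Exp Pool.Agent.helper25.CF Pool.Agent.KD Pool.Agent.SH9

/-- the numerical core -/
lemma nine_num {μ : Fin 9 → ℕ} {D : ℕ} (hle : ∀ i, μ i ≤ D)
    (xu : ∀ j, 0 < μ j → ∑ i, μ i ^ 2 ≤ D ^ 2 + μ j)
    (sw : ∀ i k, μ i ≠ μ k → ∑ l, (μ l : ℤ) ^ 2 ≤ (D : ℤ) ^ 2 + ((μ i : ℤ) - μ k) ^ 2) :
    ∑ i, μ i ≤ 3 * D := by
  classical
  by_contra hcon
  have hs : 3 * D + 1 ≤ ∑ i, μ i := by omega
  obtain ⟨j, hj⟩ : ∃ j, 0 < μ j := by
    by_contra hc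
    push Not at hc
    have : ∑ i, μ i = 0 := Finset.sum_eq_zero (fun i _ => by have := hc i; omega)
    omega
  by_cases hall : ∀ i, μ i = μ j
  · have h1 : ∑ i, μ i = 9 * μ j := by
      rw [Finset.sum_congr rfl (fun i _ => hall i)]; simp
    have h2 : ∑ i, μ i ^ 2 = 9 * μ j ^ 2 := by
      rw [Finset.sum_congr rfl (fun i _ => by rw [hall i])]; simp
    have h3 := xu j hj
    rw [h2] at h3
    rw [h1] at hs
    obtain ⟨m, hm⟩ : ∃ m, μ j = m + 1 := ⟨μ j - 1, by omega⟩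
    rw [hm] at h3 hs
    have h4 : D ≤ 3 * m + 2 := by omega
    have h5 : D ^ 2 ≤ (3 * m + 2) ^ 2 := Nat.pow_le_pow_left h4 2
    nlinarith
  · push Not at hall
    obtain ⟨i1, hi1⟩ := hall
    obtain ⟨P, hP⟩ : ∃ P : Finset (Fin 9 × Fin 9), P = Finset.univ.filter
      (fun x => μ x.1 ≠ μ x.2) := ⟨_, rfl⟩
    have hPne : P.Nonempty := ⟨(i1, j), by rw [hP]; simp [hi1]⟩
    obtain ⟨x, hxP, hxmin⟩ := Finset.exists_min_image P
      (fun x => ((μ x.1 : ℤ) - μ x.2) ^ 2) hPne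
    obtain ⟨a, b⟩ := x
    have hab : μ a ≠ μ b := by
      rw [hP] at hxP
      simpa using hxP
    obtain ⟨δ, hδ⟩ : ∃ δ : ℤ, δ = ((μ a : ℤ) - μ b) ^ 2 := ⟨_, rfl⟩
    have hmin : ∀ i k, μ i ≠ μ k → δ ≤ ((μ i : ℤ) - μ k) ^ 2 := by
      intro i k hik
      rw [hδ]
      exact hxmin (i, k) (by rw [hP]; simp [hik])
    obtain ⟨s, hsd⟩ : ∃ s : ℤ, s = ∑ i, (μ i : ℤ) := ⟨_, rfl⟩
    obtain ⟨Q, hQ⟩ : ∃ Q : ℤ, Q = ∑ i, (μ i : ℤ) ^ 2 := ⟨_, rfl⟩
    have hrow : ∀ k, ∑ i, ((μ i : ℤ) - μ k) ^ 2 = Q - 2 * s * μ k + 9 * (μ k : ℤ) ^ 2 := by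
      intro k
      have h1 : ∀ i, ((μ i : ℤ) - μ k) ^ 2 = (μ i : ℤ) ^ 2 - (2 * μ k) * μ i + (μ k : ℤ) ^ 2 := by
        intro i; ring
      rw [Finset.sum_congr rfl (fun i _ => h1 i), Finset.sum_add_distrib,
        Finset.sum_sub_distrib, ← Finset.mul_sum, ← hsd, ← hQ]
      simp
      ring
    have htot : ∑ k, ∑ i, ((μ i : ℤ) - μ k) ^ 2 = 18 * Q - 2 * s ^ 2 := by
      rw [Finset.sum_congr rfl (fun k _ => hrow k), Finset.sum_add_distrib,
        Finset.sum_sub_distrib, ← Finset.mul_sum, ← Finset.mul_sum, ← hsd, ← hQ]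
      simp
      ring
    have hlow : ∀ k, δ ≤ ∑ i, ((μ i : ℤ) - μ k) ^ 2 := by
      intro k
      have hsingle : ∀ i, ((μ i : ℤ) - μ k) ^ 2 ≤ ∑ i, ((μ i : ℤ) - μ k) ^ 2 := fun i =>
        Finset.single_le_sum (f := fun i => ((μ i : ℤ) - μ k) ^ 2) (fun i _ => sq_nonneg _)
          (Finset.mem_univ i)
      by_cases hak : μ a = μ k
      · have hbk : μ b ≠ μ k := fun h => hab (hak.trans h.symm)
        exact (hmin b k hbk).trans (hsingle b)
      · exact (hmin a k hak).trans (hsingle a)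
    have h9 : 9 * δ ≤ 18 * Q - 2 * s ^ 2 := by
      rw [← htot]
      have := Finset.card_nsmul_le_sum Finset.univ
        (fun k => ∑ i, ((μ i : ℤ) - μ k) ^ 2) δ (fun k _ => hlow k)
      simpa using this
    have h10 : Q ≤ (D : ℤ) ^ 2 + δ := by rw [hQ, hδ]; exact sw a b hab
    have h11 : Q ≤ (D : ℤ) ^ 2 + D := by
      have h12 := (xu j hj).trans (Nat.add_le_add_left (hle j) _)
      rw [hQ]
      exact_mod_cast h12
    have h13 : 3 * (D : ℤ) + 1 ≤ s := by rw [hsd]; exact_mod_cast hs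
    have h14 : (3 * (D : ℤ) + 1) ^ 2 ≤ s ^ 2 := pow_le_pow_left₀ (by positivity) h13 2
    have h15 : (3 * (D : ℤ) + 1) ^ 2 = 9 * (D : ℤ) ^ 2 + 6 * D + 1 := by ring
    have h16 : (0 : ℤ) ≤ D := by positivity
    linarith

/-- the linear inequality -/
lemma nine_lin {D0 D : ℕ} (w μ : Fin 9 → ℕ)
    (h : ∀ i j k, i ≠ j → j ≠ k → i ≠ k → w i + w j + w k ≤ D0) (hle : ∀ i, μ i ≤ D)
    (hs : ∑ i, μ i ≤ 3 * D) : ∑ i, w i * μ i ≤ D0 * D := by
  classical
  obtain ⟨a, -, ha⟩ := Finset.exists_max_image Finset.univ w Finset.univ_nonempty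
  obtain ⟨b, hb, hbm⟩ := Finset.exists_max_image (Finset.univ.erase a) w (by
    rw [← Finset.card_pos, Finset.card_erase_of_mem (Finset.mem_univ a)]; simp)
  have hcard : (((Finset.univ : Finset (Fin 9)).erase a).erase b).card = 7 := by
    rw [Finset.card_erase_of_mem hb, Finset.card_erase_of_mem (Finset.mem_univ a)]; simp
  obtain ⟨c, hc, hcm⟩ := Finset.exists_max_image ((Finset.univ.erase a).erase b) w (by
    rw [← Finset.card_pos, hcard]; norm_num)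
  have hba : b ≠ a := (Finset.mem_erase.mp hb).1
  have hcb : c ≠ b := (Finset.mem_erase.mp hc).1
  have hc' : c ∈ Finset.univ.erase a := (Finset.mem_erase.mp hc).2
  have hca : c ≠ a := (Finset.mem_erase.mp hc').1
  obtain ⟨R, hR⟩ : ∃ R, R = ∑ i ∈ (Finset.univ.erase a).erase b, μ i := ⟨_, rfl⟩
  have hsum : ∑ i, μ i = μ a + (μ b + R) := by
    rw [hR, Finset.add_sum_erase _ _ hb, Finset.add_sum_erase _ _ (Finset.mem_univ a)]
  have hsum2 : ∑ i, w i * μ i = w a * μ a + (w b * μ b +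
      ∑ i ∈ (Finset.univ.erase a).erase b, w i * μ i) := by
    rw [Finset.add_sum_erase _ (fun i => w i * μ i) hb,
      Finset.add_sum_erase _ (fun i => w i * μ i) (Finset.mem_univ a)]
  have hrest : ∑ i ∈ (Finset.univ.erase a).erase b, w i * μ i ≤ w c * R := by
    rw [hR, Finset.mul_sum]
    exact Finset.sum_le_sum fun i hi => Nat.mul_le_mul_right _ (hcm i hi)
  obtain ⟨A, hA⟩ : ∃ A, w a = w c + A := ⟨w a - w c, by have := ha c (Finset.mem_univ c); omega⟩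
  obtain ⟨B, hB⟩ : ∃ B, w b = w c + B := ⟨w b - w c, by have := hbm c hc'; omega⟩
  have htri := h a b c (Ne.symm hba) (Ne.symm hcb) (Ne.symm hca)
  rw [hsum] at hs
  rw [hsum2]
  have h1 : A * μ a ≤ A * D := Nat.mul_le_mul_left _ (hle a)
  have h2 : B * μ b ≤ B * D := Nat.mul_le_mul_left _ (hle b)
  have h3 : w c * (μ a + (μ b + R)) ≤ w c * (3 * D) := Nat.mul_le_mul_left _ hs
  have h4 : (w a + w b + w c) * D ≤ D0 * D := Nat.mul_le_mul_right _ htri
  rw [hA, hB] at h4 ⊢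
  calc (w c + A) * μ a + ((w c + B) * μ b +
      ∑ i ∈ (Finset.univ.erase a).erase b, w i * μ i)
      ≤ (w c + A) * μ a + ((w c + B) * μ b + w c * R) := by omega
    _ = w c * (μ a + (μ b + R)) + A * μ a + B * μ b := by ring
    _ ≤ w c * (3 * D) + A * D + B * D := by omega
    _ = (w c + A + (w c + B) + w c) * D := by ring
    _ ≤ D0 * D := h4

/-- `∑ mult_i F ≤ 3 deg F` at nine very general points -/
lemma nine_sum {q : Fin 9 → Fin 2 → ℂ} (hq : VGN one_pos q) {F : R2} (hF : Irreducible F) :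
    ∑ i, mult (q i) F ≤ 3 * wdeg 1 F :=
  nine_num (μ := fun i => mult (q i) F)
    (fun i => Pool.Agent.helper25.ST.Nef0aux.mult_le_deg (q i) hF.ne_zero)
    (fun j hj => xuOne hq hF j hj) (fun _ _ hik => swOne hq hF hik)

theorem nef_nine {D0 : ℕ} (w : Fin 9 → ℕ)
    (h : ∀ i j k, i ≠ j → j ≠ k → i ≠ k → w i + w j + w k ≤ D0) :
    Pool.Agent.helper25.ST.NefP D0 w := by
  refine ⟨TN one_pos 9, TN_countable one_pos _, TN_ne one_pos _, fun q hq => ?_⟩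
  have hV := VGN_of one_pos hq
  refine ⟨hV.inj, fun F hF => ?_⟩
  refine Pool.Agent.helper25.ST.nef_of_irred ?_ F hF
  intro G hG
  exact nine_lin w (fun i => mult (q i) G) h
    (fun i => Pool.Agent.helper25.ST.Nef0aux.mult_le_deg (q i) hG.ne_zero) (nine_sum hV hG)

end Pool.Agent.KB
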