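import Pool.Agent.KB.Leaf
import Pool.Agent.KD.StripK

set_option autoImplicit false

/-!
# Non-speciality of a system with a plan and big points, outside a thin strip
-/

namespace Pool.Agent.KB

open Pool.Agent.helper89.Segre Pool.Agent.SH9 Pool.Agent.helper61.EX Pool.Agent.KD

section

variable {V k e J d : ℕ} {Bg ms : Multiset ℕ} {F P : Multiset Grp} {R : Multiset ℕ}

/-- **regular half** -/
theorem regKB (hV : 341 ≤ V) (h : Plan (3 * V + 3) k e ms F P R)
    (hN : (3 * V + 3) * e + (3 * V + 3) * (3 * V + 4) * (16 * J + 2339 * k) ≤ 2 * cd ms)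
    (hB : NefPm (d + 3) ((4 * (3 * V + 4)) ::ₘ Bg.map fun x => x + 1))
    (h5 : (d + 3) ^ 2 ≤ 5 ^ J) (hBg : s1 Bg ≤ 3 * d + 6)
    (hR : cd Bg + cd ms + 2 * s1 (up F) + 2 * e ≤ (tri d).card) :
    Good ℂ (tri d) (Bg + ms) (cd (Bg + ms)) := by
  have hok : ∀ g ∈ F + P, g.Ok := by
    intro g hg
    rcases Multiset.mem_add.mp hg with hg | hg
    · exact h.okF g hg
    · exact h.okP g hg
  have hms : pts (F + P) + R = ms := by rw [pts_add]; exact h.hms
  have hcu := cd_up hok
  have hrh := rh_le hok
  have hcd : cd (up (F + P) + R) = cd ms + rh (F + P) := by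
    rw [Pool.Agent.helper61.EX.cd_add, hcu, ← hms, Pool.Agent.helper61.EX.cd_add]
    ring
  have hs1 : s1 (up (F + P)) = s1 (up F) + s1 (up P) := by rw [up_add', s1_add]
  have he := h.he
  have hcF := card_F h hN
  have key : Good ℂ (tri d) (Bg + (up (F + P) + R)) (cd (Bg + (up (F + P) + R))) := by
    refine leafRB (V := V) (W0 := 3 * V + 4) (K0 := 2324) (J := J) (by omega) (by omega) (K0_ok hV)
      ?_ hB ?_ h5 hBg ?_
    · intro x hx
      rcases Multiset.mem_add.mp hx with hx | hx
      · obtain ⟨g, hg, rfl⟩ := Multiset.mem_map.mp hx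
        rcases Multiset.mem_add.mp hg with hg | hg
        · have := h.tF g hg
          omega
        · have := h.tP g hg
          omega
      · have := h.hR x hx
        omega
    · refine pot_ge (fs := F.map fun g => g.t + 3) (k := k) ?_ ?_ ?_ ?_
      · rw [up_add', Multiset.map_add, Multiset.map_add]
        have e1 : (up F).map (fun x => x + 1) = F.map fun g => g.t + 3 := by
          rw [up, Multiset.map_map]
          rfl
        rw [e1, add_assoc]
        exact Multiset.le_add_right _ _
      · intro x hx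
        obtain ⟨g, hg, rfl⟩ := Multiset.mem_map.mp hx
        have h1 := h.tF g hg
        have h2 := h.tF' g hg
        omega
      · refine le_trans ?_ h.hk
        have e1 : (F.map fun g => g.t + 3).toFinset = (F.map Grp.t).toFinset.image (· + 3) := by
          ext x
          simp [Multiset.mem_toFinset, Finset.mem_image]
        rw [e1]
        exact Finset.card_image_le
      · rw [Multiset.card_map]
        exact hcF
    · rw [hcd, s1_add, hs1]
      omega
  have e2 : Bg + (up (F + P) + R) = up (F + P) + (Bg + R) := by abel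
  rw [e2] at key
  have h6 := good_of_up (F + P) (Bg + R) hok key
  have e3 : pts (F + P) + (Bg + R) = Bg + ms := by rw [← hms]; abel
  rw [e3] at h6
  exact h6

/-- **empty half** -/
theorem empKB (hV : 341 ≤ V) (h : Plan (3 * V + 3) k e ms F P R)
    (hN : (3 * V + 3) * e + (3 * V + 3) * (3 * V + 4) * (16 * J + 2339 * k) ≤ 2 * cd ms)
    (hB : NefPm d ((4 * (3 * V + 4)) ::ₘ Bg))
    (h5 : d ^ 2 + 1 ≤ 5 ^ J) (hBg : Bg.sum ≤ 3 * d + 1)
    (hE : 2 * (tri d).card + 3 * s1 (up F) + 3 * e ≤ 2 * cd Bg + 2 * cd ms) : E d (Bg + ms) := by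
  have hok : ∀ g ∈ F + P, g.Ok := by
    intro g hg
    rcases Multiset.mem_add.mp hg with hg | hg
    · exact h.okF g hg
    · exact h.okP g hg
  have hms : pts (F + P) + R = ms := by rw [pts_add]; exact h.hms
  have hcu := cd_lo hok
  have hsg := sg_le hok
  have hcd : cd (lo (F + P) + R) + sg (F + P) = cd ms := by
    rw [Pool.Agent.helper61.EX.cd_add, ← hms, Pool.Agent.helper61.EX.cd_add]
    omega
  have hs1 : s1 (up (F + P)) = s1 (up F) + s1 (up P) := by rw [up_add', s1_add]
  have he := h.he
  have hcF := card_F h hN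
  have hsq := sq_cd (Bg + (lo (F + P) + R))
  have hsum : (lo (F + P) + R).sum ≤ s1 (up F) + s1 (up P) + s1 R := by
    rw [Multiset.sum_add]
    have h1 := lo_sum_le (F + P)
    have h2 := sum_le_s1 R
    omega
  have hC := card_tri d
  have h2c := Pool.Agent.helper25.ST.two_choose d
  have h2c' : (d + 1) * (d + 2) = d ^ 2 + (3 * d + 2) := by ring
  rw [Multiset.sum_add, Pool.Agent.helper61.EX.cd_add] at hsq
  have hsq2 : d ^ 2 + 1 ≤ KD.sq (Bg + (lo (F + P) + R)) := by omega
  have key : E d (Bg + (lo (F + P) + R)) := by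
    refine leafEB (V := V) (W0 := 3 * V + 4) (K0 := 2324) (J := J) (by omega) (by omega) (K0_ok hV)
      ?_ hB ?_ h5 hsq2
    · intro x hx
      rcases Multiset.mem_add.mp hx with hx | hx
      · obtain ⟨g, hg, rfl⟩ := Multiset.mem_map.mp hx
        rcases Multiset.mem_add.mp hg with hg | hg
        · have := h.tF g hg
          omega
        · have := h.tP g hg
          omega
      · have := h.hR x hx
        omega
    · refine pot_ge (fs := lo F) (k := k) ?_ ?_ ?_ ?_
      · rw [lo_add, add_assoc]
        exact Multiset.le_add_right _ _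
      · intro x hx
        obtain ⟨g, hg, rfl⟩ := Multiset.mem_map.mp hx
        have h1 := h.tF g hg
        have h2 := h.tF' g hg
        omega
      · refine le_trans ?_ h.hk
        have e1 : (lo F).toFinset = (F.map Grp.t).toFinset.image (· + 1) := by
          ext x
          simp [lo, Multiset.mem_toFinset, Finset.mem_image]
        rw [e1]
        exact Finset.card_image_le
      · rw [lo, Multiset.card_map]
        exact hcF
  have e2 : Bg + (lo (F + P) + R) = lo (F + P) + (Bg + R) := by abel
  rw [e2] at key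
  have h6 := E_of_lo (F + P) (Bg + R) hok key
  have e3 : pts (F + P) + (Bg + R) = Bg + ms := by rw [← hms]; abel
  rw [e3] at h6
  exact h6

end

end Pool.Agent.KB
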